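import Pool.Agent.Q222.MK.SLAW
import Pool.Agent.Q210.MK.POIS
import Pool.Agent.Q291.MK.Stm3

/-!
Project MK, jobs CRE, CRS, CRL, CRP: derivatives along curves of laws.
-/

set_option autoImplicit false

namespace Pool.Agent.Q237.MK

open Pool.Agent.Q291.MK Finset Filter Topology

/-- derivative of a dominated series -/
theorem tsum_deriv {ι : Type} (f f' : ℝ → ι → ℝ) (u : ι → ℝ) (hu : Summable u)
    (hf : ∀ s ∈ Set.Icc (0:ℝ) 1, ∀ i, HasDerivWithinAt (fun s => f s i) (f' s i) (Set.Icc 0 1) s)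
    (hb : ∀ s ∈ Set.Icc (0:ℝ) 1, ∀ i, |f' s i| ≤ u i)
    (hs : ∀ s ∈ Set.Icc (0:ℝ) 1, Summable (f s)) (s : ℝ) (hsI : s ∈ Set.Icc (0:ℝ) 1) :
    HasDerivWithinAt (fun s => ∑' i, f s i) (∑' i, f' s i) (Set.Icc 0 1) s := by
  rw [hasDerivWithinAt_iff_tendsto_slope]
  have h1 : Tendsto (fun t => ∑' i, slope (fun s => f s i) s t) (𝓝[Set.Icc 0 1 \ {s}] s)
      (𝓝 (∑' i, f' s i)) := by
    apply tendsto_tsum_of_dominated_convergence hu
    · intro i
      exact hasDerivWithinAt_iff_tendsto_slope.1 (hf s hsI i)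
    · filter_upwards [self_mem_nhdsWithin] with t ht i
      have hts : t ≠ s := ht.2
      have h2 := Convex.norm_image_sub_le_of_norm_hasDerivWithin_le (f := fun s => f s i)
        (f' := fun s => f' s i) (C := u i) (s := Set.Icc (0:ℝ) 1) (x := s) (y := t)
        (fun x hx => hf x hx i) (fun x hx => hb x hx i) (convex_Icc 0 1) hsI ht.1
      rw [slope_def_field, norm_div, div_le_iff₀ (norm_pos_iff.2 (sub_ne_zero.2 hts))]
      exact h2
  refine h1.congr' ?_
  filter_upwards [self_mem_nhdsWithin] with t ht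
  simp only [slope_def_field]
  rw [tsum_div_const, Summable.tsum_sub (hs t ht.1) (hs s hsI)]

theorem summ_pb {A : ℕ → ℝ} (hA : ∀ q : ℕ, Summable fun k => A k * (k:ℝ) ^ q) (hA0 : ∀ k, 0 ≤ A k)
    {φ : ℕ → ℝ} (h : PB φ) : Summable fun k => A k * |φ k| := by
  obtain ⟨C, q, hC, h⟩ := h.nonneg_C
  have h1 : Summable fun k => A k * (C * ∑ i ∈ range (q + 1), (q.choose i : ℝ) * (k:ℝ) ^ i) := by
    have : (fun k => A k * (C * ∑ i ∈ range (q + 1), (q.choose i : ℝ) * (k:ℝ) ^ i)) =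
        fun k => ∑ i ∈ range (q + 1), (C * q.choose i) * (A k * (k:ℝ) ^ i) := by
      funext k
      rw [Finset.mul_sum, Finset.mul_sum]
      exact Finset.sum_congr rfl fun i _ => by ring
    rw [this]
    exact summable_sum fun i _ => (hA i).mul_left _
  refine Summable.of_norm_bounded h1 fun k => ?_
  rw [Real.norm_eq_abs, abs_mul, abs_of_nonneg (hA0 k), abs_abs]
  refine mul_le_mul_of_nonneg_left ((h k).trans (le_of_eq ?_)) (hA0 k)
  congr 1
  rw [add_comm (1:ℝ), add_pow]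
  exact Finset.sum_congr rfl fun i _ => by ring

theorem sg_mom {A h : ℕ → ℝ} (hA : ∀ q : ℕ, Summable fun k => A k * (k:ℝ) ^ q)
    (hh : ∀ k, |h k| ≤ A k) (q : ℕ) : Summable fun k => |h k| * (k:ℝ) ^ q := by
  refine Summable.of_nonneg_of_le (fun k => by positivity) (fun k => ?_) (hA q)
  exact mul_le_mul_of_nonneg_right (hh k) (by positivity)

theorem E_deriv {a h : ℝ → ℕ → ℝ} (hc : Crv a h) {s : ℝ} (hs : s ∈ Set.Icc (0:ℝ) 1) {φ : ℕ → ℝ}
    (hφ : PB φ) : HasDerivWithinAt (fun s => E (a s) φ) (E (h s) φ) (Set.Icc 0 1) s := by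
  obtain ⟨A, hA, hA0, hm⟩ := hc.maj
  refine tsum_deriv (fun s k => a s k * φ k) (fun s k => h s k * φ k) (fun k => A k * |φ k|)
    (summ_pb hA hA0 hφ) (fun x hx k => (hc.der x hx k).mul_const (φ k)) (fun x hx k => ?_)
    (fun x hx => (hc.am x hx).summ hφ) s hs
  rw [abs_mul]
  exact mul_le_mul_of_nonneg_right (hm x hx k).2 (abs_nonneg _)

theorem t_CRE : P_CRE := by
  intro a h hc s hs
  refine ⟨⟨?_, ?_⟩, fun φ hφ => E_deriv hc hs hφ⟩
  · obtain ⟨A, hA, hA0, hm⟩ := hc.maj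
    exact sg_mom hA fun k => (hm s hs k).2
  · have h1 := E_deriv hc hs (PB.const 1)
    have h2 : HasDerivWithinAt (fun s => E (a s) (fun _ => 1)) 0 (Set.Icc 0 1) s :=
      (hasDerivWithinAt_const s (Set.Icc (0:ℝ) 1) (1:ℝ)).congr
        (fun x hx => (hc.am x hx).toLaw.E_const 1) ((hc.am s hs).toLaw.E_const 1)
    exact UniqueDiffWithinAt.eq_deriv (Set.Icc (0:ℝ) 1) (uniqueDiffOn_Icc zero_lt_one s hs) h1 h2

/-! ### The square -/

theorem anti_le {k q : ℕ} {p : ℕ × ℕ} (hp : p ∈ Finset.HasAntidiagonal.antidiagonal k) :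
    (k : ℝ) ^ q ≤ (1 + (p.1 : ℝ)) ^ q * (1 + (p.2 : ℝ)) ^ q := by
  rw [Finset.HasAntidiagonal.mem_antidiagonal] at hp
  rw [← mul_pow, ← hp]
  have h1 : (0:ℝ) ≤ p.1 := Nat.cast_nonneg _
  have h2 : (0:ℝ) ≤ p.2 := Nat.cast_nonneg _
  push_cast
  gcongr
  nlinarith [mul_nonneg h1 h2]

theorem conv_mom {A : ℕ → ℝ} (hA : ∀ q : ℕ, Summable fun k => A k * (k:ℝ) ^ q) (hA0 : ∀ k, 0 ≤ A k)
    (q : ℕ) : Summable fun k => (∑ p ∈ Finset.HasAntidiagonal.antidiagonal k, A p.1 * A p.2) *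
      (k:ℝ) ^ q := by
  have h1 : Summable fun k => A k * |(1 + (k:ℝ)) ^ q| :=
    summ_pb hA hA0 (((PB.const 1).add PB.id).pow q)
  have h2 : ∀ k : ℕ, ‖A k * |(1 + (k:ℝ)) ^ q|‖ = A k * |(1 + (k:ℝ)) ^ q| := fun k => by
    rw [Real.norm_eq_abs, abs_mul, abs_abs, abs_of_nonneg (hA0 k)]
  have h3 : Summable fun k => ‖A k * |(1 + (k:ℝ)) ^ q|‖ := by
    simp only [h2]
    exact h1
  have h4 := summable_norm_sum_mul_antidiagonal_of_summable_norm h3 h3
  refine Summable.of_nonneg_of_le (fun k => ?_) (fun k => ?_) h4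
  · exact mul_nonneg (Finset.sum_nonneg fun p _ => mul_nonneg (hA0 _) (hA0 _)) (by positivity)
  · rw [Finset.sum_mul]
    refine le_trans ?_ (le_abs_self _)
    refine Finset.sum_le_sum fun p hp => ?_
    have h5 := anti_le (q := q) hp
    have h6 : (0:ℝ) ≤ (1 + (p.1 : ℝ)) ^ q := by positivity
    have h7 : (0:ℝ) ≤ (1 + (p.2 : ℝ)) ^ q := by positivity
    rw [abs_of_nonneg h6, abs_of_nonneg h7]
    calc A p.1 * A p.2 * (k:ℝ) ^ q ≤ A p.1 * A p.2 * ((1 + (p.1 : ℝ)) ^ q * (1 + (p.2 : ℝ)) ^ q) :=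
          mul_le_mul_of_nonneg_left h5 (mul_nonneg (hA0 _) (hA0 _))
      _ = _ := by ring

theorem t_CRS : P_CRS := by
  intro a h hc
  obtain ⟨A, hA, hA0, hm⟩ := hc.maj
  refine ⟨fun s hs => Pool.Agent.Q222.MK.AM_S (hc.am s hs), fun s hs k => ?_,
    fun k => 2 * ∑ p ∈ Finset.HasAntidiagonal.antidiagonal k, A p.1 * A p.2, fun q => ?_, fun k => ?_,
    fun s hs k => ⟨?_, ?_⟩⟩
  · have h1 : HasDerivWithinAt (fun s => S (a s) k)
        (∑ p ∈ Finset.HasAntidiagonal.antidiagonal k, (h s p.1 * a s p.2 + a s p.1 * h s p.2))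
        (Set.Icc 0 1) s := by
      unfold S
      exact HasDerivWithinAt.fun_sum fun p _ => (hc.der s hs p.1).mul (hc.der s hs p.2)
    have h2 : dS (a s) (h s) k =
        ∑ p ∈ Finset.HasAntidiagonal.antidiagonal k, (h s p.1 * a s p.2 + a s p.1 * h s p.2) := by
      rw [Finset.sum_add_distrib]
      have h3 : ∑ p ∈ Finset.HasAntidiagonal.antidiagonal k, h s p.1 * a s p.2 =
          ∑ p ∈ Finset.HasAntidiagonal.antidiagonal k, a s p.1 * h s p.2 := by
        have h4 := Finset.Nat.sum_antidiagonal_swap (n := k) (f := fun p : ℕ × ℕ => a s p.1 * h s p.2)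
        rw [← h4]
        exact Finset.sum_congr rfl fun p _ => mul_comm _ _
      rw [h3]
      unfold dS
      ring
    rw [h2]
    exact h1
  · have h1 := (conv_mom hA hA0 q).mul_left 2
    refine h1.congr fun k => ?_
    ring
  · exact mul_nonneg zero_le_two (Finset.sum_nonneg fun p _ => mul_nonneg (hA0 _) (hA0 _))
  · have h1 : |S (a s) k| ≤ ∑ p ∈ Finset.HasAntidiagonal.antidiagonal k, A p.1 * A p.2 := by
      unfold S
      refine (Finset.abs_sum_le_sum_abs _ _).trans (Finset.sum_le_sum fun p _ => ?_)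
      rw [abs_mul]
      exact mul_le_mul (hm s hs _).1 (hm s hs _).1 (abs_nonneg _) (hA0 _)
    have h2 : 0 ≤ ∑ p ∈ Finset.HasAntidiagonal.antidiagonal k, A p.1 * A p.2 :=
      Finset.sum_nonneg fun p _ => mul_nonneg (hA0 _) (hA0 _)
    linarith
  · unfold dS
    rw [abs_mul, abs_of_pos (zero_lt_two : (0:ℝ) < 2)]
    refine mul_le_mul_of_nonneg_left ?_ zero_le_two
    refine (Finset.abs_sum_le_sum_abs _ _).trans (Finset.sum_le_sum fun p _ => ?_)
    rw [abs_mul]
    exact mul_le_mul (hm s hs _).1 (hm s hs _).2 (abs_nonneg _) (hA0 _)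

/-! ### Segments -/

theorem t_CRL1 : P_CRL := by
  intro a b ha hb
  refine ⟨fun s hs => ⟨⟨fun k => ?_, ?_⟩, fun q => ?_⟩, fun s hs k => ?_, fun k => a k + b k,
    fun q => ?_, fun k => add_nonneg (ha.nn k) (hb.nn k), fun s hs k => ⟨?_, ?_⟩⟩
  · exact add_nonneg (mul_nonneg (sub_nonneg.2 hs.2) (ha.nn k)) (mul_nonneg hs.1 (hb.nn k))
  · have h1 := (ha.one.mul_left (1 - s)).add (hb.one.mul_left s)
    have h2 : (1 - s) * 1 + s * 1 = 1 := by ring
    rw [h2] at h1
    exact h1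
  · refine (((ha.mom q).mul_left (1 - s)).add ((hb.mom q).mul_left s)).congr fun k => ?_
    ring
  · have h1 : HasDerivAt (fun s : ℝ => (1 - s) * a k + s * b k) ((0 - 1) * a k + 1 * b k) s :=
      (((hasDerivAt_const s (1:ℝ)).sub (hasDerivAt_id s)).mul_const (a k)).add
        ((hasDerivAt_id s).mul_const (b k))
    have h2 : (0 - 1) * a k + 1 * b k = b k - a k := by ring
    rw [h2] at h1
    exact h1.hasDerivWithinAt
  · refine ((ha.mom q).add (hb.mom q)).congr fun k => ?_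
    ring
  · have h1 := ha.nn k
    have h2 := hb.nn k
    have h3 := hs.1
    have h4 := hs.2
    rw [abs_of_nonneg (add_nonneg (mul_nonneg (sub_nonneg.2 hs.2) (ha.nn k))
      (mul_nonneg hs.1 (hb.nn k)))]
    nlinarith
  · have h1 := ha.nn k
    have h2 := hb.nn k
    rw [abs_le]
    constructor <;> linarith

/-! ### The Poisson laws -/

/-- the shifted law -/
noncomputable def shp (m : ℝ) (k : ℕ) : ℝ := if k = 0 then 0 else pois m (k - 1)

theorem shp_nonneg {m : ℝ} (hm : 0 ≤ m) (k : ℕ) : 0 ≤ shp m k := by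
  unfold shp
  split_ifs
  · exact le_rfl
  · exact Pool.Agent.Q210.MK.pois_nn hm _

theorem shp_summ {m : ℝ} (hm : 0 ≤ m) {φ : ℕ → ℝ} (h : PB φ) :
    HasSum (fun k => shp m k * φ k) (E (pois m) (fun k => φ (k + 1))) := by
  have h1 := ((Pool.Agent.Q210.MK.pois_AM hm).summ (Pool.Agent.Q210.MK.PB_shift h)).hasSum
  rw [← hasSum_nat_add_iff' (f := fun k => shp m k * φ k) 1]
  have h2 : E (pois m) (fun k => φ (k + 1)) - ∑ i ∈ range 1, shp m i * φ i =
      E (pois m) (fun k => φ (k + 1)) := by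
    simp [shp]
  rw [h2]
  have h3 : (fun k => shp m (k + 1) * φ (k + 1)) = fun k => pois m k * φ (k + 1) := by
    funext k
    simp [shp]
  rw [h3]
  exact h1

theorem E_vpois {m x : ℝ} (hm : 0 ≤ m) {φ : ℕ → ℝ} (h : PB φ) :
    E (vpois m x) φ = x * E (pois m) (dl φ) := by
  have ham := Pool.Agent.Q210.MK.pois_AM hm
  have h1 := shp_summ hm h
  have h2 := (ham.summ h).hasSum
  have h3 := (h1.sub h2).mul_left x
  have h4 : E (pois m) (dl φ) = E (pois m) (fun k => φ (k + 1)) - E (pois m) φ :=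
    ham.E_sub (Pool.Agent.Q210.MK.PB_shift h) h
  rw [h4]
  refine Eq.trans ?_ h3.tsum_eq
  unfold E
  refine tsum_congr fun k => ?_
  unfold vpois shp
  ring

theorem pois_deriv (m : ℝ) (k : ℕ) : HasDerivAt (fun m => pois m k) (shp m k - pois m k) m := by
  have h1 : HasDerivAt (fun m : ℝ => Real.exp (-m)) (-Real.exp (-m)) m := by
    have h := (hasDerivAt_neg m).exp
    simpa using h
  have h2 : HasDerivAt (fun m : ℝ => m ^ k) ((k : ℝ) * m ^ (k - 1)) m := hasDerivAt_pow k m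
  have h3 := (h1.mul h2).div_const (k.factorial : ℝ)
  have h4 : (-Real.exp (-m) * m ^ k + Real.exp (-m) * ((k : ℝ) * m ^ (k - 1))) / (k.factorial : ℝ) =
      shp m k - pois m k := by
    unfold shp pois
    cases k with
    | zero => simp
    | succ k =>
      simp only [Nat.succ_ne_zero, if_false, Nat.add_sub_cancel]
      rw [Nat.factorial_succ]
      have h5 : (k.factorial : ℝ) ≠ 0 := by exact_mod_cast k.factorial_ne_zero
      have h6 : ((k : ℝ) + 1) ≠ 0 := by positivity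
      push_cast
      field_simp
      ring
  rw [h4] at h3
  exact h3

theorem pois_le {m B : ℝ} (hm : 0 ≤ m) (hmB : m ≤ B) (k : ℕ) : pois m k ≤ Real.exp B * pois B k := by
  unfold pois
  have h1 : Real.exp B * (Real.exp (-B) * B ^ k / k.factorial) = B ^ k / k.factorial := by
    rw [← mul_div_assoc, ← mul_assoc, ← Real.exp_add]
    simp
  rw [h1]
  apply div_le_div_of_nonneg_right _ (by positivity)
  have h2 : Real.exp (-m) ≤ 1 := Real.exp_le_one_iff.2 (by linarith)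
  have h3 : m ^ k ≤ B ^ k := pow_le_pow_left₀ hm hmB k
  calc Real.exp (-m) * m ^ k ≤ 1 * B ^ k := mul_le_mul h2 h3 (by positivity) zero_le_one
    _ = B ^ k := one_mul _

theorem shp_le {m B : ℝ} (hm : 0 ≤ m) (hmB : m ≤ B) (k : ℕ) : shp m k ≤ Real.exp B * shp B k := by
  unfold shp
  split_ifs
  · simp
  · exact pois_le hm hmB _

theorem t_CRP : P_CRP := by
  intro m1 m2 h1 h2
  have hin : ∀ s ∈ Set.Icc (0:ℝ) 1, 0 ≤ m1 + s * (m2 - m1) ∧ m1 + s * (m2 - m1) ≤ m1 + m2 := by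
    intro s hs
    obtain ⟨h3, h4⟩ := hs
    have h5 : 0 ≤ (1 - s) * m1 := mul_nonneg (by linarith) h1.le
    have h6 : 0 ≤ s * m2 := mul_nonneg h3 h2.le
    have h7 : (1 - s) * m1 ≤ m1 := by nlinarith
    have h8 : s * m2 ≤ m2 := by nlinarith
    constructor <;> nlinarith
  have hB : 0 ≤ m1 + m2 := by linarith
  refine ⟨⟨fun s hs => Pool.Agent.Q210.MK.pois_AM (hin s hs).1, fun s hs k => ?_,
    fun k => Real.exp (m1 + m2) * ((1 + |m2 - m1|) * (shp (m1 + m2) k + pois (m1 + m2) k)),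
    fun q => ?_, fun k => ?_, fun s hs k => ⟨?_, ?_⟩⟩, fun x e he => ⟨⟨⟨fun q => ?_, ?_⟩, ?_, fun φ hφ => ?_⟩,
      ?_⟩⟩
  · have h3 : HasDerivAt (fun s : ℝ => m1 + s * (m2 - m1)) (1 * (m2 - m1)) s :=
      ((hasDerivAt_id s).mul_const (m2 - m1)).const_add m1
    have h4 := HasDerivAt.comp s (pois_deriv (m1 + s * (m2 - m1)) k) h3
    have h5 : (shp (m1 + s * (m2 - m1)) k - pois (m1 + s * (m2 - m1)) k) * (1 * (m2 - m1)) =
        vpois (m1 + s * (m2 - m1)) (m2 - m1) k := by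
      unfold vpois shp
      ring
    rw [h5] at h4
    exact h4.hasDerivWithinAt
  · have h3 := (shp_summ hB (PB.id.pow q)).summable
    have h4 := (Pool.Agent.Q210.MK.pois_AM hB).summ (PB.id.pow q)
    refine ((h3.add h4).mul_left (Real.exp (m1 + m2) * (1 + |m2 - m1|))).congr fun k => ?_
    ring
  · have h3 := shp_nonneg hB k
    have h4 := Pool.Agent.Q210.MK.pois_nn hB k
    positivity
  · obtain ⟨h3, h4⟩ := hin s hs
    rw [abs_of_nonneg (Pool.Agent.Q210.MK.pois_nn h3 k)]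
    refine (pois_le h3 h4 k).trans (mul_le_mul_of_nonneg_left ?_ (Real.exp_pos _).le)
    have h5 := shp_nonneg hB k
    have h6 := Pool.Agent.Q210.MK.pois_nn hB k
    have h7 := abs_nonneg (m2 - m1)
    nlinarith [mul_nonneg h7 h5, mul_nonneg h7 h6]
  · obtain ⟨h3, h4⟩ := hin s hs
    have h5 := shp_nonneg h3 k
    have h6 := Pool.Agent.Q210.MK.pois_nn h3 k
    have h7 := shp_le h3 h4 k
    have h8 := pois_le h3 h4 k
    have h9 := shp_nonneg hB k
    have h10 := Pool.Agent.Q210.MK.pois_nn hB k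
    have h11 : |shp (m1 + s * (m2 - m1)) k - pois (m1 + s * (m2 - m1)) k| ≤
        Real.exp (m1 + m2) * (shp (m1 + m2) k + pois (m1 + m2) k) := by
      have e1 := mul_nonneg (Real.exp_pos (m1 + m2)).le h9
      have e2 := mul_nonneg (Real.exp_pos (m1 + m2)).le h10
      rw [abs_le, mul_add]
      constructor <;> linarith
    have h12 : |vpois (m1 + s * (m2 - m1)) (m2 - m1) k| =
        |m2 - m1| * |shp (m1 + s * (m2 - m1)) k - pois (m1 + s * (m2 - m1)) k| := by
      rw [← abs_mul]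
      rfl
    rw [h12]
    have h13 := abs_nonneg (m2 - m1)
    calc |m2 - m1| * |shp (m1 + s * (m2 - m1)) k - pois (m1 + s * (m2 - m1)) k| ≤
        |m2 - m1| * (Real.exp (m1 + m2) * (shp (m1 + m2) k + pois (m1 + m2) k)) :=
          mul_le_mul_of_nonneg_left h11 h13
      _ ≤ (1 + |m2 - m1|) * (Real.exp (m1 + m2) * (shp (m1 + m2) k + pois (m1 + m2) k)) := by
          apply mul_le_mul_of_nonneg_right (by linarith)
          positivity
      _ = _ := by ring
  · have h3 := (shp_summ h1.le (PB.id.pow q)).summable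
    have h4 := (Pool.Agent.Q210.MK.pois_AM h1.le).summ (PB.id.pow q)
    refine Summable.of_nonneg_of_le (fun k => by positivity) (fun k => ?_) ((h3.add h4).mul_left |x|)
    have h5 := shp_nonneg h1.le k
    have h6 := Pool.Agent.Q210.MK.pois_nn h1.le k
    have h12 : |vpois m1 x k| = |x| * |shp m1 k - pois m1 k| := by
      rw [← abs_mul]
      rfl
    have h13 : |shp m1 k - pois m1 k| ≤ shp m1 k + pois m1 k := by
      rw [abs_le]
      constructor <;> linarith
    rw [h12]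
    calc |x| * |shp m1 k - pois m1 k| * (k:ℝ) ^ q ≤ |x| * (shp m1 k + pois m1 k) * (k:ℝ) ^ q := by
          gcongr
      _ = _ := by ring
  · rw [E_vpois h1.le (PB.const 1)]
    have h3 : dl (fun _ => (1:ℝ)) = fun _ => 0 := by
      funext k
      unfold dl
      ring
    rw [h3, (Pool.Agent.Q210.MK.pois_AM h1.le).toLaw.E_const, mul_zero]
  · rw [E_vpois h1.le PB.id]
    have h3 : dl (fun k => (k:ℝ)) = fun _ => 1 := by
      funext k
      unfold dl
      push_cast
      ring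
    rw [h3, (Pool.Agent.Q210.MK.pois_AM h1.le).toLaw.E_const, mul_one]
  · rw [E_vpois h1.le hφ.pb, sub_self, abs_zero]
  · unfold dv
    have ham := Pool.Agent.Q210.MK.pois_AM h1.le
    have hmean : mean (pois m1) = m1 := (Pool.Agent.Q210.MK.t_POIS m1 h1.le).2.1
    rw [E_vpois h1.le ((PB.id.sub (PB.const _)).pow 2)]
    have h3 : dl (fun k => ((k:ℝ) - mean (pois m1)) ^ 2) = fun k : ℕ => 2 * (k:ℝ) + (1 - 2 * m1) := by
      funext k
      unfold dl
      rw [hmean]
      push_cast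
      ring
    rw [h3, ham.E_add ((PB.const 2).mul PB.id) (PB.const _), E_const_mul, ham.toLaw.E_const]
    have h4 : E (pois m1) (fun k => (k:ℝ)) = m1 := hmean
    rw [h4]
    ring

theorem t_CRL : P_CRL ∧ P_CRP := ⟨t_CRL1, t_CRP⟩

end Pool.Agent.Q237.MK
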