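import Pool.Agent.Q280.MK.HYP1
import Pool.Agent.Q291.MK.Stm3

/-!
Project MK, job DIF: differences of hypergeometric expectations.
-/

set_option autoImplicit false

namespace Pool.Agent.Q237.MK

open Pool.Agent.Q291.MK Pool.Agent.Q280.MK Finset

theorem newton (φ : ℕ → ℝ) (j : ℕ) :
    φ j = ∑ r ∈ range (j + 1), (j.choose r : ℝ) * (dl^[r] φ) 0 := by
  induction j generalizing φ with
  | zero => simp
  | succ j ih =>
    have h1 : φ (j + 1) = φ j + dl φ j := by unfold dl; ring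
    have h2 := ih φ
    have h3 := ih (dl φ)
    have h4 : ∑ r ∈ range (j + 1), (j.choose (r + 1) : ℝ) * (dl^[r + 1] φ) 0 + φ 0 =
        ∑ r ∈ range (j + 1), (j.choose r : ℝ) * (dl^[r] φ) 0 := by
      have h5 := Finset.sum_range_succ' (fun r => (j.choose r : ℝ) * (dl^[r] φ) 0) (j + 1)
      have h6 := Finset.sum_range_succ (fun r => (j.choose r : ℝ) * (dl^[r] φ) 0) (j + 1)
      rw [h6] at h5
      simp only [Nat.choose_succ_self, Nat.cast_zero, zero_mul, add_zero, Nat.choose_zero_right,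
        Nat.cast_one, one_mul, Function.iterate_zero, id_eq] at h5
      rw [h5]
    rw [h1, h2, h3, Finset.sum_range_succ' _ (j + 1)]
    simp only [Nat.choose_succ_succ, Nat.cast_add, add_mul, Finset.sum_add_distrib,
      Nat.choose_zero_right, Nat.cast_one, one_mul, Function.iterate_zero, id_eq]
    rw [← h4]
    have h7 : ∀ r, (dl^[r] (dl φ)) 0 = (dl^[r + 1] φ) 0 := fun r => by
      rw [Function.iterate_succ_apply]
    simp only [h7]
    ring

theorem newton' (φ : ℕ → ℝ) {j N : ℕ} (h : j ≤ N) :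
    φ j = ∑ r ∈ range (N + 1), (j.choose r : ℝ) * (dl^[r] φ) 0 := by
  rw [newton φ j]
  refine Finset.sum_subset (Finset.range_subset_range.2 (by omega)) fun r _ hr => ?_
  rw [Finset.mem_range, not_lt] at hr
  rw [Nat.choose_eq_zero_of_lt (by omega), Nat.cast_zero, zero_mul]

theorem H_newton (φ : ℕ → ℝ) {K N : ℕ} (L : ℕ) (h : K ≤ N) :
    H K L φ = ∑ r ∈ range (N + 1), (dl^[r] φ) 0 *
      ((K.choose r : ℝ) * (L.choose r : ℝ) / gb (K + L + 1/2) r) := by
  have h1 : H K L φ = ∑ j ∈ range (K + 1), ∑ r ∈ range (N + 1),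
      (dl^[r] φ) 0 * (hyp K L j * (j.choose r : ℝ)) := by
    unfold H
    refine Finset.sum_congr rfl fun j hj => ?_
    have hj' : j ≤ N := by rw [Finset.mem_range] at hj; omega
    conv_lhs => rw [newton' φ hj', Finset.mul_sum]
    exact Finset.sum_congr rfl fun r _ => by ring
  rw [h1, Finset.sum_comm]
  refine Finset.sum_congr rfl fun r _ => ?_
  rw [← Finset.mul_sum]
  congr 1
  exact H_fact K L r

theorem H_symm (K L : ℕ) (φ : ℕ → ℝ) : H K L φ = H L K φ := by
  rw [H_newton φ L (le_max_left K L), H_newton φ K (le_max_right K L)]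
  refine Finset.sum_congr rfl fun r _ => ?_
  rw [mul_comm (K.choose r : ℝ), add_comm (K : ℝ)]

theorem gb_shift (x : ℝ) (r : ℕ) (h : (r : ℝ) < x + 1) : gb (x + 1) r = gb x r * (x + 1) / (x + 1 - r) := by
  induction r with
  | zero =>
    have : x + 1 ≠ 0 := by
      rw [Nat.cast_zero] at h
      exact h.ne'
    rw [gb_zero, gb_zero, Nat.cast_zero, sub_zero, one_mul, div_self this]
  | succ r ih =>
    push_cast at h
    have h1 : (r : ℝ) < x + 1 := by linarith
    rw [gb_succ, gb_succ, ih h1]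
    have h2 : x + 1 - r ≠ 0 := by
      have : 0 < x + 1 - r := by linarith
      exact this.ne'
    have h3 : x + 1 - ((r : ℕ) + 1 : ℕ) ≠ 0 := by
      push_cast
      have : 0 < x + 1 - (r + 1) := by linarith
      exact this.ne'
    have h4 : (r : ℝ) + 1 ≠ 0 := by positivity
    push_cast at h3 ⊢
    field_simp
    ring

theorem gb_down (x : ℝ) (r : ℕ) : gb x (r + 1) = gb (x - 1) r * x / (r + 1) := by
  induction r with
  | zero => simp [gb_succ, gb_zero]
  | succ r ih =>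
    rw [gb_succ, ih, gb_succ (x - 1)]
    have h1 : (r : ℝ) + 1 ≠ 0 := by positivity
    have h2 : (r : ℝ) + 1 + 1 ≠ 0 := by positivity
    push_cast
    field_simp
    ring

theorem choose_down (n r : ℕ) : ((n + 1).choose (r + 1) : ℝ) = (n.choose r : ℝ) * (n + 1) / (r + 1) := by
  have h1 := Nat.add_one_mul_choose_eq n r
  have h2 : ((n : ℝ) + 1) * (n.choose r : ℝ) = ((n + 1).choose (r + 1) : ℝ) * (r + 1) := by
    exact_mod_cast h1
  have h3 : (r : ℝ) + 1 ≠ 0 := by positivity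
  rw [eq_div_iff h3, ← h2]
  ring

theorem choose_next (n r : ℕ) : (n.choose (r + 1) : ℝ) = (n.choose r : ℝ) * (n - r) / (r + 1) := by
  have h3 : (r : ℝ) + 1 ≠ 0 := by positivity
  rw [eq_div_iff h3]
  rcases Nat.lt_or_ge n r with h | h
  · rw [Nat.choose_eq_zero_of_lt h, Nat.choose_eq_zero_of_lt (by omega)]
    simp
  · have h1 := Nat.choose_succ_right_eq n r
    have h2 : (n.choose (r + 1) : ℝ) * ((r : ℝ) + 1) = (n.choose r : ℝ) * ((n - r : ℕ) : ℝ) := by
      exact_mod_cast h1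
    rw [h2, Nat.cast_sub h]

theorem coef (K L r : ℕ) (h : r ≤ K) :
    ((K + 1).choose (r + 1) : ℝ) * ((L + 1).choose (r + 1) : ℝ) /
        gb ((K + 1 : ℕ) + (L + 1 : ℕ) + 1/2) (r + 1) -
      ((K + 1).choose (r + 1) : ℝ) * (L.choose (r + 1) : ℝ) / gb ((K + 1 : ℕ) + L + 1/2) (r + 1) =
    kap (K + 1) L * ((K.choose r : ℝ) * (L.choose r : ℝ) / gb (K + L + 1/2) r) := by
  have hK : (0 : ℝ) ≤ K := Nat.cast_nonneg K
  have hL : (0 : ℝ) ≤ L := Nat.cast_nonneg L
  have hr : (r : ℝ) ≤ K := by exact_mod_cast h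
  have hr0 : (0 : ℝ) ≤ r := Nat.cast_nonneg r
  set G : ℝ := gb ((K : ℝ) + L + 1/2) r with hG
  have hGp : 0 < G := den_pos' K L r h
  have h1 : gb (((K + 1 : ℕ) : ℝ) + L + 1/2) (r + 1) = G * ((K : ℝ) + L + 3/2) / (r + 1) := by
    rw [gb_down]
    have e : ((K + 1 : ℕ) : ℝ) + L + 1/2 - 1 = K + L + 1/2 := by push_cast; ring
    rw [e, ← hG]
    congr 2
    push_cast
    ring
  have h2 : gb (((K + 1 : ℕ) : ℝ) + (L + 1 : ℕ) + 1/2) (r + 1) =
      G * ((K : ℝ) + L + 3/2) / (r + 1) * ((K : ℝ) + L + 5/2) / (K + L + 3/2 - r) := by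
    have e : ((K + 1 : ℕ) : ℝ) + (L + 1 : ℕ) + 1/2 = (((K + 1 : ℕ) : ℝ) + L + 1/2) + 1 := by
      push_cast; ring
    rw [e, gb_shift _ _ (by push_cast; linarith), h1]
    congr 1
    · push_cast; ring
    · push_cast; ring
  rw [h1, h2, choose_down K r, choose_down L r, choose_next L r]
  unfold kap
  have e1 : (r : ℝ) + 1 ≠ 0 := by positivity
  have e2 : (K : ℝ) + L + 3/2 ≠ 0 := by positivity
  have e3 : (K : ℝ) + L + 5/2 ≠ 0 := by positivity
  have e4 : (K : ℝ) + L + 3/2 - r ≠ 0 := by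
    have : 0 < (K : ℝ) + L + 3/2 - r := by linarith
    exact this.ne'
  have e5 : G ≠ 0 := hGp.ne'
  have e6 : ((K : ℝ) + 1) + L + 1/2 ≠ 0 := by positivity
  have e7 : ((K : ℝ) + 1) + L + 3/2 ≠ 0 := by positivity
  push_cast
  have e8 : ((K : ℝ) + 1) + L + 1/2 = K + L + 3/2 := by ring
  have e9 : ((K : ℝ) + 1) + L + 3/2 = K + L + 5/2 := by ring
  rw [e8, e9]
  field_simp
  ring

theorem H_diff (K L : ℕ) (φ : ℕ → ℝ) :
    H K (L + 1) φ - H K L φ = kap K L * H (K - 1) L (dl φ) := by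
  cases K with
  | zero =>
    rw [H_symm 0 (L + 1), H_symm 0 L, H_newton φ 0 (le_refl (L + 1)), H_newton φ 0 (le_refl L)]
    have h1 : ∀ (N M : ℕ), ∑ r ∈ range (N + 1), (dl^[r] φ) 0 *
        ((M.choose r : ℝ) * ((0 : ℕ).choose r : ℝ) / gb ((M : ℕ) + (0 : ℕ) + 1/2) r) = φ 0 := by
      intro N M
      rw [Finset.sum_eq_single 0]
      · simp [gb_zero]
      · intro r _ hr
        obtain ⟨i, rfl⟩ := Nat.exists_eq_succ_of_ne_zero hr
        simp
      · intro h
        exact absurd (Finset.mem_range.2 (Nat.succ_pos N)) h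
    rw [h1, h1]
    simp [kap]
  | succ K =>
    rw [Nat.add_sub_cancel, H_newton φ (L + 1) (le_refl (K + 1)), H_newton φ L (le_refl (K + 1)),
      H_newton (dl φ) L (le_refl K), ← Finset.sum_sub_distrib, Finset.sum_range_succ',
      Finset.mul_sum]
    have h0 : (dl^[0] φ) 0 * (((K + 1).choose 0 : ℝ) * ((L + 1).choose 0 : ℝ) /
        gb (((K + 1 : ℕ) : ℝ) + ((L + 1 : ℕ) : ℝ) + 1/2) 0) - (dl^[0] φ) 0 *
        (((K + 1).choose 0 : ℝ) * (L.choose 0 : ℝ) / gb (((K + 1 : ℕ) : ℝ) + L + 1/2) 0) = 0 := by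
      simp [gb_zero]
    rw [h0, add_zero]
    refine Finset.sum_congr rfl fun r hr => ?_
    have hr' : r ≤ K := by rw [Finset.mem_range] at hr; omega
    rw [Function.iterate_succ_apply, ← mul_sub, coef K L r hr']
    ring

theorem I_diff (n : ℕ) : I (n + 1) - I n = -(3 / 2) * (I n / (n + 3)) := by
  rw [I_succ]
  have h1 : (2 * (n : ℝ) + 6) ≠ 0 := by positivity
  have h2 : (n : ℝ) + 3 ≠ 0 := by positivity
  field_simp
  ring

theorem I_next (n : ℕ) : I (n + 1) = I n * ((n + 3/2) / (n + 3)) := by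
  rw [I_succ]
  have h1 : (2 * (n : ℝ) + 6) ≠ 0 := by positivity
  have h2 : (n : ℝ) + 3 ≠ 0 := by positivity
  field_simp
  ring

theorem t_DIF : P_DIF := by
  intro K L φ
  refine ⟨H_diff K L φ, H_symm K L φ, fun t => ?_⟩
  have hfirst : ∀ M : ℕ, dl (fun L => I (K + L) * (H K L φ - t)) M =
      I (K + M + 1) * kap K M * H (K - 1) M (dl φ) -
        3 / 2 * (I (K + M) / (K + M + 3)) * (H K M φ - t) := by
    intro M
    have h1 := H_diff K M φ
    have h2 := I_diff (K + M)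
    push_cast at h2
    show I (K + (M + 1)) * (H K (M + 1) φ - t) - I (K + M) * (H K M φ - t) = _
    rw [← add_assoc]
    linear_combination I (K + M + 1) * h1 + (H K M φ - t) * h2
  refine ⟨hfirst L, ?_⟩
  have h0 : dl (dl (fun L => I (K + L) * (H K L φ - t))) L =
      dl (fun L => I (K + L) * (H K L φ - t)) (L + 1) - dl (fun L => I (K + L) * (H K L φ - t)) L := rfl
  rw [h0, hfirst (L + 1), hfirst L]
  have h1 := H_diff K L φ
  have h2 := H_diff (K - 1) L (dl φ)
  have h3 := I_diff (K + L + 1)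
  have h4 := I_next (K + L)
  have hK : (0 : ℝ) ≤ K := Nat.cast_nonneg K
  have hL : (0 : ℝ) ≤ L := Nat.cast_nonneg L
  have e1 : H K (L + 1) φ = H K L φ + kap K L * H (K - 1) L (dl φ) := by linarith
  have e2 : H (K - 1) (L + 1) (dl φ) = H (K - 1) L (dl φ) +
      kap (K - 1) L * H (K - 1 - 1) L (dl (dl φ)) := by linarith
  have e3 : kap K (L + 1) = kap K L - 2 * kap K L / (K + L + 5/2) := by
    unfold kap
    have g1 : (K : ℝ) + L + 1/2 ≠ 0 := by positivity
    have g2 : (K : ℝ) + L + 3/2 ≠ 0 := by positivity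
    have g3 : (K : ℝ) + L + 5/2 ≠ 0 := by positivity
    have g4 : (K : ℝ) + (L + 1) + 1/2 ≠ 0 := by positivity
    have g5 : (K : ℝ) + (L + 1) + 3/2 ≠ 0 := by positivity
    have g6 : (K : ℝ) + (L + 1) + 1/2 = K + L + 3/2 := by ring
    have g7 : (K : ℝ) + (L + 1) + 3/2 = K + L + 5/2 := by ring
    push_cast
    rw [g6, g7]
    field_simp
    ring
  have e4 : (K + (L + 1) : ℕ) = K + L + 1 := by ring
  rw [e1, e2, e3, e4]
  push_cast at h3 h4 ⊢
  have e5 : (K : ℝ) + (L + 1) + 3 = K + L + 4 := by ring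
  have e6 : (K : ℝ) + L + 1 + 3 = K + L + 4 := by ring
  rw [e6] at h3
  rw [e5]
  have e7 : I (K + L + 1 + 1) = I (K + L + 2) := rfl
  rw [e7] at h3 ⊢
  have g1 : (K : ℝ) + L + 3 ≠ 0 := by positivity
  have g2 : (K : ℝ) + L + 4 ≠ 0 := by positivity
  have g3 : (K : ℝ) + L + 5/2 ≠ 0 := by positivity
  have h5 : I (K + L + 1) / ((K : ℝ) + L + 4) - I (K + L) / (K + L + 3) =
      -(5 / 2) * (I (K + L) / ((K + L + 3) * (K + L + 4))) := by
    rw [h4]
    field_simp
    ring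
  linear_combination (kap K L * H (K - 1) L (dl φ)) * h3 - 3 / 2 * (H K L φ - t) * h5

end Pool.Agent.Q237.MK
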