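import Pool.Agent.Q237.MK.CRE
import Pool.Agent.Q237.MK.DIF
import Pool.Agent.Q222.MK.TLAW

/-!
Project MK, job CRT: the law of the convolution square along a curve of laws.
-/

set_option autoImplicit false

namespace Pool.Agent.Q237.MK

open Pool.Agent.Q291.MK Finset Filter Topology

theorem hyp_symm (K L j : ℕ) : hyp K L j = hyp L K j := by
  have h1 : ∀ K L : ℕ, H K L (fun i => if i = j then 1 else 0) = hyp K L j := by
    intro K L
    unfold H
    by_cases h : j ≤ K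
    · rw [Finset.sum_eq_single j]
      · simp
      · intro i _ hi
        simp [hi]
      · intro hj
        exact absurd (Finset.mem_range.2 (Nat.lt_succ_of_le h)) hj
    · rw [Finset.sum_eq_zero, Pool.Agent.Q222.MK.hyp_zero (by omega)]
      intro i hi
      have : i ≠ j := by
        rw [Finset.mem_range] at hi
        omega
      simp [this]
  rw [← h1 K L, ← h1 L K, H_symm]

theorem summ2_pb {A : ℕ → ℝ} (hA : ∀ q : ℕ, Summable fun k => A k * (k:ℝ) ^ q) (hA0 : ∀ k, 0 ≤ A k)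
    {F : ℕ → ℕ → ℝ} (h : PB2 F) : Summable fun p : ℕ × ℕ => A p.1 * A p.2 * |F p.1 p.2| := by
  obtain ⟨C, q, hC, h⟩ := h.nonneg_C
  have hs : Summable fun k => A k * |(1 + (k:ℝ)) ^ q| :=
    summ_pb hA hA0 (((PB.const 1).add PB.id).pow q)
  have h0 : 0 ≤ fun k => A k * |(1 + (k:ℝ)) ^ q| := fun k => mul_nonneg (hA0 k) (abs_nonneg _)
  have h1 := (hs.mul_of_nonneg hs h0 h0).mul_left C
  refine Summable.of_nonneg_of_le (fun p => ?_) (fun p => ?_) h1
  · exact mul_nonneg (mul_nonneg (hA0 _) (hA0 _)) (abs_nonneg _)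
  · have h2 : |(1 + (p.1:ℝ)) ^ q| = (1 + (p.1:ℝ)) ^ q := abs_of_nonneg (by positivity)
    have h3 : |(1 + (p.2:ℝ)) ^ q| = (1 + (p.2:ℝ)) ^ q := abs_of_nonneg (by positivity)
    calc A p.1 * A p.2 * |F p.1 p.2| ≤ A p.1 * A p.2 * (C * ((1 + (p.1:ℝ)) * (1 + (p.2:ℝ))) ^ q) :=
          mul_le_mul_of_nonneg_left (h p.1 p.2) (mul_nonneg (hA0 _) (hA0 _))
      _ = C * ((A p.1 * |(1 + (p.1:ℝ)) ^ q|) * (A p.2 * |(1 + (p.2:ℝ)) ^ q|)) := by
          rw [h2, h3, mul_pow]
          ring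

/-- summability of a dominated product -/
theorem summ_dom {A a b : ℕ → ℝ} (hA : ∀ q : ℕ, Summable fun k => A k * (k:ℝ) ^ q)
    (hA0 : ∀ k, 0 ≤ A k) (ha : ∀ k, |a k| ≤ A k) (hb : ∀ k, |b k| ≤ A k) {F : ℕ → ℕ → ℝ}
    (h : PB2 F) : Summable fun p : ℕ × ℕ => a p.1 * b p.2 * F p.1 p.2 := by
  refine Summable.of_norm_bounded (summ2_pb hA hA0 h) fun p => ?_
  rw [Real.norm_eq_abs, abs_mul, abs_mul]
  exact mul_le_mul_of_nonneg_right (mul_le_mul (ha _) (hb _) (abs_nonneg _) (hA0 _)) (abs_nonneg _)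

theorem EE_le {A a b : ℕ → ℝ} (hA : ∀ q : ℕ, Summable fun k => A k * (k:ℝ) ^ q)
    (hA0 : ∀ k, 0 ≤ A k) (ha : ∀ k, |a k| ≤ A k) (hb : ∀ k, |b k| ≤ A k) {F G : ℕ → ℕ → ℝ}
    (h : PB2 F) (hG : PB2 G) (hFG : ∀ K L, |F K L| ≤ G K L) : |EE a b F| ≤ E2 A G := by
  have h1 := summ_dom hA hA0 ha hb h
  have h2 : Summable fun p : ℕ × ℕ => A p.1 * A p.2 * G p.1 p.2 :=
    summ_dom hA hA0 (fun k => (abs_of_nonneg (hA0 k)).le) (fun k => (abs_of_nonneg (hA0 k)).le) hG
  have h3 : |EE a b F| ≤ ∑' p : ℕ × ℕ, ‖a p.1 * b p.2 * F p.1 p.2‖ := by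
    unfold EE
    exact norm_tsum_le_tsum_norm h1.norm
  refine h3.trans (Summable.tsum_le_tsum (fun p => ?_) h1.norm h2)
  rw [Real.norm_eq_abs, abs_mul, abs_mul]
  exact mul_le_mul (mul_le_mul (ha _) (hb _) (abs_nonneg _) (hA0 _)) (hFG _ _) (abs_nonneg _)
    (mul_nonneg (hA0 _) (hA0 _))

theorem E2_deriv {a h : ℝ → ℕ → ℝ} (hc : Crv a h) {s : ℝ} (hs : s ∈ Set.Icc (0:ℝ) 1)
    {F : ℕ → ℕ → ℝ} (hF : PB2 F) (hsym : ∀ K L, F K L = F L K) :
    HasDerivWithinAt (fun s => E2 (a s) F) (2 * EE (a s) (h s) F) (Set.Icc 0 1) s := by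
  obtain ⟨A, hA, hA0, hm⟩ := hc.maj
  have h1 := tsum_deriv (fun s (p : ℕ × ℕ) => a s p.1 * a s p.2 * F p.1 p.2)
    (fun s p => (h s p.1 * a s p.2 + a s p.1 * h s p.2) * F p.1 p.2)
    (fun p => 2 * (A p.1 * A p.2 * |F p.1 p.2|)) ((summ2_pb hA hA0 hF).mul_left 2)
    (fun x hx p => ((hc.der x hx p.1).mul (hc.der x hx p.2)).mul_const (F p.1 p.2))
    (fun x hx p => by
      rw [abs_mul]
      have e1 : |h x p.1 * a x p.2 + a x p.1 * h x p.2| ≤ 2 * (A p.1 * A p.2) := by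
        refine (abs_add_le _ _).trans ?_
        rw [abs_mul, abs_mul]
        have e2 := mul_le_mul (hm x hx p.1).2 (hm x hx p.2).1 (abs_nonneg _) (hA0 p.1)
        have e3 := mul_le_mul (hm x hx p.1).1 (hm x hx p.2).2 (abs_nonneg _) (hA0 p.1)
        linarith
      calc |h x p.1 * a x p.2 + a x p.1 * h x p.2| * |F p.1 p.2| ≤
          2 * (A p.1 * A p.2) * |F p.1 p.2| := mul_le_mul_of_nonneg_right e1 (abs_nonneg _)
        _ = _ := by ring)
    (fun x hx => (hc.am x hx).summ2 hF) s hs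
  have h2 : ∑' p : ℕ × ℕ, (h s p.1 * a s p.2 + a s p.1 * h s p.2) * F p.1 p.2 =
      2 * EE (a s) (h s) F := by
    have h3 := summ_dom hA hA0 (fun k => (hm s hs k).2) (fun k => (hm s hs k).1) hF
    have h4 := summ_dom hA hA0 (fun k => (hm s hs k).1) (fun k => (hm s hs k).2) hF
    have h5 : ∑' p : ℕ × ℕ, h s p.1 * a s p.2 * F p.1 p.2 = EE (a s) (h s) F := by
      unfold EE
      rw [← (Equiv.prodComm ℕ ℕ).tsum_eq]
      refine tsum_congr fun p => ?_
      simp only [Equiv.prodComm_apply, Prod.fst_swap, Prod.snd_swap]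
      rw [hsym p.2 p.1]
      ring
    have h6 : ∑' p : ℕ × ℕ, (h s p.1 * a s p.2 + a s p.1 * h s p.2) * F p.1 p.2 =
        ∑' p : ℕ × ℕ, h s p.1 * a s p.2 * F p.1 p.2 + ∑' p : ℕ × ℕ, a s p.1 * h s p.2 * F p.1 p.2 := by
      rw [← h3.tsum_add h4]
      exact tsum_congr fun p => by ring
    rw [h6, h5]
    unfold EE
    ring
  rw [h2] at h1
  exact h1

theorem PB2_Ihyp (j : ℕ) : PB2 (fun K L => I (K + L) * hyp K L j) :=
  PB2.I.mul (Pool.Agent.Q222.MK.PB2_hyp Pool.Agent.Q280.MK.t_HYP1 j)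

theorem Ihyp_symm (j K L : ℕ) : I (K + L) * hyp K L j = I (L + K) * hyp L K j := by
  rw [add_comm K L, hyp_symm K L]

theorem T_eq (a : ℕ → ℝ) (j : ℕ) :
    T a j = E2 a (fun K L => I (K + L) * hyp K L j) / E2 a (fun K L => I (K + L)) := rfl

theorem t_CRT' : P_CRT := by
  intro a h hc
  have hyp1 := Pool.Agent.Q280.MK.t_HYP1
  obtain ⟨A, hA, hA0, hm⟩ := hc.maj
  have hZd : ∀ s ∈ Set.Icc (0:ℝ) 1, HasDerivWithinAt (fun s => E2 (a s) (fun K L => I (K + L)))
      (2 * EE (a s) (h s) (fun K L => I (K + L))) (Set.Icc 0 1) s := fun s hs =>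
    E2_deriv hc hs PB2.I (fun K L => by rw [add_comm])
  have hZp : ∀ s ∈ Set.Icc (0:ℝ) 1, 0 < E2 (a s) (fun K L => I (K + L)) := fun s hs =>
    (hc.am s hs).Z_pos
  -- lower bound for the normalisation
  obtain ⟨z, hz0, hz⟩ : ∃ z : ℝ, 0 < z ∧ ∀ s ∈ Set.Icc (0:ℝ) 1,
      z ≤ E2 (a s) (fun K L => I (K + L)) := by
    have hcont : ContinuousOn (fun s => E2 (a s) (fun K L => I (K + L))) (Set.Icc (0:ℝ) 1) :=
      fun s hs => (hZd s hs).continuousWithinAt
    obtain ⟨s0, hs0, hmin⟩ := isCompact_Icc.exists_isMinOn (⟨0, by simp⟩ : (Set.Icc (0:ℝ) 1).Nonempty) hcont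
    exact ⟨_, hZp s0 hs0, fun s hs => hmin hs⟩
  -- the normalised majorant
  have hAs : Summable A := (hA 0).congr fun k => by simp
  set c : ℝ := ∑' k, A k with hc'
  have hc1 : 1 ≤ c := by
    have h0 : (0:ℝ) ∈ Set.Icc (0:ℝ) 1 := by simp
    have h1 := (hc.am 0 h0).one
    rw [← h1.tsum_eq]
    exact Summable.tsum_le_tsum (fun k => (le_abs_self _).trans (hm 0 h0 k).1) h1.summable hAs
  have hc0 : 0 < c := lt_of_lt_of_le one_pos hc1
  set B : ℕ → ℝ := fun k => A k / c with hB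
  have hAM : AM B := by
    refine ⟨⟨fun k => div_nonneg (hA0 k) hc0.le, ?_⟩, fun q => ?_⟩
    · have h1 := hAs.hasSum.div_const c
      rw [div_self hc0.ne'] at h1
      exact h1
    · refine ((hA q).div_const c).congr fun k => ?_
      rw [hB]
      ring
  have hAB : ∀ F : ℕ → ℕ → ℝ, E2 A F = c ^ 2 * E2 B F := by
    intro F
    unfold E2
    rw [← tsum_mul_left]
    refine tsum_congr fun p => ?_
    rw [hB]
    field_simp
  set V : ℝ := E2 A (fun K L => I (K + L)) with hV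
  have hZB : 0 < E2 B (fun K L => I (K + L)) := hAM.Z_pos
  have hV0 : 0 < V := by
    rw [hV, hAB]
    positivity
  have hU : ∀ j, E2 A (fun K L => I (K + L) * hyp K L j) = V * T B j := by
    intro j
    rw [hV, hAB, hAB, T_eq]
    field_simp
  have hTB : ∀ j, 0 ≤ T B j := (Pool.Agent.Q222.MK.AM_T hyp1 hAM).nn
  have habs : ∀ k, |A k| ≤ A k := fun k => (abs_of_nonneg (hA0 k)).le
  have hEE : ∀ (x y : ℕ → ℝ), (∀ k, |x k| ≤ A k) → (∀ k, |y k| ≤ A k) → ∀ j,
      |EE x y (fun K L => I (K + L) * hyp K L j)| ≤ V * T B j := by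
    intro x y hx hy j
    rw [← hU j]
    refine EE_le hA hA0 hx hy (PB2_Ihyp j) (PB2_Ihyp j) fun K L => ?_
    rw [abs_of_nonneg (mul_nonneg (I_pos _).le ((hyp1 K L).1 j))]
  have hEE' : ∀ (x y : ℕ → ℝ), (∀ k, |x k| ≤ A k) → (∀ k, |y k| ≤ A k) →
      |EE x y (fun K L => I (K + L))| ≤ V := by
    intro x y hx hy
    refine EE_le hA hA0 hx hy PB2.I PB2.I fun K L => ?_
    rw [abs_of_nonneg (I_pos _).le]
  have hT : ∀ s ∈ Set.Icc (0:ℝ) 1, ∀ j, |T (a s) j| ≤ V / z * T B j := by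
    intro s hs j
    rw [T_eq, abs_div, abs_of_pos (hZp s hs)]
    have h1 : |E2 (a s) (fun K L => I (K + L) * hyp K L j)| ≤ V * T B j :=
      hEE (a s) (a s) (fun k => (hm s hs k).1) (fun k => (hm s hs k).1) j
    calc |E2 (a s) (fun K L => I (K + L) * hyp K L j)| / E2 (a s) (fun K L => I (K + L)) ≤
        V * T B j / z := div_le_div₀ (mul_nonneg hV0.le (hTB j)) h1 hz0 (hz s hs)
      _ = _ := by ring
  have hdT : ∀ s ∈ Set.Icc (0:ℝ) 1, ∀ j, dT (a s) (h s) j =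
      2 * (EE (a s) (h s) (fun K L => I (K + L) * hyp K L j) -
        T (a s) j * EE (a s) (h s) (fun K L => I (K + L))) / E2 (a s) (fun K L => I (K + L)) := by
    intro s hs j
    unfold dT
    congr 2
    have h3 := summ_dom hA hA0 (fun k => (hm s hs k).1) (fun k => (hm s hs k).2) (PB2_Ihyp j)
    have h4 := summ_dom hA hA0 (fun k => (hm s hs k).1) (fun k => (hm s hs k).2) PB2.I
    unfold EE
    rw [← tsum_mul_left, ← h3.tsum_sub (h4.mul_left _)]
    exact tsum_congr fun p => by ring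
  refine ⟨fun s hs => Pool.Agent.Q222.MK.AM_T hyp1 (hc.am s hs), fun s hs j => ?_,
    fun j => (V / z + 2 / z * (V + V / z * V)) * T B j, fun q => ?_, fun j => ?_,
    fun s hs j => ⟨?_, ?_⟩⟩
  · have h1 := E2_deriv hc hs (PB2_Ihyp j) (fun K L => Ihyp_symm j K L)
    have h2 := h1.div (hZd s hs) (hZp s hs).ne'
    have hne := (hZp s hs).ne'
    have h3 : dT (a s) (h s) j = (2 * EE (a s) (h s) (fun K L => I (K + L) * hyp K L j) *
        E2 (a s) (fun K L => I (K + L)) - E2 (a s) (fun K L => I (K + L) * hyp K L j) *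
          (2 * EE (a s) (h s) (fun K L => I (K + L)))) / E2 (a s) (fun K L => I (K + L)) ^ 2 := by
      rw [hdT s hs j, T_eq]
      field_simp
    show HasDerivWithinAt (fun s => T (a s) j) (dT (a s) (h s) j) (Set.Icc 0 1) s
    rw [h3]
    exact h2
  · refine (((Pool.Agent.Q222.MK.AM_T hyp1 hAM).mom q).mul_left
      (V / z + 2 / z * (V + V / z * V))).congr fun k => ?_
    ring
  · have := hTB j
    positivity
  · refine (hT s hs j).trans (mul_le_mul_of_nonneg_right ?_ (hTB j))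
    have : 0 ≤ 2 / z * (V + V / z * V) := by positivity
    linarith
  · show |dT (a s) (h s) j| ≤ _
    rw [hdT s hs j, abs_div, abs_mul, abs_of_pos (zero_lt_two : (0:ℝ) < 2), abs_of_pos (hZp s hs)]
    have h1 := hEE (a s) (h s) (fun k => (hm s hs k).1) (fun k => (hm s hs k).2) j
    have h2 := hEE' (a s) (h s) (fun k => (hm s hs k).1) (fun k => (hm s hs k).2)
    have h3 := hT s hs j
    have h4 : |EE (a s) (h s) (fun K L => I (K + L) * hyp K L j) -
        T (a s) j * EE (a s) (h s) (fun K L => I (K + L))| ≤ V * T B j + V / z * T B j * V := by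
      refine (abs_sub _ _).trans ?_
      rw [abs_mul]
      have h5 := mul_le_mul h3 h2 (abs_nonneg _) (mul_nonneg (div_nonneg hV0.le hz0.le) (hTB j))
      linarith
    have h6 : 0 ≤ V * T B j + V / z * T B j * V := (abs_nonneg _).trans h4
    calc 2 * |EE (a s) (h s) (fun K L => I (K + L) * hyp K L j) -
        T (a s) j * EE (a s) (h s) (fun K L => I (K + L))| / E2 (a s) (fun K L => I (K + L)) ≤
        2 * (V * T B j + V / z * T B j * V) / z :=
          div_le_div₀ (by positivity) (by linarith) hz0 (hz s hs)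
      _ = 2 / z * (V + V / z * V) * T B j := by ring
      _ ≤ (V / z + 2 / z * (V + V / z * V)) * T B j := by
          apply mul_le_mul_of_nonneg_right _ (hTB j)
          have : 0 ≤ V / z := by positivity
          linarith

theorem t_CRT : P_CRE → P_CRT := fun _ => t_CRT'

end Pool.Agent.Q237.MK
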