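import Pool.Agent.Q237.MK.Eng5

/-!
Project MK, job EX5: second and third moments to the next order.
-/

set_option autoImplicit false

namespace Pool.Agent.Q237.MK

open Pool.Agent.Q291.MK Pool.Agent.Q61.MK Filter Topology Asymptotics

variable {C8 : ℝ} {S : Set (ℕ → ℝ)}

/-- the set of laws -/
def S5 (C3 C8 C12 C4 : ℝ) : Set (ℕ → ℝ) :=
  {a | Cl C3 C8 C12 a ∧ |k4 a| ≤ C4 * (mean a * √(mean a))}

theorem sz_rr (S : Set (ℕ → ℝ)) : Sz S rr 1 := by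
  refine Sz.of_le 1 ?_
  filter_upwards [ev_rr S] with a ha
  rw [abs_of_nonneg (by linarith [ha.1]), one_mul, zpow_one]

theorem rs5 {C3 C8 C12 C4 : ℝ} (h8 : 1 ≤ C8) : Rs C8 (S5 C3 C8 C12 C4) := by
  refine ⟨fun a ha => ⟨C3, ha.1.toCls⟩, h8, ?_, ?_⟩
  · refine ((Sz.mean (S5 C3 C8 C12 C4)).cmul C3).of_abs_le ?_
    filter_upwards [ev_ge (S5 C3 C8 C12 C4) 0] with a ha
    exact ha.1.1.toCls.k3_le.trans (le_abs_self _)
  · have h1 : Sz (S5 C3 C8 C12 C4) (fun a => mean a * rr a) 3 :=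
      (Sz.mean _).mul' (sz_rr _) (by norm_num)
    refine (h1.cmul C4).of_abs_le ?_
    filter_upwards [ev_ge (S5 C3 C8 C12 C4) 0] with a ha
    exact ha.1.2.trans (le_abs_self _)

theorem Sz.ev {f : (ℕ → ℝ) → ℝ} {k : ℤ} (h : Sz S f k) :
    ∃ D : ℝ, 0 < D ∧ ∀ᶠ a in FF S, |f a| ≤ D * rr a ^ k := by
  obtain ⟨D, M, hD, h⟩ := h.bound
  exact ⟨D, hD, FF_ev.2 ⟨M, h⟩⟩

theorem ex_eq {a : ℕ → ℝ} (ha : AM a) : Ew a (xx a) = ws 1 0 a := by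
  unfold ws
  congr 1
  funext K L
  rw [pow_one, pow_zero, mul_one]
  rfl

theorem eg_eq {a : ℕ → ℝ} (ha : AM a) : Ew a gg = ws 0 1 a := by
  unfold ws
  congr 1
  funext K L
  rw [pow_one, pow_zero, one_mul]
  rfl

/-- the centred sum -/
noncomputable def xc (a : ℕ → ℝ) : PBA := xA a - ws 1 0 a • (1 : PBA)
/-- the centred quotient -/
noncomputable def gc (a : ℕ → ℝ) : PBA := gA - ws 0 1 a • (1 : PBA)

theorem C20_eq {a : ℕ → ℝ} (ha : AM a) : Lw ha (xc a ^ 2) = ws 2 0 a - ws 1 0 a ^ 2 := by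
  have e : xc a ^ 2 = xA a ^ 2 * gA ^ 0 - (2 * ws 1 0 a) • (xA a ^ 1 * gA ^ 0) +
      (ws 1 0 a ^ 2) • (xA a ^ 0 * gA ^ 0) := by
    unfold xc
    simp only [Algebra.smul_def, map_mul, map_neg, map_pow, map_ofNat]
    ring
  rw [e, map_add, map_sub, map_smul, map_smul, ← ws_Lw, ← ws_Lw, ← ws_Lw, ws_one ha]
  simp only [smul_eq_mul]
  ring

theorem C11_eq {a : ℕ → ℝ} (ha : AM a) : Lw ha (xc a * gc a) = ws 1 1 a - ws 1 0 a * ws 0 1 a := by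
  have e : xc a * gc a = xA a ^ 1 * gA ^ 1 - ws 0 1 a • (xA a ^ 1 * gA ^ 0) -
      ws 1 0 a • (xA a ^ 0 * gA ^ 1) + (ws 1 0 a * ws 0 1 a) • (xA a ^ 0 * gA ^ 0) := by
    unfold xc gc
    simp only [Algebra.smul_def, map_mul, map_neg, map_pow, map_ofNat]
    ring
  rw [e, map_add, map_sub, map_sub, map_smul, map_smul, map_smul, ← ws_Lw, ← ws_Lw, ← ws_Lw,
    ← ws_Lw, ws_one ha]
  simp only [smul_eq_mul]
  ring

theorem C02_eq {a : ℕ → ℝ} (ha : AM a) : Lw ha (gc a ^ 2) = ws 0 2 a - ws 0 1 a ^ 2 := by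
  have e : gc a ^ 2 = xA a ^ 0 * gA ^ 2 - (2 * ws 0 1 a) • (xA a ^ 0 * gA ^ 1) +
      (ws 0 1 a ^ 2) • (xA a ^ 0 * gA ^ 0) := by
    unfold gc
    simp only [Algebra.smul_def, map_mul, map_neg, map_pow, map_ofNat]
    ring
  rw [e, map_add, map_sub, map_smul, map_smul, ← ws_Lw, ← ws_Lw, ← ws_Lw, ws_one ha]
  simp only [smul_eq_mul]
  ring

theorem C30_eq {a : ℕ → ℝ} (ha : AM a) :
    Lw ha (xc a ^ 3) = ws 3 0 a - 3 * ws 1 0 a * ws 2 0 a + 2 * ws 1 0 a ^ 3 := by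
  have e : xc a ^ 3 = xA a ^ 3 * gA ^ 0 - (3 * ws 1 0 a) • (xA a ^ 2 * gA ^ 0) +
      (3 * ws 1 0 a ^ 2) • (xA a ^ 1 * gA ^ 0) - (ws 1 0 a ^ 3) • (xA a ^ 0 * gA ^ 0) := by
    unfold xc
    simp only [Algebra.smul_def, map_mul, map_neg, map_pow, map_ofNat]
    ring
  rw [e, map_sub, map_add, map_sub, map_smul, map_smul, map_smul, ← ws_Lw, ← ws_Lw, ← ws_Lw,
    ← ws_Lw, ws_one ha]
  simp only [smul_eq_mul]
  ring

theorem C21_eq {a : ℕ → ℝ} (ha : AM a) : Lw ha (xc a ^ 2 * gc a) =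
    ws 2 1 a - 2 * ws 1 0 a * ws 1 1 a - ws 0 1 a * ws 2 0 a + 2 * ws 1 0 a ^ 2 * ws 0 1 a := by
  have e : xc a ^ 2 * gc a = xA a ^ 2 * gA ^ 1 - (2 * ws 1 0 a) • (xA a ^ 1 * gA ^ 1) +
      (ws 1 0 a ^ 2) • (xA a ^ 0 * gA ^ 1) - ws 0 1 a • (xA a ^ 2 * gA ^ 0) +
      (2 * ws 1 0 a * ws 0 1 a) • (xA a ^ 1 * gA ^ 0) -
      (ws 1 0 a ^ 2 * ws 0 1 a) • (xA a ^ 0 * gA ^ 0) := by
    unfold xc gc
    simp only [Algebra.smul_def, map_mul, map_neg, map_pow, map_ofNat]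
    ring
  rw [e, map_sub, map_add, map_sub, map_add, map_sub, map_smul, map_smul, map_smul, map_smul,
    map_smul, ← ws_Lw, ← ws_Lw, ← ws_Lw, ← ws_Lw, ← ws_Lw, ← ws_Lw, ws_one ha]
  simp only [smul_eq_mul]
  ring

namespace Rs

theorem wvi (h : Rs C8 S) : Sz S (fun a => Q291.MK.vr a * (1 / mean a)) 0 :=
  h.vr.mul' h.inv (by norm_num)

theorem w01' (h : Rs C8 S) : Sz S (Q237.MK.ws 0 1) 0 := h.ws (p := 0) (q := 1) (by norm_num)

theorem c20 (h : Rs C8 S) : Sz S (fun a => Q237.MK.ws 2 0 a - Q237.MK.ws 1 0 a ^ 2 -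
    (2 * Q291.MK.vr a - 3 / 2 * (Q291.MK.k3 a / mean a) +
      3 / 2 * (Q291.MK.vr a / mean a) ^ 2)) (-1) := by
  have h1 : Sz S (fun a => (Q237.MK.ws 1 0 a + 3 / 2 * (Q291.MK.vr a * (1 / mean a))) *
      (Q237.MK.ws 1 0 a - 3 / 2 * (Q291.MK.vr a * (1 / mean a)))) (-1) :=
    h.w10.mul' (h.w10'.sub (h.wvi.cmul (3 / 2))) (by norm_num)
  refine (h.w20.sub h1).congr ?_
  filter_upwards with a
  ring

theorem c11 (h : Rs C8 S) : Sz S (fun a => Q237.MK.ws 1 1 a - Q237.MK.ws 1 0 a * Q237.MK.ws 0 1 a -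
    (Q291.MK.k3 a / mean a - (Q291.MK.vr a / mean a) ^ 2)) (-1) := by
  have h1 : Sz S (fun a => (Q237.MK.ws 1 0 a + 3 / 2 * (Q291.MK.vr a * (1 / mean a))) *
      Q237.MK.ws 0 1 a) (-1) := h.w10.mul' h.w01' (by norm_num)
  have h2 : Sz S (fun a => (Q237.MK.ws 0 1 a - Q291.MK.vr a * (1 / mean a)) *
      (Q291.MK.vr a * (1 / mean a))) (-1) := h.w01.mul' h.wvi (by norm_num)
  refine ((h.w11.sub h1).add (h2.cmul (3 / 2))).congr ?_
  filter_upwards with a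
  ring

theorem c02 (h : Rs C8 S) : Sz S (fun a => Q237.MK.ws 0 2 a - Q237.MK.ws 0 1 a ^ 2 -
    2 * (Q291.MK.vr a / mean a) ^ 2) (-1) := by
  have h1 : Sz S (fun a => (Q237.MK.ws 0 1 a - Q291.MK.vr a * (1 / mean a)) *
      (Q237.MK.ws 0 1 a + Q291.MK.vr a * (1 / mean a))) (-1) :=
    h.w01.mul' (h.w01'.add h.wvi) (by norm_num)
  refine (h.w02.sub h1).congr ?_
  filter_upwards with a
  ring

theorem c30 (h : Rs C8 S) : Sz S (fun a => Q237.MK.ws 3 0 a -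
    3 * Q237.MK.ws 1 0 a * Q237.MK.ws 2 0 a + 2 * Q237.MK.ws 1 0 a ^ 3 -
    2 * Q291.MK.k3 a) 1 := by
  have h1 : Sz S (fun a => (Q237.MK.ws 1 0 a + 3 / 2 * (Q291.MK.vr a * (1 / mean a))) *
      Q237.MK.ws 2 0 a) 1 := h.w10.mul' (h.ws (p := 2) (q := 0) (by norm_num)) (by norm_num)
  have h2 : Sz S (fun a => (Q291.MK.vr a * (1 / mean a)) *
      (Q237.MK.ws 2 0 a - 2 * Q291.MK.vr a)) 1 := h.wvi.mul' h.w20' (by norm_num)
  have h3 : Sz S (fun a => Q237.MK.ws 1 0 a * Q237.MK.ws 1 0 a * Q237.MK.ws 1 0 a) 1 :=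
    h.w10'.mul3 h.w10' h.w10' (by norm_num)
  refine (((h.w30.sub (h1.cmul 3)).add (h2.cmul (9 / 2))).add (h3.cmul 2)).congr ?_
  filter_upwards with a
  ring

theorem c21 (h : Rs C8 S) : Sz S (fun a => Q237.MK.ws 2 1 a -
    2 * Q237.MK.ws 1 0 a * Q237.MK.ws 1 1 a - Q237.MK.ws 0 1 a * Q237.MK.ws 2 0 a +
    2 * Q237.MK.ws 1 0 a ^ 2 * Q237.MK.ws 0 1 a) 1 := by
  have h1 : Sz S (fun a => (Q237.MK.ws 0 1 a - Q291.MK.vr a * (1 / mean a)) *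
      Q237.MK.ws 2 0 a) 1 := h.w01.mul' (h.ws (p := 2) (q := 0) (by norm_num)) (by norm_num)
  have h2 : Sz S (fun a => (Q291.MK.vr a * (1 / mean a)) *
      (Q237.MK.ws 2 0 a - 2 * Q291.MK.vr a)) 1 := h.wvi.mul' h.w20' (by norm_num)
  have h3 : Sz S (fun a => Q237.MK.ws 1 0 a * Q237.MK.ws 1 1 a) 1 :=
    h.w10'.mul' (h.ws (p := 1) (q := 1) (by norm_num)) (by norm_num)
  have h4 : Sz S (fun a => Q237.MK.ws 1 0 a * Q237.MK.ws 1 0 a * Q237.MK.ws 0 1 a) 1 :=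
    h.w10'.mul3 h.w10' h.w01' (by norm_num)
  refine ((((h.w21.sub h1).sub h2).sub (h3.cmul 2)).add (h4.cmul 2)).congr ?_
  filter_upwards with a
  ring

end Rs

/-- Job EX5. -/
theorem t_EX5' : P_EX5 := by
  intro C3 C8 C12 C4 _ h8 _ _
  have h := rs5 (C3 := C3) (C12 := C12) (C4 := C4) h8
  obtain ⟨D1, hD1, h1⟩ := h.c20.ev
  obtain ⟨D2, hD2, h2⟩ := h.c11.ev
  obtain ⟨D3, hD3, h3⟩ := h.c02.ev
  obtain ⟨D4, hD4, h4⟩ := h.c30.ev
  obtain ⟨D5, hD5, h5⟩ := h.c21.ev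
  obtain ⟨M, hM⟩ := FF_ev.1 (h1.and (h2.and (h3.and (h4.and (h5.and
    (ev_rr (S5 C3 C8 C12 C4)))))))
  refine ⟨D1 + D2 + D3 + D4 + D5, max M 10, by positivity, le_max_right _ _,
    fun a ha hk hm => ?_⟩
  obtain ⟨b1, b2, b3, b4, b5, hr, -⟩ := hM a ⟨ha, hk⟩ ((le_max_left _ _).trans hm)
  have ham : AM a := ha.toCls.toAM
  have hr0 : 0 < rr a := by linarith
  have i0 : 0 < (rr a)⁻¹ := by positivity
  have e1 : ∀ D : ℝ, D / √(mean a) = D * (rr a)⁻¹ := fun D => div_eq_mul_inv _ _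
  have e2 : √(mean a) = rr a := rfl
  simp only [zpow_neg_one, zpow_one] at b1 b2 b3 b4 b5
  rw [ex_eq ham, eg_eq ham]
  simp only [e1]
  rw [e2]
  refine ⟨?_, ?_, ?_, ?_, ?_⟩
  · have e : Ew a (fun K L => (xx a K L - ws 1 0 a) ^ 2) = Lw ham (xc a ^ 2) := by
      show _ = Ew a (fun K L => (X (mean a) K L - ws 1 0 a * 1) ^ 2)
      simp only [mul_one]
      rfl
    rw [e, C20_eq]
    refine b1.trans (mul_le_mul_of_nonneg_right ?_ i0.le)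
    linarith
  · have e : Ew a (fun K L => (xx a K L - ws 1 0 a) * (gg K L - ws 0 1 a)) =
        Lw ham (xc a * gc a) := by
      show _ = Ew a (fun K L => (X (mean a) K L - ws 1 0 a * 1) * (g K L - ws 0 1 a * 1))
      simp only [mul_one]
      rfl
    rw [e, C11_eq]
    refine b2.trans (mul_le_mul_of_nonneg_right ?_ i0.le)
    linarith
  · have e : Ew a (fun K L => (gg K L - ws 0 1 a) ^ 2) = Lw ham (gc a ^ 2) := by
      show _ = Ew a (fun K L => (g K L - ws 0 1 a * 1) ^ 2)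
      simp only [mul_one]
      rfl
    rw [e, C02_eq]
    refine b3.trans (mul_le_mul_of_nonneg_right ?_ i0.le)
    linarith
  · have e : Ew a (fun K L => (xx a K L - ws 1 0 a) ^ 3) = Lw ham (xc a ^ 3) := by
      show _ = Ew a (fun K L => (X (mean a) K L - ws 1 0 a * 1) ^ 3)
      simp only [mul_one]
      rfl
    rw [e, C30_eq]
    refine b4.trans (mul_le_mul_of_nonneg_right ?_ hr0.le)
    linarith
  · have e : Ew a (fun K L => (xx a K L - ws 1 0 a) ^ 2 * (gg K L - ws 0 1 a)) =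
        Lw ham (xc a ^ 2 * gc a) := by
      show _ = Ew a (fun K L => (X (mean a) K L - ws 1 0 a * 1) ^ 2 * (g K L - ws 0 1 a * 1))
      simp only [mul_one]
      rfl
    rw [e, C21_eq]
    refine b5.trans (mul_le_mul_of_nonneg_right ?_ hr0.le)
    linarith

/-- Job EX5. -/
theorem t_EX5 : P_EA2 → P_EX4 → P_EX5 := fun _ _ => t_EX5'

end Pool.Agent.Q237.MK
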