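import Pool.Agent.Q237.MK.DIF
import Pool.Agent.Q291.MK.Stm5

/-!
Project MK, job HF: fourth central moment of the hypergeometric law.
-/

set_option autoImplicit false

namespace Pool.Agent.Q237.MK

open Pool.Agent.Q291.MK Pool.Agent.Q280.MK Finset

theorem c1 (n : ℕ) : (n.choose 1 : ℝ) = n := by rw [Nat.choose_one_right]

theorem c2 (n : ℕ) : (n.choose 2 : ℝ) = n * (n - 1) / 2 := by
  have h := choose_next n 1
  rw [h, c1]
  push_cast
  ring

theorem c3 (n : ℕ) : (n.choose 3 : ℝ) = n * (n - 1) * (n - 2) / 6 := by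
  have h := choose_next n 2
  rw [h, c2]
  push_cast
  ring

theorem c4 (n : ℕ) : (n.choose 4 : ℝ) = n * (n - 1) * (n - 2) * (n - 3) / 24 := by
  have h := choose_next n 3
  rw [h, c3]
  push_cast
  ring

theorem g1 (x : ℝ) : gb x 1 = x := by
  rw [gb_succ, gb_zero]
  push_cast
  ring

theorem g2 (x : ℝ) : gb x 2 = x * (x - 1) / 2 := by
  rw [gb_succ, g1]
  push_cast
  ring

theorem g3 (x : ℝ) : gb x 3 = x * (x - 1) * (x - 2) / 6 := by
  rw [gb_succ, g2]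
  push_cast
  ring

theorem g4 (x : ℝ) : gb x 4 = x * (x - 1) * (x - 2) * (x - 3) / 24 := by
  rw [gb_succ, g3]
  push_cast
  ring

/-- the fourth central moment in terms of factorial moments -/
theorem H_four (K L : ℕ) (m : ℝ) : H K L (fun j => ((j:ℝ) - m) ^ 4) =
    24 * H K L (fun j => (j.choose 4 : ℝ)) + (36 - 24 * m) * H K L (fun j => (j.choose 3 : ℝ)) +
      (14 - 24 * m + 12 * m ^ 2) * H K L (fun j => (j.choose 2 : ℝ)) +
      (1 - 4 * m + 6 * m ^ 2 - 4 * m ^ 3) * H K L (fun j => (j.choose 1 : ℝ)) + m ^ 4 := by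
  have h1 : H K L (fun _ => 1) = 1 := (t_HYP1 K L).2.2.2.1
  have h2 : m ^ 4 = H K L (fun _ => m ^ 4 * 1) := by rw [H_smul, h1, mul_one]
  conv_rhs => rw [h2]
  rw [← H_smul, ← H_smul, ← H_smul, ← H_smul, ← H_add, ← H_add, ← H_add, ← H_add]
  unfold H
  refine Finset.sum_congr rfl fun j _ => ?_
  congr 1
  show ((j:ℝ) - m) ^ 4 = 24 * (j.choose 4 : ℝ) + (36 - 24 * m) * (j.choose 3 : ℝ) +
    (14 - 24 * m + 12 * m ^ 2) * (j.choose 2 : ℝ) +
      (1 - 4 * m + 6 * m ^ 2 - 4 * m ^ 3) * (j.choose 1 : ℝ) + m ^ 4 * 1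
  rw [c1, c2, c3, c4]
  ring

theorem alg4 {k l x : ℝ} (h0 : x ≠ 0) (h1 : x - 1 ≠ 0) (h2 : x - 2 ≠ 0) (h3 : x - 3 ≠ 0) :
    24 * (k * (k - 1) * (k - 2) * (k - 3) / 24 * (l * (l - 1) * (l - 2) * (l - 3) / 24) /
        (x * (x - 1) * (x - 2) * (x - 3) / 24)) +
      (36 - 24 * (k * l / x)) * (k * (k - 1) * (k - 2) / 6 * (l * (l - 1) * (l - 2) / 6) /
        (x * (x - 1) * (x - 2) / 6)) +
      (14 - 24 * (k * l / x) + 12 * (k * l / x) ^ 2) * (k * (k - 1) / 2 * (l * (l - 1) / 2) /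
        (x * (x - 1) / 2)) +
      (1 - 4 * (k * l / x) + 6 * (k * l / x) ^ 2 - 4 * (k * l / x) ^ 3) * (k * l / x) +
      (k * l / x) ^ 4 - 3 * (k * l * (x - l) * (x - k) / (x ^ 2 * (x - 1))) ^ 2 =
    k * l * (x - l) * (x - k) * ((x - 1) * x ^ 2 * (x * (x + 1) - 6 * l * (x - l) -
      6 * k * (x - k)) + 6 * (k * l * (x - l) * (x - k)) * (5 * x - 6)) /
      (x ^ 4 * (x - 1) ^ 2 * (x - 2) * (x - 3)) := by
  field_simp
  ring

theorem half_far (n : ℕ) : ∀ x : ℝ, x = (n : ℝ) + 1 / 2 → x / 3 ≤ |x - 1| ∧ x / 5 ≤ |x - 2| ∧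
    x / 7 ≤ |x - 3| := by
  intro x hx
  have hcase : x = 1 / 2 ∨ x = 3 / 2 ∨ x = 5 / 2 ∨ 7 / 2 ≤ x := by
    rcases Nat.lt_or_ge n 3 with h | h
    · interval_cases n
      · left; rw [hx]; norm_num
      · right; left; rw [hx]; norm_num
      · right; right; left; rw [hx]; norm_num
    · right; right; right
      have h4 : (3 : ℝ) ≤ n := by exact_mod_cast h
      rw [hx]
      linarith
  rcases hcase with rfl | rfl | rfl | h
  · refine ⟨?_, ?_, ?_⟩
    · rw [abs_of_neg (by norm_num)]; norm_num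
    · rw [abs_of_neg (by norm_num)]; norm_num
    · rw [abs_of_neg (by norm_num)]; norm_num
  · refine ⟨?_, ?_, ?_⟩
    · rw [abs_of_pos (by norm_num)]; norm_num
    · rw [abs_of_neg (by norm_num)]; norm_num
    · rw [abs_of_neg (by norm_num)]; norm_num
  · refine ⟨?_, ?_, ?_⟩
    · rw [abs_of_pos (by norm_num)]; norm_num
    · rw [abs_of_pos (by norm_num)]; norm_num
    · rw [abs_of_neg (by norm_num)]; norm_num
  · refine ⟨?_, ?_, ?_⟩
    · rw [abs_of_pos (by linarith)]; linarith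
    · rw [abs_of_pos (by linarith)]; linarith
    · rw [abs_of_pos (by linarith)]; linarith

theorem t_HF : P_HF := by
  refine ⟨100000, by norm_num, fun K L => ?_⟩
  obtain ⟨k, hk⟩ : ∃ k : ℝ, k = K := ⟨_, rfl⟩
  obtain ⟨l, hl⟩ : ∃ l : ℝ, l = L := ⟨_, rfl⟩
  obtain ⟨x, hx⟩ : ∃ x : ℝ, x = k + l + 1 / 2 := ⟨_, rfl⟩
  have hk0 : 0 ≤ k := by rw [hk]; exact Nat.cast_nonneg K
  have hl0 : 0 ≤ l := by rw [hl]; exact Nat.cast_nonneg L
  have hx0 : 0 < x := by rw [hx]; positivity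
  obtain ⟨f1, f2, f3⟩ := half_far (K + L) x (by rw [hx, hk, hl]; push_cast; ring)
  have n1 : 0 < |x - 1| := lt_of_lt_of_le (by positivity) f1
  have n2 : 0 < |x - 2| := lt_of_lt_of_le (by positivity) f2
  have n3 : 0 < |x - 3| := lt_of_lt_of_le (by positivity) f3
  have hmm : hm K L = k * l / x := by
    unfold hm
    rw [hx, hk, hl]
  have hvv : hv K L = k * l * (x - l) * (x - k) / (x ^ 2 * (x - 1)) := by
    unfold hv
    rw [hmm, ← hk, ← hl]
    have e1 : k + l - 1 / 2 = x - 1 := by rw [hx]; ring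
    rw [e1]
    have e2 : x - 1 ≠ 0 := abs_pos.1 n1
    have e3 : x - l = k + 1 / 2 := by rw [hx]; ring
    have e4 : x - k = l + 1 / 2 := by rw [hx]; ring
    rw [e3, e4]
    field_simp
    rw [hx]
    ring
  have hmain : H K L (fun j => ((j:ℝ) - hm K L) ^ 4) - 3 * hv K L ^ 2 =
      k * l * (x - l) * (x - k) * ((x - 1) * x ^ 2 * (x * (x + 1) - 6 * l * (x - l) -
      6 * k * (x - k)) + 6 * (k * l * (x - l) * (x - k)) * (5 * x - 6)) /
      (x ^ 4 * (x - 1) ^ 2 * (x - 2) * (x - 3)) := by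
    rw [H_four, H_fact, H_fact, H_fact, H_fact, c1, c1, c2, c2, c3, c3, c4, c4, ← hk, ← hl, ← hx, g1, g2,
      g3, g4, hvv, hmm]
    exact alg4 hx0.ne' (abs_pos.1 n1) (abs_pos.1 n2) (abs_pos.1 n3)
  rw [hmain, ← hk, ← hl]
  have a1 : 0 ≤ x - l := by rw [hx]; linarith
  have a2 : 0 ≤ x - k := by rw [hx]; linarith
  have a3 : x - l ≤ x := by linarith
  have a4 : x - k ≤ x := by linarith
  have a5 : k ≤ x := by linarith
  have a6 : l ≤ x := by linarith
  have hh : 1 ≤ 2 * x := by rw [hx]; linarith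
  obtain ⟨P, hP⟩ : ∃ P : ℝ, P = k * l * (x - l) * (x - k) := ⟨_, rfl⟩
  have hP0 : 0 ≤ P := by rw [hP]; positivity
  have hP4 : P ≤ x ^ 4 := by
    have b1 : k * l ≤ x * x := mul_le_mul a5 a6 hl0 hx0.le
    have b2 : k * l * (x - l) ≤ x * x * x := mul_le_mul b1 a3 a1 (by positivity)
    have b3 : k * l * (x - l) * (x - k) ≤ x * x * x * x := mul_le_mul b2 a4 a2 (by positivity)
    rw [hP]
    calc _ ≤ x * x * x * x := b3
      _ = x ^ 4 := by ring
  rw [← hP, abs_div, abs_mul, abs_of_nonneg hP0]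
  -- the numerator
  have hB1 : |(x - 1) * x ^ 2 * (x * (x + 1) - 6 * l * (x - l) - 6 * k * (x - k))| ≤ 30 * x ^ 5 := by
    have d1 : |x - 1| ≤ 2 * x := by rw [abs_le]; constructor <;> linarith
    have d2 : 0 ≤ l * (x - l) := mul_nonneg hl0 a1
    have d3 : 0 ≤ k * (x - k) := mul_nonneg hk0 a2
    have d4 : l * (x - l) ≤ x * x := mul_le_mul a6 a3 a1 hx0.le
    have d5 : k * (x - k) ≤ x * x := mul_le_mul a5 a4 a2 hx0.le
    have d6 : x * 1 ≤ x * (2 * x) := mul_le_mul_of_nonneg_left hh hx0.le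
    have d7 : |x * (x + 1) - 6 * l * (x - l) - 6 * k * (x - k)| ≤ 15 * x ^ 2 := by
      rw [abs_le]
      constructor <;> nlinarith
    rw [abs_mul, abs_mul, abs_of_pos (show 0 < x ^ 2 by positivity)]
    calc |x - 1| * x ^ 2 * |x * (x + 1) - 6 * l * (x - l) - 6 * k * (x - k)| ≤
        2 * x * x ^ 2 * (15 * x ^ 2) := by gcongr
      _ = 30 * x ^ 5 := by ring
  have hB2 : |6 * P * (5 * x - 6)| ≤ 102 * x ^ 5 := by
    have d1 : |5 * x - 6| ≤ 17 * x := by rw [abs_le]; constructor <;> linarith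
    rw [abs_mul, abs_of_nonneg (show 0 ≤ 6 * P by positivity)]
    calc 6 * P * |5 * x - 6| ≤ 6 * x ^ 4 * (17 * x) := by gcongr
      _ = 102 * x ^ 5 := by ring
  have hden : x ^ 8 / 315 ≤ |x ^ 4 * (x - 1) ^ 2 * (x - 2) * (x - 3)| := by
    rw [abs_mul, abs_mul, abs_mul, abs_of_pos (show 0 < x ^ 4 by positivity), abs_pow]
    calc x ^ 8 / 315 = x ^ 4 * (x / 3) ^ 2 * (x / 5) * (x / 7) := by ring
      _ ≤ x ^ 4 * |x - 1| ^ 2 * |x - 2| * |x - 3| := by gcongr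
  have hnum : P * |(x - 1) * x ^ 2 * (x * (x + 1) - 6 * l * (x - l) - 6 * k * (x - k)) +
      6 * P * (5 * x - 6)| ≤ 132 * x ^ 9 := by
    calc _ ≤ x ^ 4 * (30 * x ^ 5 + 102 * x ^ 5) :=
          mul_le_mul hP4 ((abs_add_le _ _).trans (add_le_add hB1 hB2)) (abs_nonneg _) (by positivity)
      _ = 132 * x ^ 9 := by ring
  calc _ ≤ 132 * x ^ 9 / (x ^ 8 / 315) := div_le_div₀ (by positivity) hnum (by positivity) hden
    _ = 41580 * x := by field_simp; ring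
    _ ≤ 100000 * (k + l + 1) := by rw [hx]; linarith

end Pool.Agent.Q237.MK
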