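import Pool.Agent.Q237.MK.Eng6

/-!
Project MK, job K4: the fourth cumulant is preserved.
-/

set_option autoImplicit false

namespace Pool.Agent.Q237.MK

open Pool.Agent.Q291.MK Pool.Agent.Q61.MK Filter Topology Asymptotics
open Pool.Agent.Q149.MK (H_add H_cmul pb_hv pb_hm)

variable {C8 : ℝ}

/-- fourth moment around any point -/
theorem H_fourth (K L : ℕ) (c : ℝ) : H K L (fun j => ((j : ℝ) - c) ^ 4) =
    H K L (fun j => ((j : ℝ) - hm K L) ^ 4) + 4 * (h3 K L * (hm K L - c)) +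
      6 * (hv K L * (hm K L - c) ^ 2) + (hm K L - c) ^ 4 := by
  obtain ⟨-, -, -, hone, -, -, hmean, hvar, hthree⟩ := hyp1 K L
  have e : (fun j : ℕ => ((j : ℝ) - c) ^ 4) = fun j : ℕ => (((((j : ℝ) - hm K L) ^ 4 +
      (4 * (hm K L - c)) * ((j : ℝ) - hm K L) ^ 3) +
      (6 * (hm K L - c) ^ 2) * ((j : ℝ) - hm K L) ^ 2) + (4 * (hm K L - c) ^ 3) * (j : ℝ)) +
      ((hm K L - c) ^ 4 - 4 * (hm K L - c) ^ 3 * hm K L) * 1 := by
    funext j
    ring
  rw [e, H_add, H_add, H_add, H_add, H_cmul, H_cmul, H_cmul, H_cmul, hone, hmean, hvar, hthree]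
  ring

/-- fourth central moment of the hypergeometric law -/
noncomputable def h4 (K L : ℕ) : ℝ := H K L (fun j => ((j : ℝ) - hm K L) ^ 4)

theorem h4_bound : ∃ C : ℝ, 0 < C ∧ ∀ K L : ℕ, |h4 K L - 3 * hv K L ^ 2| ≤ C * ((K : ℝ) + L + 1) :=
  t_HF

theorem pb_h4 : PB2 h4 := by
  obtain ⟨C, hC, h⟩ := h4_bound
  refine PB2.of_le (((PB2.const C).mul (((PB2.fst PB.id).add (PB2.snd PB.id)).add
    (PB2.const 1))).add ((PB2.const 3).mul (pb_hv.pow 2))) fun K L => ?_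
  have h1 := abs_add_le (h4 K L - 3 * hv K L ^ 2) (3 * hv K L ^ 2)
  rw [sub_add_cancel, abs_of_nonneg (show 0 ≤ 3 * hv K L ^ 2 by positivity)] at h1
  exact h1.trans (add_le_add (h K L) le_rfl)

noncomputable def h4A : PBA := ⟨h4, pb_h4⟩

theorem k4_T {a : ℕ → ℝ} (ha : AM a) : k4 (T a) =
    Lw ha (h4A - (3 : ℝ) • hvA ^ 2) + 4 * Lw ha (h3A * dA a) +
      3 * Lw ha ((hvA - Lw ha hvA • (1 : PBA)) ^ 2) +
      6 * Lw ha ((hvA - Lw ha hvA • (1 : PBA)) * dA a ^ 2) +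
      (Lw ha (dA a ^ 4) - 3 * Lw ha (dA a ^ 2) ^ 2) := by
  have h1 : E (T a) (fun k => ((k : ℝ) - mean (T a)) ^ 4) =
      Lw ha (h4A + (4 : ℝ) • (h3A * dA a) + (6 : ℝ) • (hvA * dA a ^ 2) + dA a ^ 4) := by
    rw [((tlaw a ha).2 _ ((PB.id.sub (PB.const _)).pow 4)).2]
    show _ = Ew a (fun K L => h4 K L + 4 * (h3 K L * (hm K L - mean (T a) * 1)) +
      6 * (hv K L * (hm K L - mean (T a) * 1) ^ 2) + (hm K L - mean (T a) * 1) ^ 4)
    congr 1
    funext K L
    rw [H_fourth, mul_one]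
    rfl
  have e1 : (hvA - Lw ha hvA • (1 : PBA)) ^ 2 = hvA ^ 2 - (2 * Lw ha hvA) • hvA +
      (Lw ha hvA ^ 2) • (1 : PBA) := by
    simp only [Algebra.smul_def, map_mul, map_pow, map_ofNat]
    ring
  have e2 : (hvA - Lw ha hvA • (1 : PBA)) * dA a ^ 2 = hvA * dA a ^ 2 - Lw ha hvA • dA a ^ 2 := by
    simp only [Algebra.smul_def]
    ring
  have h2 : k4 (T a) = E (T a) (fun k => ((k : ℝ) - mean (T a)) ^ 4) - 3 * vr (T a) ^ 2 := rfl
  rw [h2, h1, vr_T ha, e1, e2]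
  simp only [map_add, map_sub, map_smul, Lw_one, smul_eq_mul]
  ring

theorem yy_nonneg (μ : ℝ) (K L : ℕ) : 0 ≤ yy μ K L := zero_le_one.trans (yy_ge1 μ K L)

/-- the fourth cumulant of `T a` -/
theorem k4_T_size (h8 : 1 ≤ C8) : Sz (S8 C8) (fun a => k4 (T a) - 1 / 128 * k4 a) 3 := by
  obtain ⟨C, hC, hc⟩ := cst h8
  obtain ⟨B, hB⟩ : ∃ B, B = 2 * C + 2 := ⟨_, rfl⟩
  have hB0 : 0 < B := by linarith
  -- the fourth cumulant of the hypergeometric law
  have t1 : Sz (S8 C8) (fun a => Ew a (fun K L => h4 K L - 3 * hv K L ^ 2)) 3 := by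
    obtain ⟨D, hD, hd⟩ := h4_bound
    have e1 : Sz (S8 C8) (fun a => ws 1 0 a + (2 * mean a + 1)) 3 :=
      ((w10_8 h8).mono (by norm_num)).add ((((Sz.mean _).cmul 2).mono (by norm_num)).add
        ((Sz.const _ 1).mono (by norm_num)))
    refine (e1.cmul D).of_abs_le ?_
    filter_upwards [ev_am C8] with a ha
    have f1 : |Lw ha.1 (h4A - (3 : ℝ) • hvA ^ 2)| ≤
        Lw ha.1 (D • (xA a + (2 * mean a + 1) • (1 : PBA))) := by
      refine Lw_abs ha.1 fun K L => ?_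
      show |h4 K L - 3 * hv K L ^ 2| ≤ D * (X (mean a) K L + (2 * mean a + 1) * 1)
      refine (hd K L).trans (le_of_eq ?_)
      unfold X
      ring
    rw [map_smul, map_add, map_smul, Lw_one, Lw_xA, smul_eq_mul, smul_eq_mul, mul_one] at f1
    exact f1.trans (le_abs_self _)
  -- the third cumulant
  have t2 : Sz (S8 C8) (fun a => Ew a (fun K L => h3 K L * (4 * (hm K L - mean (T a) * 1)))) 3 := by
    refine (of_yu h8 subset_rfl (i := 1) (j := 1) (by norm_num) (3 * B) ?_).mono (by norm_num)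
    filter_upwards [hc, ev_am C8] with a hca ha
    refine ⟨(h3A * (4 : ℝ) • dA a).2, fun K L => ?_⟩
    have f1 := (dA_bound ha.1 hC hca.1 hca.2 K L).2
    have f2 : |h3 K L| ≤ 3 * uu K L := by
      refine (Pool.Agent.Q149.MK.h3_bound K L).trans (le_of_eq ?_)
      unfold uu g Pool.Agent.Q149.MK.gg
      ring
    have f3 := uu_ge K L
    rw [abs_mul]
    refine (mul_le_mul f2 f1 (abs_nonneg _) (by positivity)).trans (le_of_eq ?_)
    rw [hB]
    ring
  -- the variance of the variance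
  have t3 : Sz (S8 C8) (fun a => Ew a (fun K L => (hv K L - Ew a hv * 1) ^ 2)) 3 := by
    refine (of_yu h8 subset_rfl (i := 2) (j := 0) (by norm_num) (B ^ 2) ?_).mono (by norm_num)
    filter_upwards [hc, ev_am C8] with a hca ha
    refine ⟨(pb_hv.sub (PB2.const _)).pow 2, fun K L => ?_⟩
    have f1 : |hv K L - Ew a hv| ≤ B * yy (mean a) K L := by
      rw [hB]
      exact hv_bound ha.1 hC hca.1 hca.2 K L
    rw [mul_one, abs_pow, pow_zero, mul_one, ← mul_pow]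
    exact pow_le_pow_left₀ (abs_nonneg _) f1 2
  -- the covariance
  have t4 : Sz (S8 C8) (fun a => Ew a (fun K L => (hv K L - Ew a hv * 1) *
      (4 * (hm K L - mean (T a) * 1)) ^ 2)) 3 := by
    refine (of_yu h8 subset_rfl (i := 3) (j := 0) (by norm_num) (B ^ 3) ?_).mono (by norm_num)
    filter_upwards [hc, ev_am C8] with a hca ha
    refine ⟨(pb_hv.sub (PB2.const _)).mul (((PB2.const 4).mul
      (pb_hm.sub (PB2.const _))).pow 2), fun K L => ?_⟩
    have f1 : |hv K L - Ew a hv| ≤ B * yy (mean a) K L := by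
      rw [hB]
      exact hv_bound ha.1 hC hca.1 hca.2 K L
    have f2 : |4 * (hm K L - mean (T a) * 1)| ≤ B * yy (mean a) K L := by
      rw [hB]
      exact (dA_bound ha.1 hC hca.1 hca.2 K L).2
    have hy := yy_nonneg (mean a) K L
    rw [abs_mul, abs_pow]
    simp only [mul_one, pow_zero] at f1 f2 ⊢
    refine (mul_le_mul f1 (pow_le_pow_left₀ (abs_nonneg _) f2 2) (by positivity)
      (by positivity)).trans (le_of_eq ?_)
    ring
  -- comparison of the powers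
  have t5 : Sz (S8 C8) (fun a => Ew a (fun K L => (4 * (hm K L - mean (T a) * 1)) ^ 4 -
      X (mean a) K L ^ 4 * g K L ^ 0)) 3 := by
    refine (of_yu h8 subset_rfl (i := 3) (j := 1) (by norm_num) (4 * B ^ 4) ?_).mono (by norm_num)
    filter_upwards [hc, ev_am C8] with a hca ha
    refine ⟨(((PB2.const 4).mul (pb_hm.sub (PB2.const _))).pow 4).sub (pb_s _ 4 0),
      fun K L => ?_⟩
    have f1 : |4 * (hm K L - mean (T a) * 1) - X (mean a) K L| ≤ B * uu K L := by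
      rw [hB]
      exact (dA_bound ha.1 hC hca.1 hca.2 K L).1
    have f2 : |4 * (hm K L - mean (T a) * 1)| ≤ B * yy (mean a) K L := by
      rw [hB]
      exact (dA_bound ha.1 hC hca.1 hca.2 K L).2
    have hy := yy_nonneg (mean a) K L
    have hu := uu_ge K L
    have f3 : |X (mean a) K L| ≤ B * yy (mean a) K L := by
      have : |X (mean a) K L| ≤ 1 * yy (mean a) K L := by
        unfold yy
        linarith
      refine this.trans (mul_le_mul_of_nonneg_right ?_ hy)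
      linarith
    obtain ⟨z, hz⟩ : ∃ z, z = 4 * (hm K L - mean (T a) * 1) := ⟨_, rfl⟩
    obtain ⟨x, hx⟩ : ∃ x, x = X (mean a) K L := ⟨_, rfl⟩
    obtain ⟨y, hy'⟩ : ∃ y, y = yy (mean a) K L := ⟨_, rfl⟩
    rw [← hz, ← hx] at f1
    rw [← hz, ← hy'] at f2
    rw [← hx, ← hy'] at f3
    rw [← hy'] at hy
    rw [← hz, ← hx, ← hy', pow_zero, mul_one, pow_one]
    have e : z ^ 4 - x ^ 4 = (z - x) * (z ^ 3 + z ^ 2 * x + z * x ^ 2 + x ^ 3) := by ring
    have hBy : 0 ≤ B * y := by positivity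
    have g1 : |z ^ 3 + z ^ 2 * x + z * x ^ 2 + x ^ 3| ≤ 4 * (B * y) ^ 3 := by
      have q1 : |z ^ 3| ≤ (B * y) ^ 3 := by rw [abs_pow]; exact pow_le_pow_left₀ (abs_nonneg _) f2 3
      have q4 : |x ^ 3| ≤ (B * y) ^ 3 := by rw [abs_pow]; exact pow_le_pow_left₀ (abs_nonneg _) f3 3
      have q2 : |z ^ 2 * x| ≤ (B * y) ^ 3 := by
        rw [abs_mul, abs_pow, pow_succ (B * y) 2]
        exact mul_le_mul (pow_le_pow_left₀ (abs_nonneg _) f2 2) f3 (abs_nonneg _) (by positivity)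
      have q3 : |z * x ^ 2| ≤ (B * y) ^ 3 := by
        rw [abs_mul, abs_pow, pow_succ' (B * y) 2]
        exact mul_le_mul f2 (pow_le_pow_left₀ (abs_nonneg _) f3 2) (by positivity) (by positivity)
      have r1 := abs_add_le (z ^ 3 + z ^ 2 * x + z * x ^ 2) (x ^ 3)
      have r2 := abs_add_le (z ^ 3 + z ^ 2 * x) (z * x ^ 2)
      have r3 := abs_add_le (z ^ 3) (z ^ 2 * x)
      linarith
    rw [e, abs_mul]
    refine (mul_le_mul f1 g1 (abs_nonneg _) (by positivity)).trans (le_of_eq ?_)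
    ring
  have t6 : Sz (S8 C8) (fun a => Ew a (fun K L => (4 * (hm K L - mean (T a) * 1)) ^ 2 -
      X (mean a) K L ^ 2 * g K L ^ 0)) 1 := by
    refine of_yu h8 subset_rfl (i := 1) (j := 1) (by norm_num) (2 * B ^ 2) ?_
    filter_upwards [hc, ev_am C8] with a hca ha
    refine ⟨(((PB2.const 4).mul (pb_hm.sub (PB2.const _))).pow 2).sub (pb_s _ 2 0),
      fun K L => ?_⟩
    have f1 : |4 * (hm K L - mean (T a) * 1) - X (mean a) K L| ≤ B * uu K L := by
      rw [hB]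
      exact (dA_bound ha.1 hC hca.1 hca.2 K L).1
    have f2 : |4 * (hm K L - mean (T a) * 1)| ≤ B * yy (mean a) K L := by
      rw [hB]
      exact (dA_bound ha.1 hC hca.1 hca.2 K L).2
    have hy := yy_nonneg (mean a) K L
    have hu := uu_ge K L
    have f3 : |X (mean a) K L| ≤ B * yy (mean a) K L := by
      have : |X (mean a) K L| ≤ 1 * yy (mean a) K L := by
        unfold yy
        linarith
      refine this.trans (mul_le_mul_of_nonneg_right ?_ hy)
      linarith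
    obtain ⟨z, hz⟩ : ∃ z, z = 4 * (hm K L - mean (T a) * 1) := ⟨_, rfl⟩
    obtain ⟨x, hx⟩ : ∃ x, x = X (mean a) K L := ⟨_, rfl⟩
    obtain ⟨y, hy'⟩ : ∃ y, y = yy (mean a) K L := ⟨_, rfl⟩
    rw [← hz, ← hx] at f1
    rw [← hz, ← hy'] at f2
    rw [← hx, ← hy'] at f3
    rw [← hy'] at hy
    rw [← hz, ← hx, ← hy', pow_zero, mul_one, pow_one, pow_one]
    have e : z ^ 2 - x ^ 2 = (z - x) * (z + x) := by ring
    have hBy : 0 ≤ B * y := by positivity
    have g1 : |z + x| ≤ 2 * (B * y) := by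
      have r3 := abs_add_le z x
      linarith
    rw [e, abs_mul]
    refine (mul_le_mul f1 g1 (abs_nonneg _) (by positivity)).trans (le_of_eq ?_)
    ring
  -- assembly
  have t7 : Sz (S8 C8) (fun a => Ew a (fun K L => (4 * (hm K L - mean (T a) * 1)) ^ 2 -
      X (mean a) K L ^ 2 * g K L ^ 0) * (Ew a (fun K L => (4 * (hm K L - mean (T a) * 1)) ^ 2 -
      X (mean a) K L ^ 2 * g K L ^ 0) + 2 * ws 2 0 a)) 3 := by
    refine t6.mul' ((t6.mono (l := 2) (by norm_num)).add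
      ((sz_ws h8 (p := 2) (q := 0) (by norm_num)).cmul 2)) (by norm_num)
  refine (((((t1.add t2).add (t3.cmul 3)).add (t4.cmul (6 / 16))).add (t5.cmul (1 / 256))).sub
    (t7.cmul (3 / 256))).add ((k4_8 h8).cmul (1 / 256)) |>.congr ?_
  filter_upwards [ev_am C8] with a ha
  rw [k4_T ha.1]
  have g2 : Ew a (fun K L => h3 K L * (4 * (hm K L - mean (T a) * 1))) =
      4 * Lw ha.1 (h3A * dA a) := by
    have : Ew a (fun K L => h3 K L * (4 * (hm K L - mean (T a) * 1))) =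
      Lw ha.1 (h3A * (4 : ℝ) • dA a) := rfl
    rw [this, mul_smul_comm, map_smul, smul_eq_mul]
  have g4 : Ew a (fun K L => (hv K L - Ew a hv * 1) * (4 * (hm K L - mean (T a) * 1)) ^ 2) =
      16 * Lw ha.1 ((hvA - Lw ha.1 hvA • (1 : PBA)) * dA a ^ 2) := by
    have : Ew a (fun K L => (hv K L - Ew a hv * 1) * (4 * (hm K L - mean (T a) * 1)) ^ 2) =
      Lw ha.1 ((hvA - Lw ha.1 hvA • (1 : PBA)) * ((4 : ℝ) • dA a) ^ 2) := rfl
    rw [this, smul_pow, mul_smul_comm, map_smul, smul_eq_mul]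
    norm_num
  have g5 : Ew a (fun K L => (4 * (hm K L - mean (T a) * 1)) ^ 4 - X (mean a) K L ^ 4 * g K L ^ 0) =
      256 * Lw ha.1 (dA a ^ 4) - ws 4 0 a := by
    have : Ew a (fun K L => (4 * (hm K L - mean (T a) * 1)) ^ 4 - X (mean a) K L ^ 4 * g K L ^ 0) =
      Lw ha.1 (((4 : ℝ) • dA a) ^ 4 - xA a ^ 4 * gA ^ 0) := rfl
    rw [this, smul_pow, map_sub, map_smul, smul_eq_mul, ← ws_Lw]
    norm_num
  have g6 : Ew a (fun K L => (4 * (hm K L - mean (T a) * 1)) ^ 2 - X (mean a) K L ^ 2 * g K L ^ 0) =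
      16 * Lw ha.1 (dA a ^ 2) - ws 2 0 a := by
    have : Ew a (fun K L => (4 * (hm K L - mean (T a) * 1)) ^ 2 - X (mean a) K L ^ 2 * g K L ^ 0) =
      Lw ha.1 (((4 : ℝ) • dA a) ^ 2 - xA a ^ 2 * gA ^ 0) := rfl
    rw [this, smul_pow, map_sub, map_smul, smul_eq_mul, ← ws_Lw]
    norm_num
  have g1 : Ew a (fun K L => h4 K L - 3 * hv K L ^ 2) = Lw ha.1 (h4A - (3 : ℝ) • hvA ^ 2) := rfl
  have g3 : Ew a (fun K L => (hv K L - Ew a hv * 1) ^ 2) =
      Lw ha.1 ((hvA - Lw ha.1 hvA • (1 : PBA)) ^ 2) := rfl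
  rw [g1, g2, g3, g4, g5, g6]
  ring

theorem k4_S {a : ℕ → ℝ} (ha : AM a) : k4 (S a) = 2 * k4 a := by
  have hm := Pool.Agent.Q222.MK.mean_S ha
  have hv := Pool.Agent.Q222.MK.vr_S ha
  have h1 : E (S a) (fun k => ((k : ℝ) - mean (S a)) ^ 4) = es 4 0 a := by
    rw [((Pool.Agent.Q222.MK.t_SLAW_only a ha).2 _ ((PB.id.sub (PB.const _)).pow 4)).2, hm]
    unfold es
    congr 1
    funext K L
    unfold X
    push_cast
    ring
  have h2 : k4 (S a) = E (S a) (fun k => ((k : ℝ) - mean (S a)) ^ 4) - 3 * vr (S a) ^ 2 := rfl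
  rw [h2, h1, hv, es40 ha]
  ring

/-- the mean of `T a` -/
theorem mean_T_ge (h8 : 1 ≤ C8) : ∀ᶠ a in FF (S8 C8), 49 / 100 * mean a ≤ mean (T a) := by
  obtain ⟨C, hC, hc⟩ := cst h8
  filter_upwards [hc, ev_am C8, ev_ge (S8 C8) (100 * (2 * C + 1))] with a hca ha hb
  have h1 := four_mean_T ha.1
  obtain ⟨i1, i2⟩ := iv_mean ha.1
  obtain ⟨a1, a2⟩ := abs_le.1 hca.1
  obtain ⟨b1, b2⟩ := abs_le.1 hca.2
  have := hb.2
  linarith

/-- Job K4. -/
theorem t_K4' : P_K4 := by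
  intro C8 C12 h8 _
  obtain ⟨D, hD, hd⟩ := (k4_T_size h8).ev
  refine ⟨1 + 5 * D, by linarith, fun C4 hC4 C3 hC3 => ?_⟩
  obtain ⟨M, hM⟩ := FF_ev.1 (hd.and ((mean_T_ge h8).and (ev_rr (S8 C8))))
  refine ⟨max M 10, le_max_right _ _, fun a ha hk hm => ?_⟩
  have haS : a ∈ S8 C8 := ⟨C3, ha.toCls⟩
  obtain ⟨b1, b2, hr1, hr2⟩ := hM a haS ((le_max_left _ _).trans hm)
  have hm10 : 10 ≤ mean a := (le_max_right _ _).trans hm
  have ham : AM a := ha.toCls.toAM
  have e3 : rr a ^ (3 : ℤ) = mean a * √(mean a) := by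
    rw [← hr2]
    show rr a ^ (3 : ℤ) = rr a ^ 2 * √(rr a ^ 2)
    rw [Real.sqrt_sq (by linarith)]
    norm_cast
  rw [e3] at b1
  have hq0 : 0 ≤ mean a * √(mean a) := by positivity
  constructor
  · have s1 : 7 / 10 * √(mean a) ≤ √(mean (T a)) := by
      have : 7 / 10 * √(mean a) = √(49 / 100 * mean a) := by
        rw [Real.sqrt_mul (by norm_num), show (49 / 100 : ℝ) = (7 / 10) ^ 2 by norm_num,
          Real.sqrt_sq (by norm_num)]
      rw [this]
      exact Real.sqrt_le_sqrt b2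
    have s2 : 343 / 1000 * (mean a * √(mean a)) ≤ mean (T a) * √(mean (T a)) := by
      calc 343 / 1000 * (mean a * √(mean a)) = (49 / 100 * mean a) * (7 / 10 * √(mean a)) := by ring
        _ ≤ _ := mul_le_mul b2 s1 (by positivity) (by linarith)
    have s3 : |k4 (T a)| ≤ D * (mean a * √(mean a)) + 1 / 128 * (C4 * (mean a * √(mean a))) := by
      have e : k4 (T a) = (k4 (T a) - 1 / 128 * k4 a) + 1 / 128 * k4 a := by ring
      rw [e]
      refine (abs_add_le _ _).trans (add_le_add b1 ?_)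
      rw [abs_mul, abs_of_pos (by norm_num : (0 : ℝ) < 1 / 128)]
      exact mul_le_mul_of_nonneg_left hk (by norm_num)
    refine s3.trans ?_
    have hC40 : 0 ≤ C4 := by linarith
    calc D * (mean a * √(mean a)) + 1 / 128 * (C4 * (mean a * √(mean a))) =
        (D + 1 / 128 * C4) * (mean a * √(mean a)) := by ring
      _ ≤ (343 / 1000 * C4) * (mean a * √(mean a)) :=
          mul_le_mul_of_nonneg_right (by linarith) hq0
      _ = C4 * (343 / 1000 * (mean a * √(mean a))) := by ring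
      _ ≤ _ := mul_le_mul_of_nonneg_left s2 hC40
  · have hmS := Pool.Agent.Q222.MK.mean_S ham
    rw [k4_S ham, hmS, abs_mul, abs_of_pos (by norm_num : (0 : ℝ) < 2)]
    have s1 : √(mean a) ≤ √(2 * mean a) := Real.sqrt_le_sqrt (by linarith)
    have hC40 : 0 ≤ C4 := by linarith
    calc 2 * |k4 a| ≤ 2 * (C4 * (mean a * √(mean a))) := mul_le_mul_of_nonneg_left hk (by norm_num)
      _ = C4 * (2 * mean a * √(mean a)) := by ring
      _ ≤ C4 * (2 * mean a * √(2 * mean a)) := by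
          refine mul_le_mul_of_nonneg_left ?_ hC40
          exact mul_le_mul_of_nonneg_left s1 (by linarith)

/-- Job K4. -/
theorem t_K4 : P_HF → P_EA2 → P_K4 := fun _ _ => t_K4'

end Pool.Agent.Q237.MK
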