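import Pool.Agent.Q291.MK.Stm4
import Pool.Agent.Q280.MK.HYP1
import Pool.Agent.Q222.MK.TLAW
import Pool.Agent.Q222.MK.SLAW
import Pool.Agent.Q222.MK.CHEB
import Pool.Agent.Q210.MK.CRUDE

/-!
Project MK, job MEM: loss of memory.
-/

set_option autoImplicit false

namespace Pool.Agent.Q237.MK

open Pool.Agent.Q291.MK Finset Filter Topology

theorem crude : P_CRUDE := Pool.Agent.Q210.MK.t_CRUDE Pool.Agent.Q280.MK.t_HYP1
  (Pool.Agent.Q222.MK.t_TLAW Pool.Agent.Q280.MK.t_HYP1) Pool.Agent.Q222.MK.t_SLAW.1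
  Pool.Agent.Q222.MK.t_CHEB

theorem AM_R {a : ℕ → ℝ} (ha : AM a) : AM (R a) :=
  Pool.Agent.Q222.MK.AM_S (Pool.Agent.Q222.MK.AM_S (Pool.Agent.Q222.MK.AM_T Pool.Agent.Q280.MK.t_HYP1
    (Pool.Agent.Q222.MK.AM_T Pool.Agent.Q280.MK.t_HYP1 ha)))

theorem law_le_one {a : ℕ → ℝ} (ha : Law a) (k : ℕ) : a k ≤ 1 :=
  le_hasSum ha.one k (fun j _ => ha.nn j)

theorem mean_T_le {a : ℕ → ℝ} (ha : AM a) : mean (T a) ≤ mean a / 2 := by
  have h1 := (crude a ha).2.2.2.1
  have h2 := law_le_one ha.toLaw 0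
  linarith

theorem mean_R_le {a : ℕ → ℝ} (ha : AM a) : mean (R a) ≤ mean a := by
  have hb := Pool.Agent.Q222.MK.AM_T Pool.Agent.Q280.MK.t_HYP1 ha
  have hc := Pool.Agent.Q222.MK.AM_T Pool.Agent.Q280.MK.t_HYP1 hb
  have hd := Pool.Agent.Q222.MK.AM_S hc
  have h1 := mean_T_le ha
  have h2 := mean_T_le hb
  have h3 := Pool.Agent.Q222.MK.mean_S hc
  have h4 := Pool.Agent.Q222.MK.mean_S hd
  unfold R
  rw [h4, h3]
  linarith

theorem AM_iter {a : ℕ → ℝ} (ha : AM a) (n : ℕ) : AM (R^[n] a) := by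
  induction n with
  | zero => exact ha
  | succ n ih =>
    rw [Function.iterate_succ_apply']
    exact AM_R ih

theorem mean_anti {a : ℕ → ℝ} (ha : AM a) : Antitone fun n => mean (R^[n] a) := by
  refine antitone_nat_of_succ_le fun n => ?_
  rw [Function.iterate_succ_apply']
  exact mean_R_le (AM_iter ha n)

theorem vr_nonneg {a : ℕ → ℝ} (ha : AM a) : 0 ≤ vr a :=
  tsum_nonneg fun k => mul_nonneg (ha.nn k) (sq_nonneg _)

theorem Cl_plus {C3 C8 C12 : ℝ} {a : ℕ → ℝ} (ha : Cl C3 C8 C12 a) (hm : 0 ≤ mean a) :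
    Cl (C3 + 3) (C8 + 1) (C12 + 1) a where
  toAM := ha.toAM
  vr_le := ha.vr_le
  k3_le := ha.k3_le.trans (by nlinarith)
  m8_le := ha.m8_le.trans (by
    have : 0 ≤ mean a ^ 4 := by positivity
    nlinarith)
  m12_le := ha.m12_le.trans (by
    have : 0 ≤ mean a ^ 6 := by positivity
    nlinarith)

section

variable {C3 C8 C12 M e C : ℝ}

theorem orbit_Cl (hc : Cst C3 C8 C12 M e C) {a : ℕ → ℝ} (ha : Cl C3 C8 C12 a) {N : ℕ}
    (hM : ∀ n < N, M ≤ mean (R^[n] a)) : ∀ n ≤ N, Cl C3 C8 C12 (R^[n] a) := by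
  intro n
  induction n with
  | zero => exact fun _ => ha
  | succ n ih =>
    intro hn
    rw [Function.iterate_succ_apply']
    exact hc.step _ (ih (by omega)) (hM n (by omega))

/-- the flow of the mean and of the ratio -/
theorem flow (hc : Cst C3 C8 C12 M e C) {a : ℕ → ℝ} (ha : Cl C3 C8 C12 a) {i : ℕ}
    (hM : M ≤ mean (R^[i] a)) (hv : vr a ≤ 2 / 5 * mean a) :
    ∀ n ≤ i, (0 ≤ vr (R^[n] a) / mean (R^[n] a) ∧ vr (R^[n] a) / mean (R^[n] a) ≤ 2 / 5) ∧
      mean a ≤ mean (R^[n] a) + 4 * n ∧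
      |(mean (R^[n] a) - 2 * (vr (R^[n] a) / mean (R^[n] a))) - (mean a - 2 * (vr a / mean a)) +
        2 * n| ≤ n * (C / mean (R^[i] a)) := by
  have hM10 := hc.hM
  have hC1 := hc.hC
  have hMC := hc.hMC
  have hlow : ∀ n ≤ i, mean (R^[i] a) ≤ mean (R^[n] a) := fun n hn => mean_anti ha.toAM hn
  have hcl := orbit_Cl hc ha (N := i) fun n hn => hM.trans (hlow n hn.le)
  intro n
  induction n with
  | zero =>
    intro _
    have hm0 : M ≤ mean a := hM.trans (hlow 0 (Nat.zero_le i))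
    refine ⟨⟨?_, ?_⟩, ?_, ?_⟩
    · exact div_nonneg (vr_nonneg ha.toAM) (by show 0 ≤ mean a; linarith)
    · show vr a / mean a ≤ 2 / 5
      rw [div_le_iff₀ (by linarith)]
      exact hv
    · show mean a ≤ mean a + 4 * ((0:ℕ):ℝ)
      simp
    · show |(mean a - 2 * (vr a / mean a)) - (mean a - 2 * (vr a / mean a)) + 2 * ((0:ℕ):ℝ)| ≤
        ((0:ℕ):ℝ) * (C / mean (R^[i] a))
      simp
  | succ n ih =>
    intro hn
    obtain ⟨⟨h1, h2⟩, h3, h4⟩ := ih (by omega)
    have hmn : M ≤ mean (R^[n] a) := hM.trans (hlow n (by omega))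
    have hmn1 : M ≤ mean (R^[n + 1] a) := hM.trans (hlow (n + 1) hn)
    have hcn := hcl n (by omega)
    obtain ⟨-, k1, k2, k3, k4⟩ := hc.stepP _ (Cl_plus hcn (by linarith)) hmn
    have hAM := AM_iter ha.toAM (n + 1)
    rw [← Function.iterate_succ_apply' R n a] at k1 k2 k3 k4
    set x := mean (R^[n] a) with hx
    set y := mean (R^[n + 1] a) with hy
    set s := vr (R^[n] a) / x with hs
    set t := vr (R^[n + 1] a) / y with ht
    have hx0 : 0 < x := by linarith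
    have hy0 : 0 < y := by linarith
    have hCx : C / x ≤ 1 / 100 := by
      rw [div_le_div_iff₀ hx0 (by norm_num)]
      linarith
    have hmi : 0 < mean (R^[i] a) := by linarith
    have hCi : C / x ≤ C / mean (R^[i] a) :=
      div_le_div_of_nonneg_left (by linarith) hmi (hlow n (by omega))
    refine ⟨⟨?_, ?_⟩, ?_, ?_⟩
    · exact div_nonneg (vr_nonneg hAM) hy0.le
    · rw [abs_le] at k3
      linarith [k3.2]
    · push_cast
      linarith
    · rw [abs_le] at k4 h4 ⊢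
      push_cast
      constructor
      · linarith [k4.1, h4.1]
      · linarith [k4.2, h4.2]

theorem Fd_mono {a b : ℕ → ℝ} {r r' : ℝ} (h : Fd e a b r) (hr : r ≤ r') : Fd e a b r' :=
  fun φ hφ => (h φ hφ).trans hr

end

theorem t_MEM : P_CRN → P_DIFF → P_MEM := by
  intro hCRN hDIFF C3 C8 C12 M e C hc
  obtain ⟨D0, hD0, -, hN2, hN3, -⟩ := hCRN C3 C8 C12 M e C hc
  obtain ⟨D1, hD1, hdf⟩ := hDIFF C3 C8 C12 M e C hc
  have hM10 := hc.hM
  have hC1 := hc.hC
  set K0 : ℝ := 6 + 2 * C * (1 + D0) with hK0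
  set D3 : ℝ := D1 * (2 * D0 + K0) with hD3
  have hK0p : 0 < K0 := by positivity
  have hD3p : 0 < D3 := by positivity
  have p1 : 0 ≤ D1 * (1 + K0) ^ 2 := by positivity
  have p2 : 0 ≤ D1 * (1 + 2 * C * D3) ^ 2 := by positivity
  have p3 : 0 ≤ 2 * C * D1 * D3 := by positivity
  have p4 : 0 ≤ 2 * C * D3 := by positivity
  set D : ℝ := 4 + 2 * C + D1 * (1 + K0) ^ 2 + D1 * (1 + 2 * C * D3) ^ 2 + 2 * C * D1 * D3 +
    2 * C * D3 with hD
  refine ⟨D, by linarith, fun a b i j ha hb hva hvb hmean hbig h2i hiD => ?_⟩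
  have hij : R^[i + j] a = R^[j] (R^[i] a) := by rw [add_comm, Function.iterate_add_apply]
  have hijb : R^[i + j] b = R^[j] (R^[i] b) := by rw [add_comm, Function.iterate_add_apply]
  have hanti := mean_anti ha.toAM
  have hantib := mean_anti hb.toAM
  set m : ℝ := mean (R^[i] a) with hm
  have hm1 : M + D ≤ m := hbig.trans (hanti (Nat.le_add_right i j))
  have hm0 : 0 < m := by linarith
  have hm10 : 10 ≤ m := by linarith
  have hMa : ∀ n ≤ i, M + D ≤ mean (R^[n] a) := fun n hn => hm1.trans (hanti hn)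
  have hMi : M ≤ mean (R^[i] a) := by
    have := hMa i le_rfl
    linarith
  have hMib : M ≤ mean (R^[i] b) := by rw [hmean]; linarith
  have hfa := flow hc ha hMi hva
  have hfb := flow hc hb hMib hvb
  obtain ⟨⟨a1, a2⟩, a3, a4⟩ := hfa i le_rfl
  obtain ⟨⟨b1, b2⟩, b3, b4⟩ := hfb i le_rfl
  obtain ⟨⟨a5, a6⟩, -, -⟩ := hfa 0 (Nat.zero_le i)
  obtain ⟨⟨b5, b6⟩, -, -⟩ := hfb 0 (Nat.zero_le i)
  rw [Function.iterate_zero, id_eq] at a5 a6 b5 b6
  rw [hmean] at b1 b2 b3 b4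
  rw [← hm] at a1 a2 a3 a4
  have hi0 : (0:ℝ) ≤ i := Nat.cast_nonneg i
  have hD2C : 2 * C ≤ D := by linarith
  have hD0' : 0 < D := by linarith
  have herr : (i:ℝ) * (C / m) ≤ 1 / 2 := by
    rw [mul_div_assoc', div_le_div_iff₀ hm0 two_pos]
    have h1 := mul_le_mul_of_nonneg_left hD2C hi0
    linarith only [h1, hiD]
  -- the distance of the means
  have hdist : |mean b - mean a| ≤ 3 := by
    rw [abs_le] at a4 b4 ⊢
    constructor <;> linarith [a4.1, a4.2, b4.1, b4.2]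
  have hma : M + D ≤ mean a := hMa 0 (Nat.zero_le i)
  have hma0 : 0 < mean a := by linarith
  have hMma : M ≤ mean a := by linarith
  have hmb0 : M ≤ mean b := by
    have := hantib (Nat.zero_le i)
    simp only [Function.iterate_zero, id_eq] at this
    linarith
  have hva' : vr a ≤ 3 / 4 * mean a := by linarith
  have hvb' : vr b ≤ 3 / 4 * mean b := by linarith
  have hseg := hN2 a b ha hb hMma hdist hva' hvb'
  set Δ : ℝ := |mean b - mean a| with hΔ
  have hΔ0 : 0 ≤ Δ := abs_nonneg _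
  set K : ℝ := 2 * Δ + 2 * C * ((Δ + D0 * mean a) / mean a) with hK
  have hKK : K ≤ K0 := by
    have h1 : (Δ + D0 * mean a) / mean a ≤ 1 + D0 := by
      rw [div_le_iff₀ hma0]
      have h2 : Δ ≤ mean a := by linarith only [hdist, hma, hM10, hD0']
      linarith only [h2]
    have h2 : 2 * C * ((Δ + D0 * mean a) / mean a) ≤ 2 * C * (1 + D0) :=
      mul_le_mul_of_nonneg_left h1 (by linarith)
    linarith
  have hKp : 0 ≤ K := by
    have h1 : 0 ≤ (Δ + D0 * mean a) / mean a := by positivity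
    have h2 : 0 ≤ 2 * C * ((Δ + D0 * mean a) / mean a) := mul_nonneg (by linarith) h1
    linarith
  have hKsq : D1 * (1 + K) ^ 2 ≤ D1 * (1 + K0) ^ 2 := by gcongr
  obtain ⟨-, hFd1⟩ := hdf a b (D0 * mean a) K i ha hb hMma hdist hva' hvb' hseg hK
    (fun n hn => by
      have := hMa n hn.le
      linarith) i le_rfl
  have hFd2 := hFd1 (by
    have := hMa i le_rfl
    linarith)
  rw [← hm] at hFd2
  -- bound for the distance after i steps
  have hsq1 : 1 ≤ √m := by
    rw [Real.one_le_sqrt]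
    linarith
  have hsqm : √m * √m = m := Real.mul_self_sqrt hm0.le
  have hpow : (0:ℝ) < 2 ^ i := by positivity
  have hma2 : mean a ≤ 2 * 2 ^ i := by
    have h1 : 4 * (i:ℝ) ≤ m := by
      have h2 := mul_le_mul_of_nonneg_left (by linarith : (4:ℝ) ≤ D) hi0
      linarith only [h2, hiD]
    linarith
  have hr : D1 * (D0 * mean a / 2 ^ i + K * √m) ≤ D3 * √m := by
    have h1 : D0 * mean a / 2 ^ i ≤ 2 * D0 := by
      rw [div_le_iff₀ hpow]
      have h2 := mul_le_mul_of_nonneg_left hma2 hD0.le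
      linarith only [h2]
    have h2 : D0 * mean a / 2 ^ i + K * √m ≤ (2 * D0 + K0) * √m := by
      have e1 := mul_le_mul_of_nonneg_right hKK (Real.sqrt_nonneg m)
      have e2 := mul_le_mul_of_nonneg_left hsq1 hD0.le
      linarith only [e1, e2, h1]
    calc D1 * (D0 * mean a / 2 ^ i + K * √m) ≤ D1 * ((2 * D0 + K0) * √m) :=
          mul_le_mul_of_nonneg_left h2 (by linarith)
      _ = _ := by rw [hD3]; ring
  have hFd3 : Fd e (R^[i] a) (R^[i] b) (D3 * √m) := Fd_mono hFd2 hr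
  have hcla := orbit_Cl hc ha (N := i) (fun n hn => by
    have := hMa n hn.le
    linarith) i le_rfl
  have hclb := orbit_Cl hc hb (N := i) (fun n hn => hMib.trans (hantib hn.le)) i le_rfl
  have hseg2 := hN3 _ _ hcla hclb hMi hmean _ hFd3
  have hd0 : mean (R^[i] b) - mean (R^[i] a) = 0 := by rw [hmean, hm]; ring
  have hdf2 := hdf (R^[i] a) (R^[i] b) (D3 * √m) (2 * C * (D3 * √m / m)) j hcla hclb hMi
    (by rw [hd0]; norm_num)
    (by
      rw [div_le_iff₀ hm0] at a2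
      rw [← hm]
      linarith)
    (by
      rw [div_le_iff₀ hm0] at b2
      rw [hmean]
      linarith)
    (fun s hs0 hs1 => by
      rw [hd0]
      exact hseg2 s hs0 hs1)
    (by
      rw [hd0, ← hm, abs_zero]
      ring)
  have hK' : D3 * √m / m = D3 / √m := by
    rw [div_eq_div_iff hm0.ne' (by positivity)]
    rw [mul_assoc, hsqm]
  rw [hK'] at hdf2
  have hK'1 : D3 / √m ≤ D3 := div_le_self hD3p.le hsq1
  have hK'0 : 0 ≤ D3 / √m := by positivity
  have hK'2 : 2 * C * (D3 / √m) ≤ 2 * C * D3 := mul_le_mul_of_nonneg_left hK'1 (by linarith)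
  have hK'3 : 0 ≤ 2 * C * (D3 / √m) := mul_nonneg (by linarith) hK'0
  have hK'4 : D1 * (1 + 2 * C * (D3 / √m)) ^ 2 ≤ D1 * (1 + 2 * C * D3) ^ 2 := by gcongr
  have hjlow : ∀ n ≤ j, M + D ≤ mean (R^[n] (R^[i] a)) := by
    intro n hn
    have h1 : R^[n] (R^[i] a) = R^[i + n] a := by rw [add_comm, Function.iterate_add_apply]
    rw [h1]
    exact hbig.trans (hanti (by omega))
  obtain ⟨hfin1, hfin2⟩ := hdf2 (fun n hn => by
    have := hjlow n hn.le
    linarith) j le_rfl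
  have hfin3 := hfin2 (by
    have := hjlow j le_rfl
    linarith)
  rw [← hij, ← hijb] at hfin1 hfin3
  refine ⟨hfin1.trans ?_, Fd_mono hfin3 ?_⟩
  · rw [← mul_div_assoc]
    apply div_le_div_of_nonneg_right _ (Real.sqrt_nonneg _)
    linarith
  · have hq : 0 ≤ √(mean (R^[i + j] a)) := Real.sqrt_nonneg _
    have h1 : D1 * (D3 * √m / 2 ^ j) ≤ D * (√m / 2 ^ j) := by
      have h2 : D1 * D3 ≤ D := by
        have : D1 * D3 ≤ 2 * C * D1 * D3 := by
          have h3 : 0 ≤ D1 * D3 := by positivity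
          have h5 := mul_le_mul_of_nonneg_right (by linarith only [hC1] : (1:ℝ) ≤ 2 * C) h3
          linarith only [h5]
        linarith
      have h4 : 0 ≤ √m / 2 ^ j := by positivity
      calc D1 * (D3 * √m / 2 ^ j) = (D1 * D3) * (√m / 2 ^ j) := by ring
        _ ≤ _ := mul_le_mul_of_nonneg_right h2 h4
    have h2 : D1 * (2 * C * (D3 / √m) * √(mean (R^[i + j] a))) ≤
        D * (√(mean (R^[i + j] a)) / √m) := by
      have h3 : 2 * C * D1 * D3 ≤ D := by linarith
      have h4 : 0 ≤ √(mean (R^[i + j] a)) / √m := by positivity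
      calc D1 * (2 * C * (D3 / √m) * √(mean (R^[i + j] a))) =
          (2 * C * D1 * D3) * (√(mean (R^[i + j] a)) / √m) := by ring
        _ ≤ _ := mul_le_mul_of_nonneg_right h3 h4
    rw [mul_add, mul_add]
    exact add_le_add h1 h2

end Pool.Agent.Q237.MK
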