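import Pool.Agent.Q237.MK.Eng7

/-!
Project MK, job TM2: mean, variance and third cumulant of `T a` to the next order.
-/

set_option autoImplicit false

namespace Pool.Agent.Q237.MK

open Pool.Agent.Q291.MK Pool.Agent.Q61.MK Filter Topology Asymptotics
open Pool.Agent.Q284.MK (iv iv_nonneg iv_le pb_iv four_hm)

variable {C8 : ℝ} {S : Set (ℕ → ℝ)}

theorem xc_bound (a : ℕ → ℝ) {C : ℝ} (hC : 1 ≤ C) (h1 : |ws 1 0 a| ≤ C) (K L : ℕ) :
    |(xc a).1 K L| ≤ (2 * C + 2) * yy (mean a) K L := by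
  show |X (mean a) K L - ws 1 0 a * 1| ≤ _
  have h2 := abs_sub (X (mean a) K L) (ws 1 0 a * 1)
  rw [mul_one] at h2 ⊢
  refine h2.trans ?_
  have hu := uu_ge K L
  have hx := abs_nonneg (X (mean a) K L)
  unfold yy
  nlinarith

/-- the difference between the centred mean and the centred sum -/
noncomputable def wA {a : ℕ → ℝ} (ha : AM a) : PBA := (1 / 4 : ℝ) • ic ha - gc a

theorem wA_bound {a : ℕ → ℝ} (ha : AM a) {C : ℝ} (hC : 1 ≤ C) (h2 : |ws 0 1 a| ≤ C) (K L : ℕ) :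
    |(wA ha).1 K L| ≤ (2 * C + 2) * uu K L := by
  show |1 / 4 * (iv K L - Lw ha ivA * 1) - (g K L - ws 0 1 a * 1)| ≤ _
  obtain ⟨i1, i2⟩ := iv_mean ha
  have i3 := iv_nonneg K L
  have i4 := iv_le K L
  have hg := g_nonneg K L
  obtain ⟨b1, b2⟩ := abs_le.1 h2
  have hCu : 2 * C + 2 + g K L ≤ (2 * C + 2) * uu K L := by
    unfold uu
    nlinarith
  rw [abs_le]
  constructor
  · linarith
  · linarith

theorem four_dA' {a : ℕ → ℝ} (ha : AM a) : (4 : ℝ) • dA a = xc a + wA ha := by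
  rw [four_dA ha]
  unfold wA
  ring

theorem Lw_dA {a : ℕ → ℝ} (ha : AM a) : Lw ha (dA a) = 0 := by
  unfold dA
  rw [map_sub, map_smul, Lw_one, ← mean_T, smul_eq_mul, mul_one, sub_self]

theorem k3_T {a : ℕ → ℝ} (ha : AM a) : k3 (T a) =
    Lw ha h3A + 3 * Lw ha (hvA * dA a) + Lw ha (dA a ^ 3) := by
  have h1 : k3 (T a) = Lw ha (h3A + (3 : ℝ) • (hvA * dA a) + dA a ^ 3) := by
    unfold k3
    rw [((tlaw a ha).2 _ ((PB.id.sub (PB.const _)).pow 3)).2]
    show _ = Ew a (fun K L => h3 K L + 3 * (hv K L * (hm K L - mean (T a) * 1)) +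
      (hm K L - mean (T a) * 1) ^ 3)
    congr 1
    funext K L
    rw [Pool.Agent.Q149.MK.H_cube hyp1]
    ring
  rw [h1, map_add, map_add, map_smul, smul_eq_mul]

theorem sz_iv0 (h8 : 1 ≤ C8) (hS : S ⊆ S8 C8) : Sz S (fun a => Ew a iv) (-2) := by
  refine (of_yui h8 hS (i := 0) (j := 0) (by norm_num) 1 ?_).mono (by norm_num)
  filter_upwards with a
  refine ⟨pb_iv, fun K L => ?_⟩
  rw [abs_of_nonneg (iv_nonneg K L)]
  simp

theorem sz_r (h8 : 1 ≤ C8) (hS : S ⊆ S8 C8) : Sz S (fun a => Ew a (rA a).1) (-2) := by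
  refine (of_yui h8 hS (i := 0) (j := 2) (by norm_num) 6 ?_).mono (by norm_num)
  filter_upwards with a
  refine ⟨(rA a).2, fun K L => ?_⟩
  rw [pow_zero, one_mul]
  exact rA_bound a K L

/-- covariance of the sum and the inverse -/
theorem sz_xi (h8 : 1 ≤ C8) (hS : S ⊆ S8 C8) : Sz S (fun a => Ew a (ivA * xA a).1) (-2) := by
  have h1 : Sz S (fun a => Ew a (xA a * ivA * xA a).1) 0 := by
    refine (of_yui h8 hS (i := 2) (j := 0) (by norm_num) 1 ?_).mono (by norm_num)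
    filter_upwards with a
    refine ⟨(xA a * ivA * xA a).2, fun K L => ?_⟩
    show |X (mean a) K L * iv K L * X (mean a) K L| ≤ _
    have hx : |X (mean a) K L| ≤ yy (mean a) K L := by
      have := uu_ge K L
      unfold yy
      linarith
    have hi := iv_nonneg K L
    rw [abs_mul, abs_mul, abs_of_nonneg hi, pow_zero, mul_one, one_mul]
    calc |X (mean a) K L| * iv K L * |X (mean a) K L| = |X (mean a) K L| ^ 2 * iv K L := by ring
      _ ≤ yy (mean a) K L ^ 2 * iv K L :=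
          mul_le_mul_of_nonneg_right (pow_le_pow_left₀ (abs_nonneg _) hx 2) hi
  have h2 : Sz S (fun a => (ws 1 0 a - Ew a (xA a * ivA * xA a).1) * jj a) (-2) :=
    (((w10_8 h8).sub_set hS).sub h1).mul' (sz_jj S) (by norm_num)
  refine h2.congr ?_
  filter_upwards [ev_ge S 1, jj_mul (S := S)] with a ha hj
  have ham := S8_am (hS ha.1)
  have hr := iv_rel ham (xA a)
  rw [Lw_xA] at hr
  have e : Ew a (ivA * xA a).1 = Lw ham (xA a * ivA) := by rw [mul_comm]; rfl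
  have e2 : Ew a (xA a * ivA * xA a).1 = Lw ham (xA a * ivA * xA a) := rfl
  rw [e, e2]
  linear_combination jj a * hr - Lw ham (xA a * ivA) * hj

/-- covariance of `g` and the inverse -/
theorem sz_gi (h8 : 1 ≤ C8) (hS : S ⊆ S8 C8) : Sz S (fun a => Ew a (gA * ivA).1) (-2) := by
  refine (of_yui h8 hS (i := 0) (j := 1) (by norm_num) 1 ?_).mono (by norm_num)
  filter_upwards with a
  refine ⟨(gA * ivA).2, fun K L => ?_⟩
  show |g K L * iv K L| ≤ _
  have hi := iv_nonneg K L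
  have hg := g_nonneg K L
  rw [abs_of_nonneg (by positivity), pow_zero, one_mul, one_mul, pow_one]
  exact mul_le_mul_of_nonneg_right (by unfold uu; linarith) hi

theorem sz_ii (h8 : 1 ≤ C8) (hS : S ⊆ S8 C8) : Sz S (fun a => Ew a (ivA * ivA).1) (-2) := by
  refine (of_yui h8 hS (i := 0) (j := 0) (by norm_num) 2 ?_).mono (by norm_num)
  filter_upwards with a
  refine ⟨(ivA * ivA).2, fun K L => ?_⟩
  show |iv K L * iv K L| ≤ _
  have hi := iv_nonneg K L
  rw [abs_of_nonneg (by positivity), pow_zero, pow_zero, one_mul, one_mul]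
  exact mul_le_mul_of_nonneg_right (iv_le K L) hi

/-- the second moment of the centred mean -/
theorem d2_eq {a : ℕ → ℝ} (ha : AM a) : 16 * Lw ha (dA a ^ 2) =
    Lw ha (xc a ^ 2) - 2 * Lw ha (xc a * gc a) + Lw ha (gc a ^ 2) +
      1 / 2 * (Lw ha (ivA * xA a) - ws 1 0 a * Lw ha ivA) -
      1 / 2 * (Lw ha (gA * ivA) - ws 0 1 a * Lw ha ivA) +
      1 / 16 * (Lw ha (ivA * ivA) - Lw ha ivA ^ 2) := by
  have h1 : 16 * Lw ha (dA a ^ 2) = Lw ha (((4 : ℝ) • dA a) ^ 2) := by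
    rw [smul_pow, map_smul, smul_eq_mul]
    norm_num
  have e : ((4 : ℝ) • dA a) ^ 2 = xc a ^ 2 - (2 : ℝ) • (xc a * gc a) + gc a ^ 2 +
      (1 / 2 : ℝ) • (xc a * ic ha) - (1 / 2 : ℝ) • (gc a * ic ha) +
      (1 / 16 : ℝ) • (ic ha * ic ha) := by
    rw [four_dA ha]
    apply PBA_ext
    intro K L
    show ((xc a).1 K L - (gc a).1 K L + 1 / 4 * (ic ha).1 K L) ^ 2 =
      (xc a).1 K L ^ 2 - 2 * ((xc a).1 K L * (gc a).1 K L) + (gc a).1 K L ^ 2 +
      1 / 2 * ((xc a).1 K L * (ic ha).1 K L) - 1 / 2 * ((gc a).1 K L * (ic ha).1 K L) +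
      1 / 16 * ((ic ha).1 K L * (ic ha).1 K L)
    ring
  have e1 : xc a * ic ha = ivA * xA a - Lw ha ivA • xA a - ws 1 0 a • ivA +
      (ws 1 0 a * Lw ha ivA) • (1 : PBA) := by
    unfold xc ic
    simp only [Algebra.smul_def, map_mul]
    ring
  have e2 : gc a * ic ha = gA * ivA - Lw ha ivA • gA - ws 0 1 a • ivA +
      (ws 0 1 a * Lw ha ivA) • (1 : PBA) := by
    unfold gc ic
    simp only [Algebra.smul_def, map_mul]
    ring
  have e3 : ic ha * ic ha = ivA * ivA - (2 * Lw ha ivA) • ivA + (Lw ha ivA ^ 2) • (1 : PBA) := by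
    unfold ic
    simp only [Algebra.smul_def, map_mul, map_pow, map_ofNat]
    ring
  rw [h1, e, e1, e2, e3]
  simp only [map_add, map_sub, map_smul, Lw_one, smul_eq_mul, Lw_xA, Lw_gA]
  ring

/-- the mean of the variance -/
theorem hv_eq {a : ℕ → ℝ} (ha : AM a) : 16 * Lw ha hvA = ws 1 0 a + (2 * mean a + 3 / 2) -
    2 * ws 0 1 a + 1 / 2 * Lw ha ivA + Lw ha (rA a) := by
  unfold rA
  simp only [map_add, map_sub, map_smul, Lw_one, smul_eq_mul, Lw_xA, Lw_gA]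
  ring

namespace Rs

/-- the variance of `T a` -/
theorem vrT (h : Rs C8 S) : Sz S (fun a => Q291.MK.vr (T a) - (mean a / 8 + Q291.MK.vr a / 8 + 3 / 32 -
    7 / 32 * (Q291.MK.vr a / mean a) - 7 / 32 * (Q291.MK.k3 a / mean a) +
    11 / 32 * (Q291.MK.vr a / mean a) ^ 2)) (-1) := by
  have s1 : Sz S (fun a => Ew a iv) (-1) := (sz_iv0 h.h8 h.sub).mono (by norm_num)
  have s2 : Sz S (fun a => Ew a (rA a).1) (-1) := (sz_r h.h8 h.sub).mono (by norm_num)
  have s3 : Sz S (fun a => Ew a (ivA * xA a).1) (-1) := (sz_xi h.h8 h.sub).mono (by norm_num)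
  have s4 : Sz S (fun a => Ew a (gA * ivA).1) (-1) := (sz_gi h.h8 h.sub).mono (by norm_num)
  have s5 : Sz S (fun a => Ew a (ivA * ivA).1) (-1) := (sz_ii h.h8 h.sub).mono (by norm_num)
  have s6 : Sz S (fun a => Q237.MK.ws 1 0 a * Ew a iv) (-1) :=
    h.w10'.mul' (sz_iv0 h.h8 h.sub) (by norm_num)
  have s7 : Sz S (fun a => Q237.MK.ws 0 1 a * Ew a iv) (-1) :=
    h.w01'.mul' (sz_iv0 h.h8 h.sub) (by norm_num)
  have s8 : Sz S (fun a => Ew a iv * Ew a iv) (-1) :=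
    (sz_iv0 h.h8 h.sub).mul' (sz_iv0 h.h8 h.sub) (by norm_num)
  have s9 := h.w10.mono (l := -1) (by norm_num)
  have s10 := h.w01.mono (l := -1) (by norm_num)
  refine ((((((((((((s9.sub (s10.cmul 2)).add (s1.cmul (1 / 2))).add s2).add h.c20).sub
    (h.c11.cmul 2)).add h.c02).add (s3.cmul (1 / 2))).sub (s6.cmul (1 / 2))).sub
    (s4.cmul (1 / 2))).add (s7.cmul (1 / 2))).add (s5.cmul (1 / 16))).sub
    (s8.cmul (1 / 16))).cmul (1 / 16) |>.congr ?_
  filter_upwards [h.am] with a ha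
  have e1 := d2_eq ha.1
  have e2 := hv_eq ha.1
  rw [C20_eq, C11_eq, C02_eq] at e1
  have e3 : 16 * Q291.MK.vr (T a) = 16 * Lw ha.1 hvA + 16 * Lw ha.1 (dA a ^ 2) := by
    rw [vr_T ha.1]
    ring
  have e4 : Q291.MK.vr (T a) = 1 / 16 * (16 * Lw ha.1 hvA + 16 * Lw ha.1 (dA a ^ 2)) := by
    linarith
  rw [e4, e1, e2]
  have g1 : Ew a iv = Lw ha.1 ivA := rfl
  have g2 : Ew a (rA a).1 = Lw ha.1 (rA a) := rfl
  have g3 : Ew a (ivA * xA a).1 = Lw ha.1 (ivA * xA a) := rfl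
  have g4 : Ew a (gA * ivA).1 = Lw ha.1 (gA * ivA) := rfl
  have g5 : Ew a (ivA * ivA).1 = Lw ha.1 (ivA * ivA) := rfl
  rw [g1, g2, g3, g4, g5]
  ring

/-- the third cumulant of `T a` -/
theorem k3T (h : Rs C8 S) : Sz S (fun a => Q291.MK.k3 (T a) - (3 / 32 * Q291.MK.vr a +
    Q291.MK.k3 a / 32)) 1 := by
  obtain ⟨C, hC, hc'⟩ := cst h.h8
  have hc : ∀ᶠ a in FF S, |Q237.MK.ws 1 0 a| ≤ C ∧ |Q237.MK.ws 0 1 a| ≤ C := FF_mono h.sub hc'
  obtain ⟨B, hB⟩ : ∃ B, B = 2 * C + 2 := ⟨_, rfl⟩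
  have hB1 : 1 ≤ B := by linarith
  -- third cumulant of the hypergeometric law
  have s1 : Sz S (fun a => Ew a h3) 1 := by
    refine (of_yu h.h8 h.sub (i := 0) (j := 1) (by norm_num) 3 ?_).mono (by norm_num)
    filter_upwards with a
    refine ⟨Pool.Agent.Q149.MK.pb_h3, fun K L => ?_⟩
    refine (Pool.Agent.Q149.MK.h3_bound K L).trans (le_of_eq ?_)
    unfold uu g Pool.Agent.Q149.MK.gg
    ring
  -- the terms of the covariance
  have s2 : Sz S (fun a => Ew a (fun K L => (2 * g K L - 1 / 2 * iv K L) *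
      (4 * (hm K L - mean (T a) * 1)))) 1 := by
    refine of_yu h.h8 h.sub (i := 1) (j := 1) (by norm_num) (2 * B) ?_
    filter_upwards [hc, h.am] with a hca ha
    refine ⟨(((2 : ℝ) • gA - (1 / 2 : ℝ) • ivA) * (4 : ℝ) • dA a).2, fun K L => ?_⟩
    have f1 : |4 * (hm K L - mean (T a) * 1)| ≤ B * yy (mean a) K L := by
      rw [hB]
      exact (dA_bound ha.1 hC hca.1 hca.2 K L).2
    have f2 : |2 * g K L - 1 / 2 * iv K L| ≤ 2 * uu K L := by
      have i3 := iv_nonneg K L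
      have i4 := iv_le K L
      have hg := g_nonneg K L
      unfold uu
      rw [abs_le]
      constructor
      · linarith
      · linarith
    have hu := uu_ge K L
    rw [abs_mul]
    refine (mul_le_mul f2 f1 (abs_nonneg _) (by positivity)).trans (le_of_eq ?_)
    ring
  have s3 : Sz S (fun a => Ew a (rA a * (4 : ℝ) • dA a).1) 1 := by
    refine of_yu h.h8 h.sub (i := 1) (j := 2) (by norm_num) (12 * B) ?_
    filter_upwards [hc, h.am] with a hca ha
    refine ⟨(rA a * (4 : ℝ) • dA a).2, fun K L => ?_⟩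
    show |(rA a).1 K L * (4 * (hm K L - mean (T a) * 1))| ≤ _
    have f1 : |4 * (hm K L - mean (T a) * 1)| ≤ B * yy (mean a) K L := by
      rw [hB]
      exact (dA_bound ha.1 hC hca.1 hca.2 K L).2
    have hu := uu_ge K L
    have f2 : |(rA a).1 K L| ≤ 12 * uu K L ^ 2 := by
      refine (rA_bound a K L).trans ?_
      have := iv_le K L
      nlinarith [sq_nonneg (uu K L)]
    rw [abs_mul]
    refine (mul_le_mul f2 f1 (abs_nonneg _) (by positivity)).trans (le_of_eq ?_)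
    ring
  -- the second moments
  have s4 : Sz S (fun a => Q237.MK.ws 2 0 a - Q237.MK.ws 1 0 a ^ 2 - 2 * Q291.MK.vr a) 1 := by
    have h1 : Sz S (fun a => Q237.MK.ws 1 0 a * Q237.MK.ws 1 0 a) 1 :=
      h.w10'.mul' h.w10' (by norm_num)
    refine ((h.w20'.mono (l := 1) (by norm_num)).sub h1).congr ?_
    filter_upwards with a
    ring
  have s5 : Sz S (fun a => Q237.MK.ws 1 1 a - Q237.MK.ws 1 0 a * Q237.MK.ws 0 1 a) 1 :=
    (h.ws (p := 1) (q := 1) (by norm_num)).sub (h.w10'.mul' h.w01' (by norm_num))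
  have s6 : Sz S (fun a => Ew a (ivA * xA a).1) 1 := (sz_xi h.h8 h.sub).mono (by norm_num)
  have s7 : Sz S (fun a => Q237.MK.ws 1 0 a * Ew a iv) 1 :=
    h.w10'.mul' (sz_iv0 h.h8 h.sub) (by norm_num)
  -- the third moment
  have s8 : Sz S (fun a => Ew a (fun K L => (X (mean a) K L - Q237.MK.ws 1 0 a * 1) ^ 2 * iv K L)) 1 := by
    refine (of_yui h.h8 h.sub (i := 2) (j := 0) (by norm_num) (B ^ 2) ?_).mono (by norm_num)
    filter_upwards [hc] with a hca
    refine ⟨(((PB2_X _).sub (PB2.const _)).pow 2).mul pb_iv, fun K L => ?_⟩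
    have f1 : |X (mean a) K L - Q237.MK.ws 1 0 a * 1| ≤ B * yy (mean a) K L := by
      rw [hB]
      exact xc_bound a hC hca.1 K L
    have hi := iv_nonneg K L
    rw [abs_mul, abs_pow, abs_of_nonneg hi]
    refine (mul_le_mul_of_nonneg_right (pow_le_pow_left₀ (abs_nonneg _) f1 2) hi).trans
      (le_of_eq ?_)
    ring
  have s9 : Sz S (fun a => (Q237.MK.ws 2 0 a - Q237.MK.ws 1 0 a ^ 2) * Ew a iv) 1 := by
    refine (((h.ws (p := 2) (q := 0) (by norm_num)).sub ((h.w10'.pow 2).mono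
      (by norm_num))).mul' (sz_iv0 h.h8 h.sub) (by norm_num))
  have s10 : Sz S (fun a => Ew a (fun K L => (X (mean a) K L - Q237.MK.ws 1 0 a * 1) *
      (1 / 4 * (iv K L - Ew a iv * 1) - (g K L - Q237.MK.ws 0 1 a * 1)) ^ 2)) 1 := by
    refine of_yu h.h8 h.sub (i := 1) (j := 2) (by norm_num) (B ^ 3) ?_
    filter_upwards [hc, h.am] with a hca ha
    refine ⟨((PB2_X _).sub (PB2.const _)).mul ((((PB2.const _).mul (pb_iv.sub (PB2.const _))).sub
      (PB2_g.sub (PB2.const _))).pow 2), fun K L => ?_⟩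
    have f1 : |X (mean a) K L - Q237.MK.ws 1 0 a * 1| ≤ B * yy (mean a) K L := by
      rw [hB]
      exact xc_bound a hC hca.1 K L
    have f2 : |1 / 4 * (iv K L - Ew a iv * 1) - (g K L - Q237.MK.ws 0 1 a * 1)| ≤ B * uu K L := by
      rw [hB]
      exact wA_bound ha.1 hC hca.2 K L
    have hy := yy_ge1 (mean a) K L
    rw [abs_mul, abs_pow]
    refine (mul_le_mul f1 (pow_le_pow_left₀ (abs_nonneg _) f2 2) (by positivity)
      (by positivity)).trans (le_of_eq ?_)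
    ring
  have s11 : Sz S (fun a => Ew a (fun K L =>
      (1 / 4 * (iv K L - Ew a iv * 1) - (g K L - Q237.MK.ws 0 1 a * 1)) ^ 3)) 1 := by
    refine (of_yu h.h8 h.sub (i := 0) (j := 3) (by norm_num) (B ^ 3) ?_).mono (by norm_num)
    filter_upwards [hc, h.am] with a hca ha
    refine ⟨(((PB2.const _).mul (pb_iv.sub (PB2.const _))).sub
      (PB2_g.sub (PB2.const _))).pow 3, fun K L => ?_⟩
    have f2 : |1 / 4 * (iv K L - Ew a iv * 1) - (g K L - Q237.MK.ws 0 1 a * 1)| ≤ B * uu K L := by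
      rw [hB]
      exact wA_bound ha.1 hC hca.2 K L
    rw [abs_pow, pow_zero, one_mul, ← mul_pow]
    exact pow_le_pow_left₀ (abs_nonneg _) f2 3
  have hcov := (((((s4.sub s5).add (s6.cmul (1 / 4))).sub (s7.cmul (1 / 4))).sub s2).add s3).cmul
    (3 / 64)
  have hcub := (((((h.c30.sub (h.c21.cmul 3)).add (s8.cmul (3 / 4))).sub (s9.cmul (3 / 4))).add
    (s10.cmul 3)).add s11).cmul (1 / 64)
  refine ((s1.add hcov).add hcub).congr ?_
  filter_upwards [h.am] with a ha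
  obtain ⟨ha, -⟩ := ha
  -- the covariance
  have e1 : 64 * Lw ha (hvA * dA a) = Lw ha (xc a ^ 2) - Lw ha (xc a * gc a) +
      1 / 4 * (Lw ha (ivA * xA a) - Q237.MK.ws 1 0 a * Lw ha ivA) -
      Lw ha (((2 : ℝ) • gA - (1 / 2 : ℝ) • ivA) * (4 : ℝ) • dA a) +
      Lw ha (rA a * (4 : ℝ) • dA a) := by
    have f1 : Lw ha ((4 : ℝ) • dA a) = 0 := by rw [map_smul, Lw_dA, smul_zero]
    have f2 : Lw ha (xA a * (4 : ℝ) • dA a) = Lw ha (xc a ^ 2) - Lw ha (xc a * gc a) +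
        1 / 4 * (Lw ha (ivA * xA a) - Q237.MK.ws 1 0 a * Lw ha ivA) := by
      have e : xA a * (4 : ℝ) • dA a = xc a ^ 2 - xc a * gc a + (1 / 4 : ℝ) • (xc a * ic ha) +
          Q237.MK.ws 1 0 a • ((4 : ℝ) • dA a) := by
        have hx : xA a = xc a + Q237.MK.ws 1 0 a • (1 : PBA) := by
          unfold xc
          ring
        rw [hx, add_mul, smul_mul_assoc, one_mul, four_dA ha]
        have : xc a * (xc a - gc a + (1 / 4 : ℝ) • ic ha) = xc a ^ 2 - xc a * gc a +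
            (1 / 4 : ℝ) • (xc a * ic ha) := by
          rw [mul_add, mul_smul_comm]
          ring
        rw [this]
      have e1 : xc a * ic ha = ivA * xA a - Lw ha ivA • xA a - Q237.MK.ws 1 0 a • ivA +
          (Q237.MK.ws 1 0 a * Lw ha ivA) • (1 : PBA) := by
        unfold xc ic
        simp only [Algebra.smul_def, map_mul]
        ring
      rw [e, e1, map_add, map_smul, f1]
      simp only [map_add, map_sub, map_smul, Lw_one, smul_eq_mul, Lw_xA]
      ring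
    have e : (64 : ℝ) • (hvA * dA a) = xA a * (4 : ℝ) • dA a +
        (2 * mean a + 3 / 2) • ((4 : ℝ) • dA a) -
        ((2 : ℝ) • gA - (1 / 2 : ℝ) • ivA) * (4 : ℝ) • dA a + rA a * (4 : ℝ) • dA a := by
      apply PBA_ext
      intro K L
      show 64 * (hv K L * (dA a).1 K L) = (xA a).1 K L * (4 * (dA a).1 K L) +
        (2 * mean a + 3 / 2) * (4 * (dA a).1 K L) -
        (2 * g K L - 1 / 2 * iv K L) * (4 * (dA a).1 K L) +
        (16 * hv K L - ((xA a).1 K L + (2 * mean a + 3 / 2) * 1) + 2 * g K L -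
          1 / 2 * iv K L) * (4 * (dA a).1 K L)
      ring
    have f3 := congrArg (Lw ha) e
    rw [map_smul, smul_eq_mul, map_add, map_sub, map_add, map_smul, f1, f2, smul_zero] at f3
    rw [f3]
    ring
  -- the cube
  have e2 : 64 * Lw ha (dA a ^ 3) = Lw ha (xc a ^ 3) - 3 * Lw ha (xc a ^ 2 * gc a) +
      3 / 4 * (Lw ha (xc a ^ 2 * ivA) - Lw ha ivA * Lw ha (xc a ^ 2)) +
      3 * Lw ha (xc a * wA ha ^ 2) + Lw ha (wA ha ^ 3) := by
    have f1 : 64 * Lw ha (dA a ^ 3) = Lw ha (((4 : ℝ) • dA a) ^ 3) := by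
      rw [smul_pow, map_smul, smul_eq_mul]
      norm_num
    have e : ((4 : ℝ) • dA a) ^ 3 = xc a ^ 3 - (3 : ℝ) • (xc a ^ 2 * gc a) +
        (3 / 4 : ℝ) • (xc a ^ 2 * ivA) - (3 / 4 * Lw ha ivA) • (xc a ^ 2) +
        (3 : ℝ) • (xc a * wA ha ^ 2) + wA ha ^ 3 := by
      rw [four_dA' ha]
      apply PBA_ext
      intro K L
      have hw : (wA ha).1 K L = 1 / 4 * (iv K L - Lw ha ivA * 1) - (gc a).1 K L := rfl
      show ((xc a).1 K L + (wA ha).1 K L) ^ 3 = (xc a).1 K L ^ 3 -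
        3 * ((xc a).1 K L ^ 2 * (gc a).1 K L) + 3 / 4 * ((xc a).1 K L ^ 2 * iv K L) -
        (3 / 4 * Lw ha ivA) * ((xc a).1 K L ^ 2) + 3 * ((xc a).1 K L * (wA ha).1 K L ^ 2) +
        (wA ha).1 K L ^ 3
      linear_combination 3 * (xc a).1 K L ^ 2 * hw
    rw [f1, e]
    simp only [map_add, map_sub, map_smul, smul_eq_mul]
    ring
  have e3 : Q291.MK.k3 (T a) = Lw ha h3A + 3 / 64 * (64 * Lw ha (hvA * dA a)) +
      1 / 64 * (64 * Lw ha (dA a ^ 3)) := by
    rw [k3_T ha]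
    ring
  rw [e3, e1, e2, C20_eq, C11_eq, C30_eq, C21_eq]
  have g1 : Ew a h3 = Lw ha h3A := rfl
  have g2 : Ew a (fun K L => (2 * g K L - 1 / 2 * iv K L) * (4 * (hm K L - mean (T a) * 1))) =
      Lw ha (((2 : ℝ) • gA - (1 / 2 : ℝ) • ivA) * (4 : ℝ) • dA a) := rfl
  have g3 : Ew a (rA a * (4 : ℝ) • dA a).1 = Lw ha (rA a * (4 : ℝ) • dA a) := rfl
  have g6 : Ew a (ivA * xA a).1 = Lw ha (ivA * xA a) := rfl
  have g7 : Ew a iv = Lw ha ivA := rfl
  have g8 : Ew a (fun K L => (X (mean a) K L - Q237.MK.ws 1 0 a * 1) ^ 2 * iv K L) =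
      Lw ha (xc a ^ 2 * ivA) := rfl
  have g10 : Ew a (fun K L => (X (mean a) K L - Q237.MK.ws 1 0 a * 1) *
      (1 / 4 * (iv K L - Ew a iv * 1) - (g K L - Q237.MK.ws 0 1 a * 1)) ^ 2) =
      Lw ha (xc a * wA ha ^ 2) := rfl
  have g11 : Ew a (fun K L =>
      (1 / 4 * (iv K L - Ew a iv * 1) - (g K L - Q237.MK.ws 0 1 a * 1)) ^ 3) =
      Lw ha (wA ha ^ 3) := rfl
  rw [g1, g2, g3, g6, g8, g10, g11, g7]
  ring

end Rs

/-- Job TM2. -/
theorem t_TM2 : P_EX4 → P_EX5 → P_TM2 := by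
  intro hEX _ C3 C8 C12 C4 h3 h8 h12 h4
  have h := rs5 (C3 := C3) (C12 := C12) (C4 := C4) h8
  obtain ⟨D0, M0, hD0, hM0, hx⟩ := hEX C3 C8 C12 C4 h3 h8 h12 h4
  obtain ⟨D1, hD1, h1⟩ := h.vrT.ev
  obtain ⟨D2, hD2, h2⟩ := h.k3T.ev
  obtain ⟨M, hM⟩ := FF_ev.1 (h1.and (h2.and (ev_rr (S5 C3 C8 C12 C4))))
  refine ⟨D0 + D1 + D2, max M M0, by positivity, hM0.trans (le_max_right _ _),
    fun a ha hk hm => ?_⟩
  obtain ⟨b1, b2, hr, -⟩ := hM a ⟨ha, hk⟩ ((le_max_left _ _).trans hm)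
  obtain ⟨x1, x2, x3⟩ := hx a ha hk ((le_max_right _ _).trans hm)
  have hm10 : 10 ≤ mean a := hM0.trans ((le_max_right _ _).trans hm)
  have ham : AM a := ha.toCls.toAM
  have hr0 : 0 < rr a := by linarith
  have i0 : 0 < (rr a)⁻¹ := by positivity
  refine ⟨?_, ?_, ?_⟩
  · have e := four_mean_T ham
    rw [ex_eq ham] at x1
    rw [eg_eq ham] at x2
    have x3' : |Lw ham ivA - 1 / (2 * mean a)| ≤ D0 / (mean a * √(mean a)) := x3
    obtain ⟨u, hu⟩ : ∃ u, u = D0 / (mean a * √(mean a)) := ⟨_, rfl⟩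
    have hu0 : 0 ≤ u := by rw [hu]; positivity
    rw [← hu] at x1 x2 x3'
    have e1 : (D0 + D1 + D2) / (mean a * √(mean a)) = u + (D1 + D2) / (mean a * √(mean a)) := by
      rw [hu]
      ring
    have e2 : 0 ≤ (D1 + D2) / (mean a * √(mean a)) := by positivity
    rw [e1]
    have e3 : mean (T a) = 1 / 4 * (Q237.MK.ws 1 0 a + (2 * mean a - 1 / 2) +
        1 / 4 * Lw ham ivA - Q237.MK.ws 0 1 a) := by linarith
    rw [e3]
    obtain ⟨p1, p2⟩ := abs_le.1 x1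
    obtain ⟨q1, q2⟩ := abs_le.1 x2
    obtain ⟨r1, r2⟩ := abs_le.1 x3'
    have e4 : 1 / (2 * mean a) = 1 / 2 * (1 / mean a) := by
      rw [one_div_mul_one_div]
    rw [e4] at r1 r2
    have k1 : (1 / 8 + 25 / 16 * (vr a / mean a) + 35 / 16 * (k3 a / mean a) -
        25 / 8 * (vr a / mean a) ^ 2) / mean a = 1 / 8 * (1 / mean a) +
        (21 / 16 * (vr a / mean a) + 15 / 16 * (k3 a / mean a) -
          15 / 8 * (vr a / mean a) ^ 2) / mean a -
        (-(1 / 4) * (vr a / mean a) - 5 / 4 * (k3 a / mean a) +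
          5 / 4 * (vr a / mean a) ^ 2) / mean a := by
      ring
    have k2 : 1 / 4 * (1 / 8 + 25 / 16 * (vr a / mean a) + 35 / 16 * (k3 a / mean a) -
        25 / 8 * (vr a / mean a) ^ 2) / mean a = 1 / 4 * ((1 / 8 + 25 / 16 * (vr a / mean a) +
        35 / 16 * (k3 a / mean a) - 25 / 8 * (vr a / mean a) ^ 2) / mean a) := by ring
    rw [k2, k1, abs_le]
    constructor
    · linarith
    · linarith
  · have e1 : (D0 + D1 + D2) / √(mean a) = (D0 + D1 + D2) * (rr a)⁻¹ := div_eq_mul_inv _ _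
    rw [e1]
    rw [zpow_neg_one] at b1
    refine b1.trans (mul_le_mul_of_nonneg_right ?_ i0.le)
    linarith
  · show _ ≤ (D0 + D1 + D2) * rr a
    rw [zpow_one] at b2
    refine b2.trans (mul_le_mul_of_nonneg_right ?_ hr0.le)
    linarith

end Pool.Agent.Q237.MK
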