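import Pool.Agent.Q291.MK.Stm5

/-!
Project MK: the algebra of polynomially bounded functions and the calculus of sizes.
-/

set_option autoImplicit false

namespace Pool.Agent.Q237.MK

open Pool.Agent.Q291.MK Filter Topology Asymptotics

/-- the algebra of polynomially bounded functions of two variables -/
def PBA : Subalgebra ℝ (ℕ → ℕ → ℝ) where
  carrier := {φ | PB2 φ}
  mul_mem' h h' := h.mul h'
  add_mem' h h' := h.add h'
  algebraMap_mem' c := PB2.const c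

theorem PBA_ext {φ ψ : PBA} (h : ∀ K L, φ.1 K L = ψ.1 K L) : φ = ψ :=
  Subtype.ext (funext fun K => funext fun L => h K L)

/-- expectation over two copies -/
noncomputable def L2 {a : ℕ → ℝ} (ha : AM a) : PBA →ₗ[ℝ] ℝ where
  toFun φ := E2 a φ.1
  map_add' φ ψ := ha.E2_add φ.2 ψ.2
  map_smul' c φ := E2_const_mul c φ.1

/-- weighted expectation over two copies -/
noncomputable def Lw {a : ℕ → ℝ} (ha : AM a) : PBA →ₗ[ℝ] ℝ where
  toFun φ := Ew a φ.1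
  map_add' φ ψ := ha.Ew_add φ.2 ψ.2
  map_smul' c φ := Ew_const_mul c φ.1

theorem L2_mono {a : ℕ → ℝ} (ha : AM a) {φ ψ : PBA} (h : ∀ K L, φ.1 K L ≤ ψ.1 K L) :
    L2 ha φ ≤ L2 ha ψ := ha.E2_mono φ.2 ψ.2 h

theorem Lw_mono {a : ℕ → ℝ} (ha : AM a) {φ ψ : PBA} (h : ∀ K L, φ.1 K L ≤ ψ.1 K L) :
    Lw ha φ ≤ Lw ha ψ := ha.Ew_mono φ.2 ψ.2 h

theorem Lw_abs {a : ℕ → ℝ} (ha : AM a) {φ ψ : PBA} (h : ∀ K L, |φ.1 K L| ≤ ψ.1 K L) :
    |Lw ha φ| ≤ Lw ha ψ :=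
  (ha.abs_Ew_le φ.2).trans (ha.Ew_mono φ.2.abs ψ.2 h)

theorem L2_abs {a : ℕ → ℝ} (ha : AM a) {φ ψ : PBA} (h : ∀ K L, |φ.1 K L| ≤ ψ.1 K L) :
    |L2 ha φ| ≤ L2 ha ψ :=
  (ha.abs_E2_le φ.2).trans (ha.E2_mono φ.2.abs ψ.2 h)

theorem Lw_one {a : ℕ → ℝ} (ha : AM a) : Lw ha 1 = 1 := ha.Ew_const 1

theorem L2_one {a : ℕ → ℝ} (ha : AM a) : L2 ha 1 = 1 := ha.E2_cst 1

theorem Lw_nonneg {a : ℕ → ℝ} (ha : AM a) {φ : PBA} (h : ∀ K L, 0 ≤ φ.1 K L) : 0 ≤ Lw ha φ := by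
  have h1 := Lw_mono ha (φ := 0) (ψ := φ) h
  rwa [map_zero] at h1

/-- Cauchy-Schwarz -/
theorem Lw_cs {a : ℕ → ℝ} (ha : AM a) (φ ψ : PBA) :
    (Lw ha (φ * ψ)) ^ 2 ≤ Lw ha (φ ^ 2) * Lw ha (ψ ^ 2) := by
  have h1 : ∀ t : ℝ, 0 ≤ Lw ha (ψ ^ 2) * (t * t) + 2 * Lw ha (φ * ψ) * t + Lw ha (φ ^ 2) := by
    intro t
    have h2 : 0 ≤ Lw ha ((φ + t • ψ) ^ 2) := Lw_nonneg ha fun K L => sq_nonneg (φ.1 K L + t * ψ.1 K L)
    have h3 : (φ + t • ψ) ^ 2 = φ ^ 2 + (2 * t) • (φ * ψ) + (t * t) • ψ ^ 2 := by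
      apply PBA_ext
      intro K L
      show (φ.1 K L + t * ψ.1 K L) ^ 2 =
        φ.1 K L ^ 2 + (2 * t) * (φ.1 K L * ψ.1 K L) + (t * t) * ψ.1 K L ^ 2
      ring
    rw [h3, map_add, map_add, map_smul, map_smul, smul_eq_mul, smul_eq_mul] at h2
    linarith
  have h4 := discrim_le_zero h1
  unfold discrim at h4
  nlinarith

/-! ### sizes -/

/-- the filter of weak coupling in a set of laws -/
noncomputable def FF (S : Set (ℕ → ℝ)) : Filter (ℕ → ℝ) := comap mean atTop ⊓ 𝓟 S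

theorem FF_ev {S : Set (ℕ → ℝ)} {P : (ℕ → ℝ) → Prop} :
    (∀ᶠ a in FF S, P a) ↔ ∃ M : ℝ, ∀ a ∈ S, M ≤ mean a → P a := by
  unfold FF
  rw [eventually_inf_principal, eventually_comap]
  constructor
  · intro h
    obtain ⟨M, hM⟩ := eventually_atTop.1 h
    exact ⟨M, fun a ha hm => hM (mean a) hm a rfl ha⟩
  · rintro ⟨M, hM⟩
    refine eventually_atTop.2 ⟨M, fun b hb a hab ha => hM a ha ?_⟩
    rw [hab]
    exact hb

theorem FF_mono {S T : Set (ℕ → ℝ)} (h : S ⊆ T) : FF S ≤ FF T :=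
  inf_le_inf_left _ (principal_mono.2 h)

/-- the square root of the mean -/
noncomputable def rr (a : ℕ → ℝ) : ℝ := √(mean a)

theorem ev_ge (S : Set (ℕ → ℝ)) (M : ℝ) : ∀ᶠ a in FF S, a ∈ S ∧ M ≤ mean a :=
  FF_ev.2 ⟨M, fun _ ha hm => ⟨ha, hm⟩⟩

theorem ev_rr (S : Set (ℕ → ℝ)) : ∀ᶠ a in FF S, 1 ≤ rr a ∧ rr a ^ 2 = mean a := by
  filter_upwards [ev_ge S 1] with a ha
  exact ⟨Real.one_le_sqrt.2 ha.2, Real.sq_sqrt (by linarith [ha.2])⟩

/-- the size of a quantity -/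
def Sz (S : Set (ℕ → ℝ)) (f : (ℕ → ℝ) → ℝ) (k : ℤ) : Prop := f =O[FF S] fun a => rr a ^ k

namespace Sz

variable {S : Set (ℕ → ℝ)} {f g : (ℕ → ℝ) → ℝ} {k l : ℤ}

theorem of_le (D : ℝ) (h : ∀ᶠ a in FF S, |f a| ≤ D * rr a ^ k) : Sz S f k := by
  refine IsBigO.of_bound D ?_
  filter_upwards [h, ev_rr S] with a ha hr
  rw [Real.norm_eq_abs, Real.norm_eq_abs, abs_of_pos (show 0 < rr a ^ k from
    zpow_pos (by linarith [hr.1]) k)]
  exact ha

theorem bound (h : Sz S f k) : ∃ D M : ℝ, 0 < D ∧ ∀ a ∈ S, M ≤ mean a → |f a| ≤ D * rr a ^ k := by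
  obtain ⟨D, hD, h1⟩ := h.exists_pos
  obtain ⟨M, hM⟩ := FF_ev.1 (h1.bound.and (ev_rr S))
  refine ⟨D, M, hD, fun a ha hm => ?_⟩
  obtain ⟨h2, h3⟩ := hM a ha hm
  rw [Real.norm_eq_abs, Real.norm_eq_abs, abs_of_pos (show 0 < rr a ^ k from
    zpow_pos (by linarith [h3.1]) k)] at h2
  exact h2

theorem sub_set {T : Set (ℕ → ℝ)} (h : Sz T f k) (hST : S ⊆ T) : Sz S f k :=
  IsBigO.mono h (FF_mono hST)

theorem add (hf : Sz S f k) (hg : Sz S g k) : Sz S (fun a => f a + g a) k := IsBigO.add hf hg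

theorem sub (hf : Sz S f k) (hg : Sz S g k) : Sz S (fun a => f a - g a) k := IsBigO.sub hf hg

theorem neg (hf : Sz S f k) : Sz S (fun a => - f a) k := by
  have := IsBigO.neg_left hf
  exact this

theorem cmul (c : ℝ) (hf : Sz S f k) : Sz S (fun a => c * f a) k := IsBigO.const_mul_left hf c

theorem mono (hf : Sz S f k) (h : k ≤ l) : Sz S f l := by
  refine IsBigO.trans hf (IsBigO.of_bound 1 ?_)
  filter_upwards [ev_rr S] with a ha
  rw [one_mul, Real.norm_eq_abs, Real.norm_eq_abs, abs_of_pos (show 0 < rr a ^ k from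
    zpow_pos (by linarith [ha.1]) k), abs_of_pos (show 0 < rr a ^ l from
    zpow_pos (by linarith [ha.1]) l)]
  exact zpow_le_zpow_right₀ ha.1 h

theorem mul (hf : Sz S f k) (hg : Sz S g l) : Sz S (fun a => f a * g a) (k + l) := by
  refine (IsBigO.mul hf hg).congr' (EventuallyEq.refl _ _) ?_
  filter_upwards [ev_rr S] with a ha
  rw [zpow_add₀ (by linarith [ha.1])]

theorem mul' {m : ℤ} (hf : Sz S f k) (hg : Sz S g l) (h : k + l ≤ m) :
    Sz S (fun a => f a * g a) m := (hf.mul hg).mono h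

theorem congr (hf : Sz S f k) (h : ∀ᶠ a in FF S, g a = f a) : Sz S g k :=
  IsBigO.congr' hf (h.mono fun _ ha => ha.symm) (EventuallyEq.refl _ _)

theorem const (S : Set (ℕ → ℝ)) (c : ℝ) : Sz S (fun _ => c) 0 :=
  of_le |c| (Eventually.of_forall fun a => by simp)

theorem zero (S : Set (ℕ → ℝ)) (k : ℤ) : Sz S (fun _ => 0) k := by
  refine of_le 0 ?_
  filter_upwards with a
  simp

theorem mean (S : Set (ℕ → ℝ)) : Sz S mean 2 := by
  refine of_le 1 ?_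
  filter_upwards [ev_rr S, ev_ge S 0] with a ha hb
  rw [one_mul, abs_of_nonneg hb.2, ← ha.2]
  exact le_of_eq (by norm_cast)

theorem inv (S : Set (ℕ → ℝ)) : Sz S (fun a => 1 / Pool.Agent.Q291.MK.mean a) (-2) := by
  refine of_le 1 ?_
  filter_upwards [ev_rr S, ev_ge S 0] with a ha hb
  rw [one_mul, abs_of_nonneg (by have := hb.2; positivity), ← ha.2, zpow_neg, one_div]
  exact le_of_eq (by norm_cast)

theorem of_abs_le (hf : Sz S f k) (h : ∀ᶠ a in FF S, |g a| ≤ |f a|) : Sz S g k :=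
  IsBigO.trans (IsBigO.of_bound 1 (h.mono fun a ha => by
    rw [one_mul, Real.norm_eq_abs, Real.norm_eq_abs]; exact ha)) hf

theorem abs (hf : Sz S f k) : Sz S (fun a => |f a|) k :=
  hf.of_abs_le (Eventually.of_forall fun a => by rw [abs_abs])

theorem pow (hf : Sz S f k) (n : ℕ) : Sz S (fun a => f a ^ n) (n * k) := by
  induction n with
  | zero =>
    simp only [pow_zero, Nat.cast_zero, zero_mul]
    exact const S 1
  | succ n ih =>
    have h1 := ih.mul hf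
    have e : ((n : ℕ) : ℤ) * k + k = ((n + 1 : ℕ) : ℤ) * k := by push_cast; ring
    rw [e] at h1
    simpa only [pow_succ] using h1

/-- square roots -/
theorem sqrt (hf : Sz S f (2 * k)) : Sz S (fun a => √(f a)) k := by
  obtain ⟨D, M, hD, h⟩ := hf.bound
  refine of_le (√D) ?_
  filter_upwards [FF_ev.2 ⟨M, h⟩, ev_rr S] with a ha hr
  have hr0 : 0 < rr a := by linarith [hr.1]
  rw [abs_of_nonneg (Real.sqrt_nonneg _)]
  have h1 : √(f a) ≤ √(D * rr a ^ (2 * k)) := Real.sqrt_le_sqrt ((le_abs_self _).trans ha)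
  refine h1.trans (le_of_eq ?_)
  rw [Real.sqrt_mul hD.le]
  congr 1
  have h2 : rr a ^ (2 * k) = (rr a ^ k) ^ 2 := by
    rw [← zpow_natCast, ← zpow_mul]
    congr 1
    push_cast
    ring
  rw [h2, Real.sqrt_sq (zpow_pos hr0 k).le]

end Sz

end Pool.Agent.Q237.MK
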