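import Pool.Agent.Q237.MK.Alg
import Pool.Agent.Q61.MK.EXP2
import Pool.Agent.Q150.MK.EXPA
import Pool.Agent.Q150.MK.EXPM
import Pool.Agent.Q280.MK.RHO

/-!
Project MK: sizes of moments, expansion of weighted moments.
-/

set_option autoImplicit false

namespace Pool.Agent.Q237.MK

open Pool.Agent.Q291.MK Pool.Agent.Q61.MK Filter Topology Asymptotics

theorem expm : P_EXPM := Pool.Agent.Q150.MK.t_EXPM
theorem expa : P_EXPA := Pool.Agent.Q150.MK.t_EXPA Pool.Agent.Q280.MK.t_RHO expm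

/-- the class with control of the eighth moment -/
def S8 (C8 : ℝ) : Set (ℕ → ℝ) := {a | ∃ C3, Cls C3 C8 a}

/-- weighted absolute moments -/
noncomputable def wm (p q : ℕ) (a : ℕ → ℝ) : ℝ :=
  Ew a (fun K L => |X (mean a) K L| ^ p * g K L ^ q)
/-- weighted moments -/
noncomputable def ws (p q : ℕ) (a : ℕ → ℝ) : ℝ :=
  Ew a (fun K L => X (mean a) K L ^ p * g K L ^ q)
/-- absolute moments -/
noncomputable def em (p q : ℕ) (a : ℕ → ℝ) : ℝ :=
  E2 a (fun K L => |X (mean a) K L| ^ p * g K L ^ q)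
/-- moments -/
noncomputable def es (p q : ℕ) (a : ℕ → ℝ) : ℝ :=
  E2 a (fun K L => X (mean a) K L ^ p * g K L ^ q)

theorem pb_a (μ : ℝ) (p q : ℕ) : PB2 (fun K L => |X μ K L| ^ p * g K L ^ q) :=
  ((PB2_X μ).abs.pow p).mul (PB2_g.pow q)

theorem pb_s (μ : ℝ) (p q : ℕ) : PB2 (fun K L => X μ K L ^ p * g K L ^ q) :=
  ((PB2_X μ).pow p).mul (PB2_g.pow q)

theorem abs_s (μ : ℝ) (p q K L : ℕ) :
    |X μ K L ^ p * g K L ^ q| = |X μ K L| ^ p * g K L ^ q := by
  rw [abs_mul, abs_pow, abs_pow, abs_of_nonneg (g_nonneg K L)]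

theorem es_abs {a : ℕ → ℝ} (ha : AM a) (p q : ℕ) : |es p q a| ≤ em p q a := by
  refine (ha.abs_E2_le (pb_s _ p q)).trans (le_of_eq ?_)
  unfold em
  congr 1
  funext K L
  exact abs_s _ p q K L

theorem ws_abs {a : ℕ → ℝ} (ha : AM a) (p q : ℕ) : |ws p q a| ≤ wm p q a := by
  refine (ha.abs_Ew_le (pb_s _ p q)).trans (le_of_eq ?_)
  unfold wm
  congr 1
  funext K L
  exact abs_s _ p q K L

/-- the data for one law -/
theorem pack (C8 : ℝ) (hC8 : 1 ≤ C8) : ∃ D : ℝ, 1 ≤ D ∧ ∀ a ∈ S8 C8, 10 + 20 * D ≤ mean a →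
    AM a ∧ vr a ≤ mean a ∧ (∀ p q : ℕ, p + 2 * q ≤ 8 → em p q a ≤ D * rr a ^ p) ∧
    (∀ p q : ℕ, p + 2 * q ≤ 8 → wm p q a ≤ D * rr a ^ p) ∧
    ∃ c0 n0 : ℝ, |c0| ≤ 1 / 20 ∧ |c0| ≤ D / mean a ∧
    ∀ p q : ℕ, p + 2 * q ≤ 5 → |ws p q a * n0 -
        ((1 + c0) * es p q a - 3 / 4 * (es (p + 1) q a / mean a) +
          15 / 32 * (es (p + 2) q a / mean a ^ 2))| ≤ D * rr a ^ p / rr a ^ 3 := by
  obtain ⟨G, hG1, heng⟩ := eng expm expa C8 hC8
  obtain ⟨D, hD⟩ : ∃ D, D = 260 * G + 20 / 19 * (9 / 2 * (260 * G) + 256 * G) + G * (780 * G + 32) :=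
    ⟨_, rfl⟩
  have hG0 : 0 ≤ G := by linarith
  have t1 : 0 ≤ 20 / 19 * (9 / 2 * (260 * G) + 256 * G) := by positivity
  have t2 : 0 ≤ G * (780 * G + 32) := by positivity
  refine ⟨D, by rw [hD]; linarith, ?_⟩
  rintro a ⟨C3, ha⟩ hμD
  have hGD : G ≤ D := by rw [hD]; linarith
  have hμ10 : 10 ≤ mean a := by linarith
  have hμG : 20 * G ≤ mean a := by linarith
  obtain ⟨hmom, htail, Z0, c0, hZ0, hc0, hZ, hexp⟩ := heng C3 a ha hμ10 hμG
  have ham := ha.toAM
  have hμ0 : 0 < mean a := by linarith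
  have hμ1 : 1 ≤ mean a := by linarith
  have hr1 : 1 ≤ rr a := Real.one_le_sqrt.2 hμ1
  have hrr : rr a ^ 2 = mean a := Real.sq_sqrt hμ0.le
  have hr0 : 0 < rr a := by linarith
  have hgm : ∀ p q : ℕ, p + 2 * q ≤ 8 → em p q a ≤ 260 * G * rr a ^ p :=
    g_mom ham hμ1 hr1 hrr hG0 hmom htail
  have hd : G / mean a ≤ 1 / 20 := by
    rw [div_le_iff₀ hμ0]
    linarith
  have hbad : ∀ p q K L : ℕ, (K : ℝ) + L < 3 / 4 * mean a →
      |X (mean a) K L ^ p * g K L ^ q| ≤ (2 * mean a) ^ p * mean a ^ q := by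
    intro p q K L h
    have e1 := g_nonneg K L
    rw [abs_s]
    exact mul_le_mul (pow_le_pow_left₀ (abs_nonneg _) (bad_X h) p)
      (pow_le_pow_left₀ e1 (bad_g h) q) (by positivity) (by positivity)
  refine ⟨ham, ha.vr_le, fun p q h => (hgm p q h).trans ?_, fun p q h => ?_, c0,
    E2 a (fun K L => I (K + L)) / Z0, hc0.trans hd, hc0.trans ?_, fun p q h => ?_⟩
  · exact mul_le_mul_of_nonneg_right (by rw [hD]; linarith) (by positivity)
  · obtain ⟨-, q1⟩ := hexp (fun K L => X (mean a) K L ^ p * g K L ^ q) ((2 * mean a) ^ p * mean a ^ q)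
      (pb_s _ p q) (by positivity) (fun K L h => hbad p q K L h)
    have e1 : (fun K L : ℕ => I (K + L) * |X (mean a) K L ^ p * g K L ^ q|) =
        fun K L => I (K + L) * (|X (mean a) K L| ^ p * g K L ^ q) := by
      funext K L
      rw [abs_s]
    have e2 : (fun K L : ℕ => |X (mean a) K L ^ p * g K L ^ q|) =
        fun K L => |X (mean a) K L| ^ p * g K L ^ q := by
      funext K L
      rw [abs_s]
    rw [e1, e2] at q1
    have e3 : G * ((2 * mean a) ^ p * mean a ^ q) / mean a ^ 6 ≤ 256 * G * rr a ^ p := by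
      have f1 : (2 : ℝ) ^ p ≤ 256 := by
        calc (2 : ℝ) ^ p ≤ 2 ^ 8 := pow_le_pow_right₀ (by norm_num) (by omega)
          _ = 256 := by norm_num
      rw [div_le_iff₀ (by positivity)]
      have f2 : mean a ^ (p + q) ≤ rr a ^ p * mean a ^ 6 := by
        rw [← hrr, ← pow_mul, ← pow_mul, ← pow_add]
        exact pow_le_pow_right₀ hr1 (by omega)
      calc G * ((2 * mean a) ^ p * mean a ^ q) = G * (2 ^ p * mean a ^ (p + q)) := by
            rw [mul_pow, pow_add]
            ring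
        _ ≤ G * (256 * (rr a ^ p * mean a ^ 6)) :=
            mul_le_mul_of_nonneg_left (mul_le_mul f1 f2 (by positivity) (by norm_num)) hG0
        _ = 256 * G * rr a ^ p * mean a ^ 6 := by ring
    have e4 : E2 a (fun K L => I (K + L) * (|X (mean a) K L| ^ p * g K L ^ q)) / Z0 ≤
        9 / 2 * (260 * G * rr a ^ p) + 256 * G * rr a ^ p := by
      refine q1.trans (add_le_add ?_ e3)
      exact mul_le_mul_of_nonneg_left (hgm p q h) (by norm_num)
    have e5 := Ew_up hZ hd hZ0 e4 (by positivity)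
    refine (show wm p q a ≤ _ from e5).trans ?_
    calc 20 / 19 * (9 / 2 * (260 * G * rr a ^ p) + 256 * G * rr a ^ p) =
        (20 / 19 * (9 / 2 * (260 * G) + 256 * G)) * rr a ^ p := by ring
      _ ≤ D * rr a ^ p := mul_le_mul_of_nonneg_right (by rw [hD]; linarith) (by positivity)
  · exact div_le_div_of_nonneg_right hGD hμ0.le
  · obtain ⟨q1, -⟩ := hexp (fun K L => X (mean a) K L ^ p * g K L ^ q) ((2 * mean a) ^ p * mean a ^ q)
      (pb_s _ p q) (by positivity) (fun K L h => hbad p q K L h)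
    have hZp : 0 < E2 a (fun K L => I (K + L)) := ham.Z_pos
    have e0 : ws p q a * (E2 a (fun K L => I (K + L)) / Z0) =
        E2 a (fun K L => I (K + L) * (X (mean a) K L ^ p * g K L ^ q)) / Z0 := by
      unfold ws Ew
      field_simp
    have e1 : E2 a (fun K L => X (mean a) K L * (X (mean a) K L ^ p * g K L ^ q)) = es (p + 1) q a := by
      unfold es
      congr 1
      funext K L
      ring
    have e2 : E2 a (fun K L => X (mean a) K L ^ 2 * (X (mean a) K L ^ p * g K L ^ q)) =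
        es (p + 2) q a := by
      unfold es
      congr 1
      funext K L
      ring
    have e3 : E2 a (fun K L => |X (mean a) K L ^ p * g K L ^ q| * |X (mean a) K L| ^ 3) =
        em (p + 3) q a := by
      unfold em
      congr 1
      funext K L
      rw [abs_s]
      ring
    have e4 : E2 a (fun K L => |X (mean a) K L ^ p * g K L ^ q| * |X (mean a) K L|) =
        em (p + 1) q a := by
      unfold em
      congr 1
      funext K L
      rw [abs_s]
      ring
    have e5 : E2 a (fun K L => |X (mean a) K L ^ p * g K L ^ q|) = em p q a := by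
      unfold em
      congr 1
      funext K L
      rw [abs_s]
    rw [e1, e2, e3, e4, e5] at q1
    rw [e0]
    refine q1.trans ?_
    have hP : 0 ≤ rr a ^ p := by positivity
    have b1 : em (p + 3) q a / mean a ^ 3 ≤ 260 * G * (rr a ^ p / rr a ^ 3) := by
      rw [div_le_iff₀ (by positivity), ← hrr]
      refine (hgm (p + 3) q (by omega)).trans (le_of_eq ?_)
      field_simp
      ring
    have b2 : em (p + 1) q a / mean a ^ 2 ≤ 260 * G * (rr a ^ p / rr a ^ 3) := by
      rw [div_le_iff₀ (by positivity), ← hrr]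
      refine (hgm (p + 1) q (by omega)).trans (le_of_eq ?_)
      field_simp
      ring
    have b3 : em p q a / mean a ^ 2 ≤ 260 * G * (rr a ^ p / rr a ^ 3) := by
      rw [div_le_iff₀ (by positivity), ← hrr]
      refine (hgm p q (by omega)).trans ?_
      calc 260 * G * rr a ^ p = 260 * G * rr a ^ p * 1 := by ring
        _ ≤ 260 * G * rr a ^ p * rr a := mul_le_mul_of_nonneg_left hr1 (by positivity)
        _ = _ := by
            field_simp
    have b4 : G * ((2 * mean a) ^ p * mean a ^ q) / mean a ^ 6 ≤ G * (32 * (rr a ^ p / rr a ^ 3)) := by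
      have f1 : (2 : ℝ) ^ p ≤ 32 := by
        calc (2 : ℝ) ^ p ≤ 2 ^ 5 := pow_le_pow_right₀ (by norm_num) (by omega)
          _ = 32 := by norm_num
      rw [div_le_iff₀ (by positivity), ← hrr]
      have f2 : (rr a ^ 2) ^ (p + q) ≤ rr a ^ p / rr a ^ 3 * (rr a ^ 2) ^ 6 := by
        rw [div_mul_eq_mul_div, le_div_iff₀ (by positivity), ← pow_mul, ← pow_mul, ← pow_add,
          ← pow_add]
        exact pow_le_pow_right₀ hr1 (by omega)
      calc G * ((2 * rr a ^ 2) ^ p * (rr a ^ 2) ^ q) = G * (2 ^ p * (rr a ^ 2) ^ (p + q)) := by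
            rw [mul_pow, pow_add]
            ring
        _ ≤ G * (32 * (rr a ^ p / rr a ^ 3 * (rr a ^ 2) ^ 6)) :=
            mul_le_mul_of_nonneg_left (mul_le_mul f1 f2 (by positivity) (by norm_num)) hG0
        _ = G * (32 * (rr a ^ p / rr a ^ 3)) * (rr a ^ 2) ^ 6 := by ring
    calc _ ≤ G * (260 * G * (rr a ^ p / rr a ^ 3) + 260 * G * (rr a ^ p / rr a ^ 3) +
          260 * G * (rr a ^ p / rr a ^ 3)) + G * (32 * (rr a ^ p / rr a ^ 3)) :=
          add_le_add (mul_le_mul_of_nonneg_left (add_le_add (add_le_add b1 b2) b3) hG0) b4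
      _ = (G * (780 * G + 32)) * (rr a ^ p / rr a ^ 3) := by ring
      _ ≤ D * (rr a ^ p / rr a ^ 3) :=
          mul_le_mul_of_nonneg_right (by rw [hD]; linarith) (by positivity)
      _ = _ := by ring

end Pool.Agent.Q237.MK
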