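import Pool.Agent.Q237.MK.Eng2

/-!
Project MK: sizes of moments, moments over two independent copies.
-/

set_option autoImplicit false

namespace Pool.Agent.Q237.MK

open Pool.Agent.Q291.MK Pool.Agent.Q61.MK Filter Topology Asymptotics

theorem sz_em {C8 : ℝ} (h8 : 1 ≤ C8) {p q : ℕ} (h : p + 2 * q ≤ 8) : Sz (S8 C8) (em p q) p := by
  obtain ⟨D, hD, hp⟩ := pack C8 h8
  refine Sz.of_le D ?_
  filter_upwards [ev_ge (S8 C8) (10 + 20 * D)] with a ha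
  obtain ⟨ham, -, h1, -⟩ := hp a ha.1 ha.2
  have h2 : 0 ≤ em p q a := (abs_nonneg _).trans (es_abs ham p q)
  rw [abs_of_nonneg h2, zpow_natCast]
  exact h1 p q h

theorem sz_wm {C8 : ℝ} (h8 : 1 ≤ C8) {p q : ℕ} (h : p + 2 * q ≤ 8) : Sz (S8 C8) (wm p q) p := by
  obtain ⟨D, hD, hp⟩ := pack C8 h8
  refine Sz.of_le D ?_
  filter_upwards [ev_ge (S8 C8) (10 + 20 * D)] with a ha
  obtain ⟨ham, -, -, h1, -⟩ := hp a ha.1 ha.2
  have h2 : 0 ≤ wm p q a := (abs_nonneg _).trans (ws_abs ham p q)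
  rw [abs_of_nonneg h2, zpow_natCast]
  exact h1 p q h

theorem S8_am {C8 : ℝ} {a : ℕ → ℝ} (ha : a ∈ S8 C8) : AM a := by
  obtain ⟨C3, ha⟩ := ha
  exact ha.toAM

theorem sz_es {C8 : ℝ} (h8 : 1 ≤ C8) {p q : ℕ} (h : p + 2 * q ≤ 8) : Sz (S8 C8) (es p q) p := by
  refine (sz_em h8 h).of_abs_le ?_
  filter_upwards [ev_ge (S8 C8) 0] with a ha
  exact (es_abs (S8_am ha.1) p q).trans (le_abs_self _)

theorem sz_ws {C8 : ℝ} (h8 : 1 ≤ C8) {p q : ℕ} (h : p + 2 * q ≤ 8) : Sz (S8 C8) (ws p q) p := by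
  refine (sz_wm h8 h).of_abs_le ?_
  filter_upwards [ev_ge (S8 C8) 0] with a ha
  exact (ws_abs (S8_am ha.1) p q).trans (le_abs_self _)

theorem vr_nonneg {a : ℕ → ℝ} (ha : AM a) : 0 ≤ vr a := by
  unfold vr E
  exact tsum_nonneg fun k => mul_nonneg (ha.nn k) (sq_nonneg _)

theorem sz_vr (C8 : ℝ) : Sz (S8 C8) vr 2 := by
  refine (Sz.mean (S8 C8)).of_abs_le ?_
  filter_upwards [ev_ge (S8 C8) 0] with a ha
  obtain ⟨⟨C3, h⟩, h0⟩ := ha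
  rw [abs_of_nonneg (vr_nonneg h.toAM), abs_of_nonneg h0]
  exact h.vr_le

/-- correction of the normalisation -/
noncomputable def tq (a : ℕ → ℝ) : ℝ := 15 / 16 * (vr a * (1 / mean a) * (1 / mean a))

theorem sz_tq (C8 : ℝ) : Sz (S8 C8) tq (-2) := by
  have h := (((sz_vr C8).mul (Sz.inv (S8 C8))).mul (Sz.inv (S8 C8))).cmul (15 / 16)
  exact h.mono (by norm_num)

/-- the expansion of a weighted moment -/
noncomputable def bb (p q : ℕ) (a : ℕ → ℝ) : ℝ :=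
  es p q a - 3 / 4 * (es (p + 1) q a * (1 / mean a)) +
    15 / 32 * (es (p + 2) q a * (1 / mean a) * (1 / mean a))

theorem zp {r : ℝ} (hr : 0 < r) (p k : ℕ) : r ^ ((p : ℤ) - k) = r ^ p / r ^ k := by
  rw [zpow_sub₀ hr.ne', zpow_natCast, zpow_natCast]

theorem ws_one {a : ℕ → ℝ} (ha : AM a) : ws 0 0 a = 1 := by
  have h := ha.Ew_const 1
  unfold ws
  simpa only [pow_zero, mul_one] using h

theorem es_one {a : ℕ → ℝ} (ha : AM a) : es 0 0 a = 1 := by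
  have h := ha.E2_cst 1
  unfold es
  simpa only [pow_zero, mul_one] using h

/-! ### moments over two independent copies -/

/-- the first variable -/
noncomputable def xi (a : ℕ → ℝ) : PBA := ⟨fun K _ => (K : ℝ) - mean a, PB2.fst (PB.id.sub (PB.const _))⟩
/-- the second variable -/
noncomputable def et (a : ℕ → ℝ) : PBA := ⟨fun _ L => (L : ℝ) - mean a, PB2.snd (PB.id.sub (PB.const _))⟩

/-- central moments -/
noncomputable def cm (i : ℕ) (a : ℕ → ℝ) : ℝ := E a (fun k => ((k : ℝ) - mean a) ^ i)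

theorem L2_ij {a : ℕ → ℝ} (ha : AM a) (i j : ℕ) :
    L2 ha (xi a ^ i * et a ^ j) = cm i a * cm j a :=
  ha.E2_mul ((PB.id.sub (PB.const (mean a))).pow i) ((PB.id.sub (PB.const (mean a))).pow j)

theorem cm_zero {a : ℕ → ℝ} (ha : AM a) : cm 0 a = 1 := by
  unfold cm
  simpa only [pow_zero] using ha.toLaw.E_const 1

theorem cm_one {a : ℕ → ℝ} (ha : AM a) : cm 1 a = 0 := by
  unfold cm
  simp only [pow_one]
  rw [ha.E_sub PB.id (PB.const _), ha.toLaw.E_const]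
  unfold mean
  exact sub_self _

theorem cm_two (a : ℕ → ℝ) : cm 2 a = vr a := rfl
theorem cm_three (a : ℕ → ℝ) : cm 3 a = k3 a := rfl
theorem cm_four (a : ℕ → ℝ) : cm 4 a = k4 a + 3 * vr a ^ 2 := by
  unfold cm k4
  ring

theorem es_eq {a : ℕ → ℝ} (ha : AM a) (p : ℕ) : es p 0 a = L2 ha ((xi a + et a) ^ p) := by
  show _ = E2 a (fun K L => (((K : ℝ) - mean a) + ((L : ℝ) - mean a)) ^ p)
  unfold es
  congr 1
  funext K L
  rw [pow_zero, mul_one]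
  unfold X
  congr 1
  ring

theorem es10 {a : ℕ → ℝ} (ha : AM a) : es 1 0 a = 0 := by
  rw [es_eq ha]
  have e : (xi a + et a) ^ 1 = xi a ^ 1 * et a ^ 0 + xi a ^ 0 * et a ^ 1 := by ring
  rw [e, map_add, L2_ij, L2_ij, cm_one ha]
  ring

theorem es20 {a : ℕ → ℝ} (ha : AM a) : es 2 0 a = 2 * vr a := by
  rw [es_eq ha]
  have e : (xi a + et a) ^ 2 = xi a ^ 2 * et a ^ 0 + xi a ^ 1 * et a ^ 1 + xi a ^ 1 * et a ^ 1 +
      xi a ^ 0 * et a ^ 2 := by ring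
  rw [e, map_add, map_add, map_add, L2_ij, L2_ij, L2_ij, cm_one ha, cm_zero ha, cm_two]
  ring

theorem es30 {a : ℕ → ℝ} (ha : AM a) : es 3 0 a = 2 * k3 a := by
  rw [es_eq ha]
  have e : (xi a + et a) ^ 3 = xi a ^ 3 * et a ^ 0 + (3 : ℝ) • (xi a ^ 2 * et a ^ 1) +
      (3 : ℝ) • (xi a ^ 1 * et a ^ 2) + xi a ^ 0 * et a ^ 3 := by
    apply PBA_ext
    intro K L
    show (((K : ℝ) - mean a) + ((L : ℝ) - mean a)) ^ 3 =
      ((K : ℝ) - mean a) ^ 3 * ((L : ℝ) - mean a) ^ 0 +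
      3 * (((K : ℝ) - mean a) ^ 2 * ((L : ℝ) - mean a) ^ 1) +
      3 * (((K : ℝ) - mean a) ^ 1 * ((L : ℝ) - mean a) ^ 2) +
      ((K : ℝ) - mean a) ^ 0 * ((L : ℝ) - mean a) ^ 3
    ring
  rw [e, map_add, map_add, map_add, map_smul, map_smul, L2_ij, L2_ij, L2_ij, L2_ij, cm_one ha,
    cm_zero ha, cm_two, cm_three]
  simp only [smul_eq_mul]
  ring

theorem es40 {a : ℕ → ℝ} (ha : AM a) : es 4 0 a = 12 * vr a ^ 2 + 2 * k4 a := by
  rw [es_eq ha]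
  have e : (xi a + et a) ^ 4 = xi a ^ 4 * et a ^ 0 + (4 : ℝ) • (xi a ^ 3 * et a ^ 1) +
      (6 : ℝ) • (xi a ^ 2 * et a ^ 2) + (4 : ℝ) • (xi a ^ 1 * et a ^ 3) + xi a ^ 0 * et a ^ 4 := by
    apply PBA_ext
    intro K L
    show (((K : ℝ) - mean a) + ((L : ℝ) - mean a)) ^ 4 =
      ((K : ℝ) - mean a) ^ 4 * ((L : ℝ) - mean a) ^ 0 +
      4 * (((K : ℝ) - mean a) ^ 3 * ((L : ℝ) - mean a) ^ 1) +
      6 * (((K : ℝ) - mean a) ^ 2 * ((L : ℝ) - mean a) ^ 2) +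
      4 * (((K : ℝ) - mean a) ^ 1 * ((L : ℝ) - mean a) ^ 3) +
      ((K : ℝ) - mean a) ^ 0 * ((L : ℝ) - mean a) ^ 4
    ring
  rw [e, map_add, map_add, map_add, map_add, map_smul, map_smul, map_smul, L2_ij, L2_ij, L2_ij,
    L2_ij, L2_ij, cm_one ha, cm_zero ha, cm_two, cm_three, cm_four]
  simp only [smul_eq_mul]
  ring

/-- the sum as an element of the algebra -/
noncomputable def xA (a : ℕ → ℝ) : PBA := ⟨X (mean a), PB2_X _⟩
noncomputable def gA : PBA := ⟨g, PB2_g⟩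

theorem xA_eq (a : ℕ → ℝ) : xA a = xi a + et a := by
  apply PBA_ext
  intro K L
  show X (mean a) K L = ((K : ℝ) - mean a) + ((L : ℝ) - mean a)
  unfold X
  ring

theorem es_L2 {a : ℕ → ℝ} (ha : AM a) (p q : ℕ) : es p q a = L2 ha (xA a ^ p * gA ^ q) := rfl
theorem ws_Lw {a : ℕ → ℝ} (ha : AM a) (p q : ℕ) : ws p q a = Lw ha (xA a ^ p * gA ^ q) := rfl

/-- multiplication of `g` by its denominator -/
theorem g_den (a : ℕ → ℝ) : gA * xA a + (2 * mean a + 1 / 2) • gA = (xi a - et a) ^ 2 := by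
  apply PBA_ext
  intro K L
  show g K L * X (mean a) K L + (2 * mean a + 1 / 2) * g K L =
    (((K : ℝ) - mean a) - ((L : ℝ) - mean a)) ^ 2
  unfold g X
  have h : (0 : ℝ) < (K : ℝ) + L + 1 / 2 := by positivity
  field_simp
  ring

theorem es01_rel {a : ℕ → ℝ} (ha : AM a) :
    es 1 1 a + (2 * mean a + 1 / 2) * es 0 1 a = 2 * vr a := by
  rw [es_L2 ha, es_L2 ha]
  have e : xA a ^ 1 * gA ^ 1 + (2 * mean a + 1 / 2) • (xA a ^ 0 * gA ^ 1) =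
      xi a ^ 2 * et a ^ 0 - (xi a ^ 1 * et a ^ 1 + xi a ^ 1 * et a ^ 1) + xi a ^ 0 * et a ^ 2 := by
    have h := g_den a
    rw [show xA a ^ 1 * gA ^ 1 + (2 * mean a + 1 / 2) • (xA a ^ 0 * gA ^ 1) =
      gA * xA a + (2 * mean a + 1 / 2) • gA by rw [pow_one, pow_one, pow_zero, one_mul, mul_comm], h]
    ring
  have h1 : L2 ha (xA a ^ 1 * gA ^ 1) + (2 * mean a + 1 / 2) * L2 ha (xA a ^ 0 * gA ^ 1) =
      L2 ha (xA a ^ 1 * gA ^ 1 + (2 * mean a + 1 / 2) • (xA a ^ 0 * gA ^ 1)) := by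
    rw [map_add, map_smul, smul_eq_mul]
  rw [h1, e, map_add, map_sub, map_add, L2_ij, L2_ij, L2_ij, cm_one ha, cm_zero ha, cm_two]
  ring

theorem es11_rel {a : ℕ → ℝ} (ha : AM a) :
    es 2 1 a + (2 * mean a + 1 / 2) * es 1 1 a = 2 * k3 a := by
  rw [es_L2 ha, es_L2 ha]
  have e : xA a ^ 2 * gA ^ 1 + (2 * mean a + 1 / 2) • (xA a ^ 1 * gA ^ 1) =
      xi a ^ 3 * et a ^ 0 - xi a ^ 2 * et a ^ 1 - xi a ^ 1 * et a ^ 2 + xi a ^ 0 * et a ^ 3 := by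
    have h := g_den a
    rw [show xA a ^ 2 * gA ^ 1 + (2 * mean a + 1 / 2) • (xA a ^ 1 * gA ^ 1) =
      xA a * (gA * xA a + (2 * mean a + 1 / 2) • gA) by
        rw [mul_add, mul_smul_comm]; congr 1
        · ring
        · rw [pow_one, pow_one], h, xA_eq]
    ring
  have h1 : L2 ha (xA a ^ 2 * gA ^ 1) + (2 * mean a + 1 / 2) * L2 ha (xA a ^ 1 * gA ^ 1) =
      L2 ha (xA a ^ 2 * gA ^ 1 + (2 * mean a + 1 / 2) • (xA a ^ 1 * gA ^ 1)) := by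
    rw [map_add, map_smul, smul_eq_mul]
  rw [h1, e, map_add, map_sub, map_sub, L2_ij, L2_ij, L2_ij, L2_ij, cm_one ha, cm_zero ha, cm_two,
    cm_three]
  ring

theorem es21_rel {a : ℕ → ℝ} (ha : AM a) :
    es 3 1 a + (2 * mean a + 1 / 2) * es 2 1 a = 4 * vr a ^ 2 + 2 * k4 a := by
  rw [es_L2 ha, es_L2 ha]
  have e : xA a ^ 3 * gA ^ 1 + (2 * mean a + 1 / 2) • (xA a ^ 2 * gA ^ 1) =
      xi a ^ 4 * et a ^ 0 - (xi a ^ 2 * et a ^ 2 + xi a ^ 2 * et a ^ 2) + xi a ^ 0 * et a ^ 4 := by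
    have h := g_den a
    rw [show xA a ^ 3 * gA ^ 1 + (2 * mean a + 1 / 2) • (xA a ^ 2 * gA ^ 1) =
      xA a ^ 2 * (gA * xA a + (2 * mean a + 1 / 2) • gA) by
        rw [mul_add, mul_smul_comm]; congr 1
        · ring
        · rw [pow_one], h, xA_eq]
    ring
  have h1 : L2 ha (xA a ^ 3 * gA ^ 1) + (2 * mean a + 1 / 2) * L2 ha (xA a ^ 2 * gA ^ 1) =
      L2 ha (xA a ^ 3 * gA ^ 1 + (2 * mean a + 1 / 2) • (xA a ^ 2 * gA ^ 1)) := by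
    rw [map_add, map_smul, smul_eq_mul]
  rw [h1, e, map_add, map_sub, map_add, L2_ij, L2_ij, L2_ij, cm_zero ha, cm_two, cm_four]
  ring

theorem es02_rel {a : ℕ → ℝ} (ha : AM a) :
    es 2 2 a + 2 * (2 * mean a + 1 / 2) * es 1 2 a + (2 * mean a + 1 / 2) ^ 2 * es 0 2 a =
      12 * vr a ^ 2 + 2 * k4 a := by
  rw [es_L2 ha, es_L2 ha, es_L2 ha]
  have e : xA a ^ 2 * gA ^ 2 + (2 * (2 * mean a + 1 / 2)) • (xA a ^ 1 * gA ^ 2) +
      ((2 * mean a + 1 / 2) ^ 2) • (xA a ^ 0 * gA ^ 2) =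
      xi a ^ 4 * et a ^ 0 + (-4 : ℝ) • (xi a ^ 3 * et a ^ 1) +
      (6 : ℝ) • (xi a ^ 2 * et a ^ 2) + (-4 : ℝ) • (xi a ^ 1 * et a ^ 3) + xi a ^ 0 * et a ^ 4 := by
    apply PBA_ext
    intro K L
    show X (mean a) K L ^ 2 * g K L ^ 2 + (2 * (2 * mean a + 1 / 2)) *
        (X (mean a) K L ^ 1 * g K L ^ 2) +
        ((2 * mean a + 1 / 2) ^ 2) * (X (mean a) K L ^ 0 * g K L ^ 2) =
      ((K : ℝ) - mean a) ^ 4 * ((L : ℝ) - mean a) ^ 0 +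
      (-4) * (((K : ℝ) - mean a) ^ 3 * ((L : ℝ) - mean a) ^ 1) +
      6 * (((K : ℝ) - mean a) ^ 2 * ((L : ℝ) - mean a) ^ 2) +
      (-4) * (((K : ℝ) - mean a) ^ 1 * ((L : ℝ) - mean a) ^ 3) +
      ((K : ℝ) - mean a) ^ 0 * ((L : ℝ) - mean a) ^ 4
    unfold g X
    have h : (0 : ℝ) < (K : ℝ) + L + 1 / 2 := by positivity
    field_simp
    ring
  have h1 : L2 ha (xA a ^ 2 * gA ^ 2) + 2 * (2 * mean a + 1 / 2) * L2 ha (xA a ^ 1 * gA ^ 2) +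
      (2 * mean a + 1 / 2) ^ 2 * L2 ha (xA a ^ 0 * gA ^ 2) =
      L2 ha (xA a ^ 2 * gA ^ 2 + (2 * (2 * mean a + 1 / 2)) • (xA a ^ 1 * gA ^ 2) +
      ((2 * mean a + 1 / 2) ^ 2) • (xA a ^ 0 * gA ^ 2)) := by
    rw [map_add, map_add, map_smul, map_smul, smul_eq_mul, smul_eq_mul]
  rw [h1, e, map_add, map_add, map_add, map_add, map_smul, map_smul, map_smul, L2_ij, L2_ij, L2_ij,
    L2_ij, L2_ij, cm_one ha, cm_zero ha, cm_two, cm_three, cm_four]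
  simp only [smul_eq_mul]
  ring

end Pool.Agent.Q237.MK
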