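import Pool.Agent.Q237.MK.Eng3

/-!
Project MK: expansion of weighted moments.
-/

set_option autoImplicit false

namespace Pool.Agent.Q237.MK

open Pool.Agent.Q291.MK Pool.Agent.Q61.MK Filter Topology Asymptotics

/-- algebra behind the expansion -/
theorem dd_arith {r D w e0 e1 e2 n0 c0 V : ℝ} {p : ℕ} (hr : 1 ≤ r) (hD : 1 ≤ D)
    (hw : |w| ≤ D * r ^ p) (h1 : |e1| ≤ D * r ^ (p + 1)) (h2 : |e2| ≤ D * r ^ (p + 2))
    (hV0 : 0 ≤ V) (hV : V ≤ r ^ 2) (hc : |c0| ≤ 1 / 20) (hc' : |c0| ≤ D / r ^ 2)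
    (ha : |w * n0 - ((1 + c0) * e0 - 3 / 4 * (e1 / r ^ 2) + 15 / 32 * (e2 / (r ^ 2) ^ 2))| ≤
      D * r ^ p / r ^ 3)
    (hb : |1 * n0 - ((1 + c0) * 1 - 3 / 4 * (0 / r ^ 2) + 15 / 32 * (2 * V / (r ^ 2) ^ 2))| ≤
      D * 1 / r ^ 3) :
    |w * (1 + 15 / 16 * (V * (1 / r ^ 2) * (1 / r ^ 2))) -
      (e0 - 3 / 4 * (e1 * (1 / r ^ 2)) + 15 / 32 * (e2 * (1 / r ^ 2) * (1 / r ^ 2)))| ≤
      (2 * (D + 5 * D ^ 2)) * (r ^ p / r ^ 3) := by
  have hr0 : 0 < r := by linarith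
  obtain ⟨Q, hQ⟩ : ∃ Q, Q = r ^ p / r ^ 3 := ⟨_, rfl⟩
  have hQ0 : 0 < Q := by rw [hQ]; positivity
  obtain ⟨t, ht⟩ : ∃ t, t = 15 / 16 * (V * (1 / r ^ 2) * (1 / r ^ 2)) := ⟨_, rfl⟩
  obtain ⟨G, hG⟩ : ∃ G, G = w * (1 + t) -
      (e0 - 3 / 4 * (e1 * (1 / r ^ 2)) + 15 / 32 * (e2 * (1 / r ^ 2) * (1 / r ^ 2))) := ⟨_, rfl⟩
  rw [← ht, ← hG, ← hQ]
  have key : (1 + c0) * G = (w * n0 - ((1 + c0) * e0 - 3 / 4 * (e1 / r ^ 2) +
      15 / 32 * (e2 / (r ^ 2) ^ 2))) -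
      w * (1 * n0 - ((1 + c0) * 1 - 3 / 4 * (0 / r ^ 2) + 15 / 32 * (2 * V / (r ^ 2) ^ 2))) +
      w * (c0 * t) + c0 * (3 / 4 * (e1 / r ^ 2) - 15 / 32 * (e2 / (r ^ 2) ^ 2)) := by
    rw [hG, ht]
    field_simp
    ring
  have hD0 : 0 < D := by linarith
  have t0 : 0 ≤ t := by rw [ht]; positivity
  have t1 : t ≤ 1 / r ^ 2 := by
    have : V * (1 / r ^ 2) ≤ 1 := by
      rw [mul_one_div, div_le_one (by positivity)]
      exact hV
    have h3 : V * (1 / r ^ 2) * (1 / r ^ 2) ≤ 1 * (1 / r ^ 2) :=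
      mul_le_mul_of_nonneg_right this (by positivity)
    have h4 : 0 ≤ 1 / r ^ 2 := by positivity
    rw [ht]
    nlinarith [mul_nonneg hV0 (mul_nonneg h4 h4)]
  have a1 : D * r ^ p / r ^ 3 = D * Q := by rw [hQ]; ring
  have a2 : |w * (1 * n0 - ((1 + c0) * 1 - 3 / 4 * (0 / r ^ 2) +
      15 / 32 * (2 * V / (r ^ 2) ^ 2)))| ≤ D ^ 2 * Q := by
    rw [abs_mul]
    refine (mul_le_mul hw hb (abs_nonneg _) (by positivity)).trans (le_of_eq ?_)
    rw [hQ]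
    ring
  have a3 : |w * (c0 * t)| ≤ D ^ 2 * Q := by
    rw [abs_mul, abs_mul, abs_of_nonneg t0]
    refine (mul_le_mul hw (mul_le_mul hc' t1 t0 (by positivity)) (by positivity)
      (by positivity)).trans ?_
    have e : D * r ^ p * (D / r ^ 2 * (1 / r ^ 2)) = D ^ 2 * (r ^ p / r ^ 4) := by
      field_simp
    rw [e, hQ]
    refine mul_le_mul_of_nonneg_left ?_ (by positivity)
    refine div_le_div_of_nonneg_left (by positivity) (by positivity) ?_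
    exact pow_le_pow_right₀ hr (by norm_num)
  have a4 : |c0 * (3 / 4 * (e1 / r ^ 2) - 15 / 32 * (e2 / (r ^ 2) ^ 2))| ≤ 2 * D ^ 2 * Q := by
    rw [abs_mul]
    have f1 : |e1 / r ^ 2| ≤ D * r ^ (p + 1) / r ^ 2 := by
      rw [abs_div, abs_of_pos (show 0 < r ^ 2 by positivity)]
      exact div_le_div_of_nonneg_right h1 (by positivity)
    have f2 : |e2 / (r ^ 2) ^ 2| ≤ D * r ^ (p + 2) / (r ^ 2) ^ 2 := by
      rw [abs_div, abs_of_pos (show 0 < (r ^ 2) ^ 2 by positivity)]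
      exact div_le_div_of_nonneg_right h2 (by positivity)
    have f3 : |3 / 4 * (e1 / r ^ 2) - 15 / 32 * (e2 / (r ^ 2) ^ 2)| ≤
        3 / 4 * (D * r ^ (p + 1) / r ^ 2) + 15 / 32 * (D * r ^ (p + 2) / (r ^ 2) ^ 2) := by
      refine (abs_sub _ _).trans (add_le_add ?_ ?_)
      · rw [abs_mul, abs_of_pos (show (0 : ℝ) < 3 / 4 by norm_num)]
        exact mul_le_mul_of_nonneg_left f1 (by norm_num)
      · rw [abs_mul, abs_of_pos (show (0 : ℝ) < 15 / 32 by norm_num)]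
        exact mul_le_mul_of_nonneg_left f2 (by norm_num)
    have f4 : D * r ^ (p + 2) / (r ^ 2) ^ 2 ≤ D * r ^ (p + 1) / r ^ 2 := by
      rw [div_le_div_iff₀ (by positivity) (by positivity)]
      calc D * r ^ (p + 2) * r ^ 2 = D * r ^ (p + 4) := by ring
        _ ≤ D * r ^ (p + 5) := mul_le_mul_of_nonneg_left (pow_le_pow_right₀ hr (by omega)) hD0.le
        _ = D * r ^ (p + 1) * (r ^ 2) ^ 2 := by ring
    have f5 : 0 ≤ D * r ^ (p + 1) / r ^ 2 := by positivity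
    have f6 : |3 / 4 * (e1 / r ^ 2) - 15 / 32 * (e2 / (r ^ 2) ^ 2)| ≤
        2 * (D * r ^ (p + 1) / r ^ 2) := by linarith
    refine (mul_le_mul hc' f6 (abs_nonneg _) (by positivity)).trans (le_of_eq ?_)
    rw [hQ]
    field_simp
    ring
  have a5 : |(1 + c0) * G| ≤ (D + 4 * D ^ 2) * Q := by
    rw [key]
    refine (abs_add_le _ _).trans ?_
    have b1 := abs_add_le ((w * n0 - ((1 + c0) * e0 - 3 / 4 * (e1 / r ^ 2) +
      15 / 32 * (e2 / (r ^ 2) ^ 2))) -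
      w * (1 * n0 - ((1 + c0) * 1 - 3 / 4 * (0 / r ^ 2) + 15 / 32 * (2 * V / (r ^ 2) ^ 2))))
      (w * (c0 * t))
    have b2 := abs_sub (w * n0 - ((1 + c0) * e0 - 3 / 4 * (e1 / r ^ 2) +
      15 / 32 * (e2 / (r ^ 2) ^ 2)))
      (w * (1 * n0 - ((1 + c0) * 1 - 3 / 4 * (0 / r ^ 2) + 15 / 32 * (2 * V / (r ^ 2) ^ 2))))
    rw [a1] at ha
    linarith
  rw [abs_mul] at a5
  have a6 : 19 / 20 ≤ |1 + c0| := by
    have := (abs_le.1 hc).1
    rw [abs_of_pos (by linarith)]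
    linarith
  have hG0 := abs_nonneg G
  have a7 : 19 / 20 * |G| ≤ (D + 4 * D ^ 2) * Q :=
    (mul_le_mul_of_nonneg_right a6 hG0).trans a5
  have a8 : 0 ≤ D ^ 2 * Q := by positivity
  have a9 : 0 ≤ D * Q := by positivity
  nlinarith

theorem dd {C8 : ℝ} (h8 : 1 ≤ C8) {p q : ℕ} (h : p + 2 * q ≤ 5) :
    Sz (S8 C8) (fun a => ws p q a * (1 + tq a) - bb p q a) ((p : ℤ) - (3 : ℕ)) := by
  obtain ⟨D, hD, hp⟩ := pack C8 h8
  refine Sz.of_le (2 * (D + 5 * D ^ 2)) ?_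
  filter_upwards [ev_ge (S8 C8) (10 + 20 * D), ev_rr (S8 C8)] with a ha hr
  obtain ⟨ham, hV, he, hw, c0, n0, hc, hc', hmain⟩ := hp a ha.1 ha.2
  have hr0 : 0 < rr a := by linarith [hr.1]
  have h0 := hmain 0 0 (by norm_num)
  have h1 := hmain p q h
  rw [ws_one ham, es_one ham, es10 ham, es20 ham, pow_zero, ← hr.2] at h0
  rw [← hr.2] at h1 hV hc'
  unfold tq bb
  rw [zp hr0, ← hr.2]
  exact dd_arith hr.1 hD ((ws_abs ham p q).trans (hw p q (by omega)))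
    ((es_abs ham _ _).trans (he _ _ (by omega))) ((es_abs ham _ _).trans (he _ _ (by omega)))
    (vr_nonneg ham) hV hc hc' h1 h0

/-- the inverse of the centre of the denominator -/
noncomputable def jj (a : ℕ → ℝ) : ℝ := 1 / (2 * mean a + 1 / 2)

theorem jj_mul {S : Set (ℕ → ℝ)} : ∀ᶠ a in FF S, (2 * mean a + 1 / 2) * jj a = 1 := by
  filter_upwards [ev_ge S 0] with a ha
  have := ha.2
  unfold jj
  field_simp

theorem sz_jj (S : Set (ℕ → ℝ)) : Sz S jj (-2) := by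
  refine (Sz.inv S).of_abs_le ?_
  filter_upwards [ev_ge S 1] with a ha
  have := ha.2
  unfold jj
  rw [abs_of_pos (by positivity), abs_of_pos (by positivity)]
  exact div_le_div_of_nonneg_left (by norm_num) (by linarith) (by linarith)

theorem sz_jj' (S : Set (ℕ → ℝ)) : Sz S (fun a => jj a - 1 / 2 * (1 / mean a)) (-4) := by
  refine (((sz_jj S).mul (Sz.inv S)).cmul (1 / 4)).of_abs_le ?_ |>.mono (by norm_num)
  filter_upwards [ev_ge S 1] with a ha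
  have := ha.2
  refine le_of_eq ?_
  have e : jj a - 1 / 2 * (1 / mean a) = -(1 / 4 * (jj a * (1 / mean a))) := by
    unfold jj
    field_simp
    ring
  rw [e, abs_neg]

/-- the linear size of the centre of the denominator -/
theorem sz_den (S : Set (ℕ → ℝ)) : Sz S (fun a => 2 * mean a + 1 / 2) 2 :=
  ((Sz.mean S).cmul 2).add ((Sz.const S (1 / 2)).mono (by norm_num))

theorem ev_am (C8 : ℝ) : ∀ᶠ a in FF (S8 C8), AM a ∧ 1 ≤ mean a := by
  filter_upwards [ev_ge (S8 C8) 1] with a ha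
  exact ⟨S8_am ha.1, ha.2⟩

/-- removal of the normalisation -/
theorem sz_div {C8 : ℝ} {f : (ℕ → ℝ) → ℝ} {k : ℤ} (h : Sz (S8 C8) (fun a => f a * (1 + tq a)) k) :
    Sz (S8 C8) f k := by
  refine h.of_abs_le ?_
  filter_upwards [ev_am C8] with a ha
  have h1 : 0 ≤ tq a := by
    have := vr_nonneg ha.1
    have := ha.2
    unfold tq
    positivity
  rw [abs_mul, abs_of_pos (show 0 < 1 + tq a by linarith)]
  nlinarith [abs_nonneg (f a)]

end Pool.Agent.Q237.MK
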