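import Pool.Agent.Q237.MK.Eng4

/-!
Project MK: expansions of the low weighted moments.
-/

set_option autoImplicit false

namespace Pool.Agent.Q237.MK

open Pool.Agent.Q291.MK Pool.Agent.Q61.MK Filter Topology Asymptotics

/-- a regular set of laws -/
structure Rs (C8 : ℝ) (S : Set (ℕ → ℝ)) : Prop where
  sub : S ⊆ S8 C8
  h8 : 1 ≤ C8
  k3 : Sz S k3 2
  k4 : Sz S k4 3

variable {C8 : ℝ} {S : Set (ℕ → ℝ)}

/-- size of a product with three factors -/
theorem Sz.mul3 {f g h : (ℕ → ℝ) → ℝ} {k l m n : ℤ} (hf : Sz S f k) (hg : Sz S g l)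
    (hh : Sz S h m) (hn : k + l + m ≤ n) : Sz S (fun a => f a * g a * h a) n :=
  ((hf.mul hg).mul hh).mono hn

theorem Sz.mul4 {f g h u : (ℕ → ℝ) → ℝ} {k l m o n : ℤ} (hf : Sz S f k) (hg : Sz S g l)
    (hh : Sz S h m) (hu : Sz S u o) (hn : k + l + m + o ≤ n) :
    Sz S (fun a => f a * g a * h a * u a) n :=
  (((hf.mul hg).mul hh).mul hu).mono hn

namespace Rs

theorem am (h : Rs C8 S) : ∀ᶠ a in FF S, AM a ∧ 1 ≤ mean a := by
  filter_upwards [ev_ge S 1] with a ha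
  exact ⟨S8_am (h.sub ha.1), ha.2⟩

theorem vr (h : Rs C8 S) : Sz S vr 2 := (sz_vr C8).sub_set h.sub
theorem tq (h : Rs C8 S) : Sz S tq (-2) := (sz_tq C8).sub_set h.sub
theorem es (h : Rs C8 S) {p q : ℕ} (hpq : p + 2 * q ≤ 8) : Sz S (es p q) p :=
  (sz_es h.h8 hpq).sub_set h.sub
theorem ws (h : Rs C8 S) {p q : ℕ} (hpq : p + 2 * q ≤ 8) : Sz S (ws p q) p :=
  (sz_ws h.h8 hpq).sub_set h.sub
theorem wm (h : Rs C8 S) {p q : ℕ} (hpq : p + 2 * q ≤ 8) : Sz S (wm p q) p :=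
  (sz_wm h.h8 hpq).sub_set h.sub
theorem inv (_ : Rs C8 S) : Sz S (fun a => 1 / mean a) (-2) := Sz.inv S

theorem dd (h : Rs C8 S) {p q : ℕ} (hpq : p + 2 * q ≤ 5) {n : ℤ} (hn : (p : ℤ) - (3 : ℕ) ≤ n) :
    Sz S (fun a => Q237.MK.ws p q a * (1 + Q237.MK.tq a) - bb p q a) n :=
  ((Q237.MK.dd h.h8 hpq).sub_set h.sub).mono hn

theorem e21 (h : Rs C8 S) : Sz S (fun a => Q237.MK.es 2 1 a - 2 * Q291.MK.vr a ^ 2 * (1 / mean a)) 1 := by
  have h1 : Sz S (fun a => Q291.MK.vr a * Q291.MK.vr a * (jj a - 1 / 2 * (1 / mean a))) 1 :=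
    h.vr.mul3 h.vr (sz_jj' S) (by norm_num)
  have h2 : Sz S (fun a => Q291.MK.k4 a * jj a) 1 := h.k4.mul' (sz_jj S) (by norm_num)
  have h3 : Sz S (fun a => Q237.MK.es 3 1 a * jj a) 1 :=
    (h.es (p := 3) (q := 1) (by norm_num)).mul' (sz_jj S) (by norm_num)
  refine (((h1.cmul 4).add (h2.cmul 2)).sub h3).congr ?_
  filter_upwards [h.am, jj_mul (S := S)] with a ha hj
  have hr := es21_rel ha.1
  linear_combination jj a * hr - Q237.MK.es 2 1 a * hj

theorem e11 (h : Rs C8 S) : Sz S (fun a => Q237.MK.es 1 1 a - (Q291.MK.k3 a * (1 / mean a) -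
    Q291.MK.vr a ^ 2 * (1 / mean a) ^ 2)) (-1) := by
  have h1 : Sz S (fun a => Q291.MK.k3 a * (jj a - 1 / 2 * (1 / mean a))) (-1) :=
    h.k3.mul' (sz_jj' S) (by norm_num)
  have h2 : Sz S (fun a => (Q237.MK.es 2 1 a - 2 * Q291.MK.vr a ^ 2 * (1 / mean a)) * jj a) (-1) :=
    h.e21.mul' (sz_jj S) (by norm_num)
  have h3 : Sz S (fun a => Q291.MK.vr a * Q291.MK.vr a * (1 / mean a) *
      (jj a - 1 / 2 * (1 / mean a))) (-1) :=
    h.vr.mul4 h.vr h.inv (sz_jj' S) (by norm_num)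
  refine (((h1.cmul 2).sub h2).sub (h3.cmul 2)).congr ?_
  filter_upwards [h.am, jj_mul (S := S)] with a ha hj
  have hr := es11_rel ha.1
  linear_combination jj a * hr - Q237.MK.es 1 1 a * hj

theorem e11' (h : Rs C8 S) : Sz S (Q237.MK.es 1 1) 0 := by
  have h1 : Sz S (fun a => Q291.MK.k3 a * (1 / mean a)) 0 := h.k3.mul' h.inv (by norm_num)
  have h2 : Sz S (fun a => Q291.MK.vr a * Q291.MK.vr a * (1 / mean a) * (1 / mean a)) 0 :=
    h.vr.mul4 h.vr h.inv h.inv (by norm_num)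
  refine (((h.e11.mono (by norm_num)).add h1).sub h2).congr ?_
  filter_upwards with a
  ring

theorem e01 (h : Rs C8 S) :
    Sz S (fun a => Q237.MK.es 0 1 a - Q291.MK.vr a * (1 / mean a)) (-2) := by
  have h1 : Sz S (fun a => Q291.MK.vr a * (jj a - 1 / 2 * (1 / mean a))) (-2) :=
    h.vr.mul' (sz_jj' S) (by norm_num)
  have h2 : Sz S (fun a => Q237.MK.es 1 1 a * jj a) (-2) := h.e11'.mul' (sz_jj S) (by norm_num)
  refine ((h1.cmul 2).sub h2).congr ?_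
  filter_upwards [h.am, jj_mul (S := S)] with a ha hj
  have hr := es01_rel ha.1
  linear_combination jj a * hr - Q237.MK.es 0 1 a * hj

theorem e02 (h : Rs C8 S) :
    Sz S (fun a => Q237.MK.es 0 2 a - 3 * Q291.MK.vr a ^ 2 * (1 / mean a) ^ 2) (-1) := by
  have h0 : Sz S (fun a => jj a + 1 / 2 * (1 / mean a)) (-2) := (sz_jj S).add (h.inv.cmul (1 / 2))
  have h1 : Sz S (fun a => Q291.MK.vr a * Q291.MK.vr a * (jj a - 1 / 2 * (1 / mean a)) *
      (jj a + 1 / 2 * (1 / mean a))) (-1) := h.vr.mul4 h.vr (sz_jj' S) h0 (by norm_num)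
  have h2 : Sz S (fun a => Q291.MK.k4 a * jj a * jj a) (-1) :=
    h.k4.mul3 (sz_jj S) (sz_jj S) (by norm_num)
  have h3 : Sz S (fun a => Q237.MK.es 1 2 a * jj a) (-1) :=
    (h.es (p := 1) (q := 2) (by norm_num)).mul' (sz_jj S) (by norm_num)
  have h4 : Sz S (fun a => Q237.MK.es 2 2 a * jj a * jj a) (-1) :=
    (h.es (p := 2) (q := 2) (by norm_num)).mul3 (sz_jj S) (sz_jj S) (by norm_num)
  refine (((((h1.cmul 12).add (h2.cmul 2)).sub (h3.cmul 2)).sub h4)).congr ?_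
  filter_upwards [h.am, jj_mul (S := S)] with a ha hj
  have hr := es02_rel ha.1
  have hj2 : (2 * mean a + 1 / 2) ^ 2 * jj a ^ 2 = 1 := by rw [← mul_pow, hj, one_pow]
  linear_combination jj a ^ 2 * hr - Q237.MK.es 0 2 a * hj2 - 2 * Q237.MK.es 1 2 a * jj a * hj

/-! ### weighted moments -/

theorem w10' (h : Rs C8 S) : Sz S (Q237.MK.ws 1 0) 0 := by
  have h1 := h.dd (p := 1) (q := 0) (by norm_num) (n := 0) (by norm_num)
  have h2 : Sz S (fun a => Q291.MK.vr a * (1 / mean a)) 0 := h.vr.mul' h.inv (by norm_num)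
  have h3 : Sz S (fun a => Q291.MK.k3 a * (1 / mean a) * (1 / mean a)) 0 :=
    h.k3.mul3 h.inv h.inv (by norm_num)
  have h4 : Sz S (fun a => Q237.MK.ws 1 0 a * (1 + Q237.MK.tq a)) 0 := by
    refine ((h1.sub (h2.cmul (3 / 2))).add (h3.cmul (15 / 16))).congr ?_
    filter_upwards [h.am] with a ha
    unfold bb
    rw [es10 ha.1, es20 ha.1, es30 ha.1]
    ring
  refine h4.of_abs_le ?_
  filter_upwards [h.am] with a ha
  have h1 : 0 ≤ Q237.MK.tq a := by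
    have := vr_nonneg ha.1
    have := ha.2
    unfold Q237.MK.tq
    positivity
  rw [abs_mul, abs_of_pos (show 0 < 1 + Q237.MK.tq a by linarith)]
  nlinarith [abs_nonneg (Q237.MK.ws 1 0 a)]

theorem w10 (h : Rs C8 S) :
    Sz S (fun a => Q237.MK.ws 1 0 a + 3 / 2 * (Q291.MK.vr a * (1 / mean a))) (-2) := by
  have h1 := h.dd (p := 1) (q := 0) (by norm_num) (n := -2) (by norm_num)
  have h3 : Sz S (fun a => Q291.MK.k3 a * (1 / mean a) * (1 / mean a)) (-2) :=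
    h.k3.mul3 h.inv h.inv (by norm_num)
  have h4 : Sz S (fun a => Q237.MK.tq a * Q237.MK.ws 1 0 a) (-2) := h.tq.mul' h.w10' (by norm_num)
  refine ((h1.add (h3.cmul (15 / 16))).sub h4).congr ?_
  filter_upwards [h.am] with a ha
  unfold bb
  rw [es10 ha.1, es20 ha.1, es30 ha.1]
  ring

theorem w20' (h : Rs C8 S) : Sz S (fun a => Q237.MK.ws 2 0 a - 2 * Q291.MK.vr a) 0 := by
  have h1 := h.dd (p := 2) (q := 0) (by norm_num) (n := 0) (by norm_num)
  have h2 : Sz S (fun a => Q291.MK.k3 a * (1 / mean a)) 0 := h.k3.mul' h.inv (by norm_num)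
  have h3 : Sz S (fun a => Q237.MK.es 4 0 a * (1 / mean a) * (1 / mean a)) 0 :=
    (h.es (p := 4) (q := 0) (by norm_num)).mul3 h.inv h.inv (by norm_num)
  have h4 : Sz S (fun a => Q237.MK.tq a * Q237.MK.ws 2 0 a) 0 :=
    h.tq.mul' (h.ws (p := 2) (q := 0) (by norm_num)) (by norm_num)
  refine (((h1.sub (h2.cmul (3 / 2))).add (h3.cmul (15 / 32))).sub h4).congr ?_
  filter_upwards [h.am] with a ha
  unfold bb
  rw [es20 ha.1, es30 ha.1]
  ring

theorem w20 (h : Rs C8 S) : Sz S (fun a => Q237.MK.ws 2 0 a - (2 * Q291.MK.vr a -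
    3 / 2 * (Q291.MK.k3 a * (1 / mean a)) +
      15 / 4 * (Q291.MK.vr a ^ 2 * (1 / mean a) ^ 2))) (-1) := by
  have h1 := h.dd (p := 2) (q := 0) (by norm_num) (n := -1) (by norm_num)
  have h3 : Sz S (fun a => Q291.MK.k4 a * (1 / mean a) * (1 / mean a)) (-1) :=
    h.k4.mul3 h.inv h.inv (by norm_num)
  have h4 : Sz S (fun a => Q237.MK.tq a * (Q237.MK.ws 2 0 a - 2 * Q291.MK.vr a)) (-1) :=
    h.tq.mul' h.w20' (by norm_num)
  refine ((h1.add (h3.cmul (15 / 16))).sub h4).congr ?_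
  filter_upwards [h.am] with a ha
  unfold bb Q237.MK.tq
  rw [es20 ha.1, es30 ha.1, es40 ha.1]
  ring

theorem w11 (h : Rs C8 S) : Sz S (fun a => Q237.MK.ws 1 1 a - (Q291.MK.k3 a * (1 / mean a) -
    5 / 2 * (Q291.MK.vr a ^ 2 * (1 / mean a) ^ 2))) (-1) := by
  have h1 := h.dd (p := 1) (q := 1) (by norm_num) (n := -1) (by norm_num)
  have h2 : Sz S (fun a => (Q237.MK.es 2 1 a - 2 * Q291.MK.vr a ^ 2 * (1 / mean a)) *
      (1 / mean a)) (-1) := h.e21.mul' h.inv (by norm_num)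
  have h3 : Sz S (fun a => Q237.MK.es 3 1 a * (1 / mean a) * (1 / mean a)) (-1) :=
    (h.es (p := 3) (q := 1) (by norm_num)).mul3 h.inv h.inv (by norm_num)
  have h4 : Sz S (fun a => Q237.MK.tq a * Q237.MK.ws 1 1 a) (-1) :=
    h.tq.mul' (h.ws (p := 1) (q := 1) (by norm_num)) (by norm_num)
  refine ((((h1.add h.e11).sub (h2.cmul (3 / 4))).add (h3.cmul (15 / 32))).sub h4).congr ?_
  filter_upwards [h.am] with a ha
  unfold bb
  ring

theorem w01 (h : Rs C8 S) :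
    Sz S (fun a => Q237.MK.ws 0 1 a - Q291.MK.vr a * (1 / mean a)) (-2) := by
  have h1 := h.dd (p := 0) (q := 1) (by norm_num) (n := -2) (by norm_num)
  have h2 : Sz S (fun a => Q237.MK.es 1 1 a * (1 / mean a)) (-2) := h.e11'.mul' h.inv (by norm_num)
  have h3 : Sz S (fun a => Q237.MK.es 2 1 a * (1 / mean a) * (1 / mean a)) (-2) :=
    (h.es (p := 2) (q := 1) (by norm_num)).mul3 h.inv h.inv (by norm_num)
  have h4 : Sz S (fun a => Q237.MK.tq a * Q237.MK.ws 0 1 a) (-2) :=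
    h.tq.mul' (h.ws (p := 0) (q := 1) (by norm_num)) (by norm_num)
  refine ((((h1.add h.e01).sub (h2.cmul (3 / 4))).add (h3.cmul (15 / 32))).sub h4).congr ?_
  filter_upwards [h.am] with a ha
  unfold bb
  ring

theorem w02 (h : Rs C8 S) :
    Sz S (fun a => Q237.MK.ws 0 2 a - 3 * Q291.MK.vr a ^ 2 * (1 / mean a) ^ 2) (-1) := by
  have h1 := h.dd (p := 0) (q := 2) (by norm_num) (n := -1) (by norm_num)
  have h2 : Sz S (fun a => Q237.MK.es 1 2 a * (1 / mean a)) (-1) :=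
    (h.es (p := 1) (q := 2) (by norm_num)).mul' h.inv (by norm_num)
  have h3 : Sz S (fun a => Q237.MK.es 2 2 a * (1 / mean a) * (1 / mean a)) (-1) :=
    (h.es (p := 2) (q := 2) (by norm_num)).mul3 h.inv h.inv (by norm_num)
  have h4 : Sz S (fun a => Q237.MK.tq a * Q237.MK.ws 0 2 a) (-1) :=
    h.tq.mul' (h.ws (p := 0) (q := 2) (by norm_num)) (by norm_num)
  refine ((((h1.add h.e02).sub (h2.cmul (3 / 4))).add (h3.cmul (15 / 32))).sub h4).congr ?_
  filter_upwards [h.am] with a ha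
  unfold bb
  ring

theorem w30 (h : Rs C8 S) : Sz S (fun a => Q237.MK.ws 3 0 a - (2 * Q291.MK.k3 a -
    9 * (Q291.MK.vr a ^ 2 * (1 / mean a)))) 1 := by
  have h1 := h.dd (p := 3) (q := 0) (by norm_num) (n := 1) (by norm_num)
  have h2 : Sz S (fun a => Q291.MK.k4 a * (1 / mean a)) 1 := h.k4.mul' h.inv (by norm_num)
  have h3 : Sz S (fun a => Q237.MK.es 5 0 a * (1 / mean a) * (1 / mean a)) 1 :=
    (h.es (p := 5) (q := 0) (by norm_num)).mul3 h.inv h.inv (by norm_num)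
  have h4 : Sz S (fun a => Q237.MK.tq a * Q237.MK.ws 3 0 a) 1 :=
    h.tq.mul' (h.ws (p := 3) (q := 0) (by norm_num)) (by norm_num)
  refine (((h1.sub (h2.cmul (3 / 2))).add (h3.cmul (15 / 32))).sub h4).congr ?_
  filter_upwards [h.am] with a ha
  unfold bb
  rw [es30 ha.1, es40 ha.1]
  ring

theorem w21 (h : Rs C8 S) :
    Sz S (fun a => Q237.MK.ws 2 1 a - 2 * Q291.MK.vr a ^ 2 * (1 / mean a)) 1 := by
  have h1 := h.dd (p := 2) (q := 1) (by norm_num) (n := 1) (by norm_num)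
  have h2 : Sz S (fun a => Q237.MK.es 3 1 a * (1 / mean a)) 1 :=
    (h.es (p := 3) (q := 1) (by norm_num)).mul' h.inv (by norm_num)
  have h3 : Sz S (fun a => Q237.MK.es 4 1 a * (1 / mean a) * (1 / mean a)) 1 :=
    (h.es (p := 4) (q := 1) (by norm_num)).mul3 h.inv h.inv (by norm_num)
  have h4 : Sz S (fun a => Q237.MK.tq a * Q237.MK.ws 2 1 a) 1 :=
    h.tq.mul' (h.ws (p := 2) (q := 1) (by norm_num)) (by norm_num)
  refine ((((h1.add h.e21).sub (h2.cmul (3 / 4))).add (h3.cmul (15 / 32))).sub h4).congr ?_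
  filter_upwards [h.am] with a ha
  unfold bb
  ring

end Rs

/-! ### the fourth moment in the large class -/

theorem w20_8 {C8 : ℝ} (h8 : 1 ≤ C8) : Sz (S8 C8) (fun a => ws 2 0 a - 2 * vr a) 1 := by
  have h1 := (dd h8 (p := 2) (q := 0) (by norm_num)).mono (l := 1) (by norm_num)
  have h2 : Sz (S8 C8) (fun a => es 3 0 a * (1 / mean a)) 1 :=
    (sz_es h8 (p := 3) (q := 0) (by norm_num)).mul' (Sz.inv _) (by norm_num)
  have h3 : Sz (S8 C8) (fun a => es 4 0 a * (1 / mean a) * (1 / mean a)) 1 :=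
    (sz_es h8 (p := 4) (q := 0) (by norm_num)).mul3 (Sz.inv _) (Sz.inv _) (by norm_num)
  have h4 : Sz (S8 C8) (fun a => tq a * ws 2 0 a) 1 :=
    (sz_tq C8).mul' (sz_ws h8 (p := 2) (q := 0) (by norm_num)) (by norm_num)
  refine (((h1.sub (h2.cmul (3 / 4))).add (h3.cmul (15 / 32))).sub h4).congr ?_
  filter_upwards [ev_am C8] with a ha
  unfold bb
  rw [es20 ha.1]
  ring

theorem w40_8 {C8 : ℝ} (h8 : 1 ≤ C8) :
    Sz (S8 C8) (fun a => ws 4 0 a - (12 * vr a ^ 2 + 2 * k4 a)) 3 := by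
  have h1 := (dd h8 (p := 4) (q := 0) (by norm_num)).mono (l := 3) (by norm_num)
  have h2 : Sz (S8 C8) (fun a => es 5 0 a * (1 / mean a)) 3 :=
    (sz_es h8 (p := 5) (q := 0) (by norm_num)).mul' (Sz.inv _) (by norm_num)
  have h3 : Sz (S8 C8) (fun a => es 6 0 a * (1 / mean a) * (1 / mean a)) 3 :=
    (sz_es h8 (p := 6) (q := 0) (by norm_num)).mul3 (Sz.inv _) (Sz.inv _) (by norm_num)
  have h4 : Sz (S8 C8) (fun a => tq a * ws 4 0 a) 3 :=
    (sz_tq C8).mul' (sz_ws h8 (p := 4) (q := 0) (by norm_num)) (by norm_num)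
  refine (((h1.sub (h2.cmul (3 / 4))).add (h3.cmul (15 / 32))).sub h4).congr ?_
  filter_upwards [ev_am C8] with a ha
  unfold bb
  rw [es40 ha.1]
  ring

theorem k4_8 {C8 : ℝ} (h8 : 1 ≤ C8) :
    Sz (S8 C8) (fun a => ws 4 0 a - 3 * ws 2 0 a ^ 2 - 2 * k4 a) 3 := by
  have h1 : Sz (S8 C8) (fun a => ws 2 0 a + 2 * vr a) 2 :=
    (sz_ws h8 (p := 2) (q := 0) (by norm_num)).add ((sz_vr C8).cmul 2)
  have h2 : Sz (S8 C8) (fun a => (ws 2 0 a - 2 * vr a) * (ws 2 0 a + 2 * vr a)) 3 :=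
    (w20_8 h8).mul' h1 (by norm_num)
  refine ((w40_8 h8).sub (h2.cmul 3)).congr ?_
  filter_upwards with a
  ring

end Pool.Agent.Q237.MK
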