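import Pool.Agent.Q237.MK.EX5
import Pool.Agent.Q237.MK.HF
import Pool.Agent.Q280.MK.HYP1
import Pool.Agent.Q222.MK.TLAW
import Pool.Agent.Q222.MK.SLAW
import Pool.Agent.Q149.MK.T3
import Pool.Agent.Q284.MK.TM

/-!
Project MK: sizes of functions of the pair, the mean of the hypergeometric law.
-/

set_option autoImplicit false

namespace Pool.Agent.Q237.MK

open Pool.Agent.Q291.MK Pool.Agent.Q61.MK Filter Topology Asymptotics
open Pool.Agent.Q284.MK (iv iv_nonneg iv_le pb_iv four_hm)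

theorem hyp1 : P_HYP1 := Pool.Agent.Q280.MK.t_HYP1
theorem tlaw : P_TLAW := Pool.Agent.Q222.MK.t_TLAW hyp1

variable {C8 : ℝ} {S : Set (ℕ → ℝ)}

noncomputable def uu (K L : ℕ) : ℝ := g K L + 1
noncomputable def yy (μ : ℝ) (K L : ℕ) : ℝ := |X μ K L| + uu K L

theorem pb_uu : PB2 uu := PB2_g.add (PB2.const 1)
theorem pb_yy (μ : ℝ) : PB2 (yy μ) := (PB2_X μ).abs.add pb_uu
theorem uu_ge (K L : ℕ) : 1 ≤ uu K L := by
  have := g_nonneg K L
  unfold uu
  linarith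
theorem yy_ge (μ : ℝ) (K L : ℕ) : uu K L ≤ yy μ K L := by
  have := abs_nonneg (X μ K L)
  unfold yy
  linarith
theorem yy_ge1 (μ : ℝ) (K L : ℕ) : 1 ≤ yy μ K L := (uu_ge K L).trans (yy_ge μ K L)

theorem add_pow_two {x y : ℝ} (hx : 0 ≤ x) (hy : 0 ≤ y) (n : ℕ) :
    (x + y) ^ n ≤ 2 ^ n * (x ^ n + y ^ n) := by
  rcases le_total x y with h | h
  · calc (x + y) ^ n ≤ (2 * y) ^ n := pow_le_pow_left₀ (by linarith) (by linarith) n
      _ = 2 ^ n * (0 + y ^ n) := by rw [mul_pow, zero_add]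
      _ ≤ _ := by
          refine mul_le_mul_of_nonneg_left (add_le_add ?_ le_rfl) (by positivity)
          positivity
  · calc (x + y) ^ n ≤ (2 * x) ^ n := pow_le_pow_left₀ (by linarith) (by linarith) n
      _ = 2 ^ n * (x ^ n + 0) := by rw [mul_pow, add_zero]
      _ ≤ _ := by
          refine mul_le_mul_of_nonneg_left (add_le_add le_rfl ?_) (by positivity)
          positivity

/-- the absolute value of the sum -/
noncomputable def aX (a : ℕ → ℝ) : PBA := ⟨fun K L => |X (mean a) K L|, (PB2_X _).abs⟩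
theorem wm_Lw {a : ℕ → ℝ} (ha : AM a) (p q : ℕ) : wm p q a = Lw ha (aX a ^ p * gA ^ q) := rfl

theorem yu_le {a : ℕ → ℝ} (ha : AM a) (i j : ℕ) :
    |Ew a (fun K L => yy (mean a) K L ^ i * uu K L ^ j)| ≤
      2 ^ i * (2 ^ j * (wm i j a + wm i 0 a) + 2 ^ (i + j) * (wm 0 (i + j) a + wm 0 0 a)) := by
  rw [wm_Lw ha, wm_Lw ha, wm_Lw ha, wm_Lw ha]
  have e : (2 : ℝ) ^ i * (2 ^ j * (Lw ha (aX a ^ i * gA ^ j) + Lw ha (aX a ^ i * gA ^ 0)) +
      2 ^ (i + j) * (Lw ha (aX a ^ 0 * gA ^ (i + j)) + Lw ha (aX a ^ 0 * gA ^ 0))) =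
      Lw ha ((2 : ℝ) ^ i • ((2 : ℝ) ^ j • (aX a ^ i * gA ^ j + aX a ^ i * gA ^ 0) +
        (2 : ℝ) ^ (i + j) • (aX a ^ 0 * gA ^ (i + j) + aX a ^ 0 * gA ^ 0))) := by
    rw [map_smul, map_add, map_smul, map_smul, map_add, map_add]
    rfl
  rw [e]
  refine Lw_abs ha (φ := ⟨fun K L => yy (mean a) K L ^ i * uu K L ^ j,
    ((pb_yy _).pow i).mul (pb_uu.pow j)⟩) fun K L => ?_
  show |yy (mean a) K L ^ i * uu K L ^ j| ≤ (2 : ℝ) ^ i * ((2 : ℝ) ^ j *
    (|X (mean a) K L| ^ i * g K L ^ j + |X (mean a) K L| ^ i * g K L ^ 0) +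
    (2 : ℝ) ^ (i + j) * (|X (mean a) K L| ^ 0 * g K L ^ (i + j) + |X (mean a) K L| ^ 0 * g K L ^ 0))
  have hg := g_nonneg K L
  have hx := abs_nonneg (X (mean a) K L)
  have hu := uu_ge K L
  have hy := yy_ge1 (mean a) K L
  rw [abs_of_nonneg (by positivity)]
  simp only [pow_zero, mul_one, one_mul]
  have h1 : yy (mean a) K L ^ i ≤ 2 ^ i * (|X (mean a) K L| ^ i + uu K L ^ i) :=
    add_pow_two hx (by linarith) i
  have h2 : uu K L ^ j ≤ 2 ^ j * (g K L ^ j + 1) := by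
    have := add_pow_two hg zero_le_one j
    rwa [one_pow] at this
  have h3 : uu K L ^ (i + j) ≤ 2 ^ (i + j) * (g K L ^ (i + j) + 1) := by
    have := add_pow_two hg zero_le_one (i + j)
    rwa [one_pow] at this
  calc yy (mean a) K L ^ i * uu K L ^ j ≤
        (2 ^ i * (|X (mean a) K L| ^ i + uu K L ^ i)) * uu K L ^ j :=
        mul_le_mul_of_nonneg_right h1 (by positivity)
    _ = 2 ^ i * (|X (mean a) K L| ^ i * uu K L ^ j + uu K L ^ (i + j)) := by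
        rw [pow_add]
        ring
    _ ≤ 2 ^ i * (|X (mean a) K L| ^ i * (2 ^ j * (g K L ^ j + 1)) +
          2 ^ (i + j) * (g K L ^ (i + j) + 1)) := by
        refine mul_le_mul_of_nonneg_left (add_le_add ?_ h3) (by positivity)
        exact mul_le_mul_of_nonneg_left h2 (by positivity)
    _ = _ := by ring

theorem sz_yu (h8 : 1 ≤ C8) {i j : ℕ} (h : i + j ≤ 4) :
    Sz (S8 C8) (fun a => Ew a (fun K L => yy (mean a) K L ^ i * uu K L ^ j)) i := by
  have h1 := sz_wm h8 (p := i) (q := j) (by omega)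
  have h2 := sz_wm h8 (p := i) (q := 0) (by omega)
  have h3 := (sz_wm h8 (p := 0) (q := i + j) (by omega)).mono (l := i) (by
    push_cast; exact Int.natCast_nonneg i)
  have h4 := (sz_wm h8 (p := 0) (q := 0) (by omega)).mono (l := i) (by
    push_cast; exact Int.natCast_nonneg i)
  refine ((((h1.add h2).cmul (2 ^ j)).add ((h3.add h4).cmul (2 ^ (i + j)))).cmul (2 ^ i)).of_abs_le ?_
  filter_upwards [ev_am C8] with a ha
  exact (yu_le ha.1 i j).trans (le_abs_self _)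

/-- sizes from pointwise bounds -/
theorem of_yu (h8 : 1 ≤ C8) (hS : S ⊆ S8 C8) {i j : ℕ} (h : i + j ≤ 4)
    {φ : (ℕ → ℝ) → ℕ → ℕ → ℝ} (D : ℝ) (hb : ∀ᶠ a in FF S, PB2 (φ a) ∧
      ∀ K L, |φ a K L| ≤ D * (yy (mean a) K L ^ i * uu K L ^ j)) :
    Sz S (fun a => Ew a (φ a)) i := by
  refine (((sz_yu h8 h).sub_set hS).cmul D).of_abs_le ?_
  filter_upwards [hb, ev_ge S 0] with a ha h0
  have ham := S8_am (hS h0.1)
  have h1 : |Ew a (φ a)| ≤ Lw ham (D • (⟨fun K L => yy (mean a) K L ^ i * uu K L ^ j,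
      ((pb_yy _).pow i).mul (pb_uu.pow j)⟩ : PBA)) :=
    Lw_abs ham (φ := ⟨φ a, ha.1⟩) ha.2
  rw [map_smul] at h1
  exact h1.trans (le_abs_self _)

/-! ### the mean -/

theorem w10_8 (h8 : 1 ≤ C8) : Sz (S8 C8) (ws 1 0) 0 := by
  have h1 := (dd h8 (p := 1) (q := 0) (by norm_num)).mono (l := 0) (by norm_num)
  have h2 : Sz (S8 C8) (fun a => vr a * (1 / mean a)) 0 := (sz_vr C8).mul' (Sz.inv _) (by norm_num)
  have h3 : Sz (S8 C8) (fun a => es 3 0 a * (1 / mean a) * (1 / mean a)) 0 :=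
    (sz_es h8 (p := 3) (q := 0) (by norm_num)).mul3 (Sz.inv _) (Sz.inv _) (by norm_num)
  refine sz_div (((h1.sub (h2.cmul (3 / 2))).add (h3.cmul (15 / 32))).congr ?_)
  filter_upwards [ev_am C8] with a ha
  unfold bb
  rw [es10 ha.1, es20 ha.1]
  ring

/-- the first moments are bounded -/
theorem cst (h8 : 1 ≤ C8) : ∃ C : ℝ, 1 ≤ C ∧ ∀ᶠ a in FF (S8 C8), |ws 1 0 a| ≤ C ∧ |ws 0 1 a| ≤ C := by
  obtain ⟨D1, hD1, h1⟩ := (w10_8 h8).ev
  obtain ⟨D2, hD2, h2⟩ := (sz_ws h8 (p := 0) (q := 1) (by norm_num)).ev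
  refine ⟨1 + D1 + D2, by linarith, ?_⟩
  filter_upwards [h1, h2] with a ha hb
  simp only [zpow_zero, mul_one, Nat.cast_zero] at ha hb
  exact ⟨by linarith, by linarith⟩

noncomputable def ivA : PBA := ⟨iv, pb_iv⟩
noncomputable def hmA : PBA := ⟨hm, Pool.Agent.Q149.MK.pb_hm⟩
noncomputable def hvA : PBA := ⟨hv, Pool.Agent.Q149.MK.pb_hv⟩
noncomputable def h3A : PBA := ⟨h3, Pool.Agent.Q149.MK.pb_h3⟩

/-- the centred mean of the hypergeometric law -/
noncomputable def dA (a : ℕ → ℝ) : PBA := hmA - mean (T a) • (1 : PBA)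

theorem mean_T {a : ℕ → ℝ} (ha : AM a) : mean (T a) = Lw ha hmA :=
  (Pool.Agent.Q284.MK.vr_T hyp1 tlaw ha).1

theorem vr_T {a : ℕ → ℝ} (ha : AM a) : vr (T a) = Lw ha hvA + Lw ha (dA a ^ 2) := by
  have h := (Pool.Agent.Q284.MK.vr_T hyp1 tlaw ha).2.2
  rw [h]
  congr 1
  show _ = Ew a (fun K L => (hm K L - mean (T a) * 1) ^ 2)
  simp only [mul_one]

theorem four_hmA (a : ℕ → ℝ) : (4 : ℝ) • hmA = xA a + (2 * mean a - 1 / 2) • (1 : PBA) +
    (1 / 4 : ℝ) • ivA - gA := by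
  apply PBA_ext
  intro K L
  show 4 * hm K L = X (mean a) K L + (2 * mean a - 1 / 2) * 1 + 1 / 4 * iv K L - g K L
  rw [four_hm (mean a)]
  unfold X g Pool.Agent.Q284.MK.XX Pool.Agent.Q284.MK.gg
  ring

theorem Lw_xA {a : ℕ → ℝ} (ha : AM a) : Lw ha (xA a) = ws 1 0 a := by
  rw [ws_Lw ha, pow_one, pow_zero, mul_one]
theorem Lw_gA {a : ℕ → ℝ} (ha : AM a) : Lw ha gA = ws 0 1 a := by
  rw [ws_Lw ha, pow_one, pow_zero, one_mul]

theorem four_mean_T {a : ℕ → ℝ} (ha : AM a) : 4 * mean (T a) = ws 1 0 a + (2 * mean a - 1 / 2) +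
    1 / 4 * Lw ha ivA - ws 0 1 a := by
  have h := congrArg (Lw ha) (four_hmA a)
  rw [map_smul, map_sub, map_add, map_add, map_smul, map_smul, Lw_one, Lw_xA, Lw_gA,
    ← mean_T ha] at h
  simp only [smul_eq_mul] at h
  linarith

/-- the centred inverse -/
noncomputable def ic {a : ℕ → ℝ} (ha : AM a) : PBA := ivA - Lw ha ivA • (1 : PBA)

theorem four_dA {a : ℕ → ℝ} (ha : AM a) : (4 : ℝ) • dA a = xc a - gc a + (1 / 4 : ℝ) • ic ha := by
  have h1 := four_hmA a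
  have h2 := four_mean_T ha
  unfold dA xc gc ic
  rw [smul_sub, h1, smul_smul, h2]
  simp only [Algebra.smul_def, map_mul, map_add, map_sub, map_neg, map_pow, map_ofNat, map_one]
  ring

theorem iv_mean {a : ℕ → ℝ} (ha : AM a) : 0 ≤ Lw ha ivA ∧ Lw ha ivA ≤ 2 := by
  refine ⟨Lw_nonneg ha iv_nonneg, ?_⟩
  have h := Lw_mono ha (φ := ivA) (ψ := (2 : ℝ) • (1 : PBA)) (fun K L => by
    show iv K L ≤ 2 * 1
    have := iv_le K L
    linarith)
  rw [map_smul, Lw_one, smul_eq_mul] at h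
  linarith

/-- pointwise bounds for the centred mean -/
theorem dA_bound {a : ℕ → ℝ} (ha : AM a) {C : ℝ} (hC : 1 ≤ C) (h1 : |ws 1 0 a| ≤ C)
    (h2 : |ws 0 1 a| ≤ C) (K L : ℕ) :
    |4 * (dA a).1 K L - X (mean a) K L| ≤ (2 * C + 2) * uu K L ∧
      |4 * (dA a).1 K L| ≤ (2 * C + 2) * yy (mean a) K L := by
  have e : 4 * (dA a).1 K L = X (mean a) K L - ws 1 0 a * 1 - (g K L - ws 0 1 a * 1) +
      1 / 4 * (iv K L - Lw ha ivA * 1) :=
    congrFun (congrFun (congrArg Subtype.val (four_dA ha)) K) L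
  have hu := uu_ge K L
  have hg := g_nonneg K L
  obtain ⟨i1, i2⟩ := iv_mean ha
  have i3 := iv_nonneg K L
  have i4 := iv_le K L
  obtain ⟨a1, a2⟩ := abs_le.1 h1
  obtain ⟨b1, b2⟩ := abs_le.1 h2
  have hCu : 2 * C + 2 + g K L ≤ (2 * C + 2) * uu K L := by
    unfold uu
    nlinarith
  have k1 : |4 * (dA a).1 K L - X (mean a) K L| ≤ (2 * C + 2) * uu K L := by
    rw [e, abs_le]
    constructor
    · linarith
    · linarith
  refine ⟨k1, ?_⟩
  have k2 : |4 * (dA a).1 K L| ≤ |4 * (dA a).1 K L - X (mean a) K L| + |X (mean a) K L| := by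
    have := abs_add_le (4 * (dA a).1 K L - X (mean a) K L) (X (mean a) K L)
    rwa [sub_add_cancel] at this
  refine k2.trans ?_
  unfold yy
  have := abs_nonneg (X (mean a) K L)
  nlinarith

/-- pointwise bounds for the centred variance -/
theorem hv_bound {a : ℕ → ℝ} (ha : AM a) {C : ℝ} (hC : 1 ≤ C) (h1 : |ws 1 0 a| ≤ C)
    (h2 : |ws 0 1 a| ≤ C) (K L : ℕ) :
    |hv K L - Lw ha hvA| ≤ (2 * C + 2) * yy (mean a) K L := by
  have h0 : ∀ K L : ℕ, |hv K L - (1 / 16 * X (mean a) K L + 1 / 8 * mean a)| ≤ uu K L := by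
    intro K L
    have := Pool.Agent.Q149.MK.hv_sub K L
    have e : hv K L - (1 / 16 * X (mean a) K L + 1 / 8 * mean a) = hv K L - ((K : ℝ) + L) / 16 := by
      unfold X
      ring
    rw [e]
    refine this.trans (le_of_eq ?_)
    unfold uu g Pool.Agent.Q149.MK.gg
    ring
  have h3 : |Lw ha (hvA - ((1 / 16 : ℝ) • xA a + (1 / 8 * mean a) • (1 : PBA)))| ≤
      Lw ha (gA + 1) := by
    refine Lw_abs ha fun K L => ?_
    have := h0 K L
    show |hv K L - (1 / 16 * X (mean a) K L + 1 / 8 * mean a * 1)| ≤ g K L + 1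
    rw [mul_one]
    exact this
  rw [map_sub, map_add, map_smul, map_smul, map_add, Lw_one, Lw_xA, Lw_gA, smul_eq_mul,
    smul_eq_mul] at h3
  have hu := uu_ge K L
  have hg := g_nonneg K L
  have hX := abs_nonneg (X (mean a) K L)
  have hX1 := le_abs_self (X (mean a) K L)
  have hX2 := neg_abs_le (X (mean a) K L)
  obtain ⟨a1, a2⟩ := abs_le.1 h1
  obtain ⟨b1, b2⟩ := abs_le.1 h2
  obtain ⟨c1, c2⟩ := abs_le.1 h3
  obtain ⟨d1, d2⟩ := abs_le.1 (h0 K L)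
  have hCu : 2 * C + 2 + g K L + |X (mean a) K L| ≤ (2 * C + 2) * yy (mean a) K L := by
    unfold yy uu
    nlinarith
  unfold uu at d1 d2
  rw [abs_le]
  constructor
  · linarith
  · linarith

end Pool.Agent.Q237.MK
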