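import Pool.Agent.Q237.MK.Eng6

/-!
Project MK: sizes with the inverse of the number of draws.
-/

set_option autoImplicit false

namespace Pool.Agent.Q237.MK

open Pool.Agent.Q291.MK Pool.Agent.Q61.MK Filter Topology Asymptotics
open Pool.Agent.Q284.MK (iv iv_nonneg iv_le pb_iv four_hm)

variable {C8 : ℝ} {S : Set (ℕ → ℝ)}

/-- the inverse times its denominator -/
theorem iv_den (a : ℕ → ℝ) : ivA * xA a + (2 * mean a + 1 / 2) • ivA = 1 := by
  apply PBA_ext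
  intro K L
  show iv K L * X (mean a) K L + (2 * mean a + 1 / 2) * iv K L = 1
  unfold iv X
  have h : (0 : ℝ) < (K : ℝ) + L + 1 / 2 := by positivity
  field_simp
  ring

theorem iv_rel {a : ℕ → ℝ} (ha : AM a) (φ : PBA) :
    (2 * mean a + 1 / 2) * Lw ha (φ * ivA) = Lw ha φ - Lw ha (φ * ivA * xA a) := by
  have e : φ = φ * ivA * xA a + (2 * mean a + 1 / 2) • (φ * ivA) := by
    have h := iv_den a
    calc φ = φ * (ivA * xA a + (2 * mean a + 1 / 2) • ivA) := by rw [h, mul_one]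
      _ = _ := by
          rw [mul_add, mul_smul_comm]
          ring
  have h2 : Lw ha φ = Lw ha (φ * ivA * xA a) + (2 * mean a + 1 / 2) * Lw ha (φ * ivA) := by
    conv_lhs => rw [e]
    rw [map_add, map_smul, smul_eq_mul]
  linarith

/-- the functions `y` and `u` in the algebra -/
noncomputable def yA (a : ℕ → ℝ) : PBA := ⟨yy (mean a), pb_yy _⟩
noncomputable def uA : PBA := ⟨uu, pb_uu⟩

theorem sz_yuA (h8 : 1 ≤ C8) {i j : ℕ} (h : i + j ≤ 4) :
    Sz (S8 C8) (fun a => Ew a (yA a ^ i * uA ^ j).1) i := sz_yu h8 h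

/-- first bound -/
theorem sz_iv1 (h8 : 1 ≤ C8) {i j : ℕ} (h : i + 1 + j ≤ 4) :
    Sz (S8 C8) (fun a => Ew a (yA a ^ i * uA ^ j * ivA).1) ((i : ℤ) - 1) := by
  have h1 : Sz (S8 C8) (fun a => (Ew a (yA a ^ i * uA ^ j).1 +
      2 * Ew a (yA a ^ (i + 1) * uA ^ j).1) * (1 / mean a)) ((i : ℤ) - 1) := by
    refine ((((sz_yuA h8 (i := i) (j := j) (by omega)).mono ?_).add
      ((sz_yuA h8 (i := i + 1) (j := j) h).cmul 2)).mul' (Sz.inv _) (le_of_eq ?_))
    · push_cast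
      linarith
    · push_cast
      ring
  refine h1.of_abs_le ?_
  filter_upwards [ev_am C8] with a ha
  obtain ⟨ha, hm⟩ := ha
  have e := iv_rel ha (yA a ^ i * uA ^ j)
  have p0 : ∀ K L : ℕ, 0 ≤ yy (mean a) K L ^ i * uu K L ^ j := fun K L => by
    have := yy_ge1 (mean a) K L
    have := uu_ge K L
    positivity
  have k1 : 0 ≤ Lw ha (yA a ^ i * uA ^ j * ivA) := Lw_nonneg ha fun K L =>
    mul_nonneg (p0 K L) (iv_nonneg K L)
  have k2 : |Lw ha (yA a ^ i * uA ^ j * ivA * xA a)| ≤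
      Lw ha ((2 : ℝ) • (yA a ^ (i + 1) * uA ^ j)) := by
    refine Lw_abs ha fun K L => ?_
    show |yy (mean a) K L ^ i * uu K L ^ j * iv K L * X (mean a) K L| ≤
      2 * (yy (mean a) K L ^ (i + 1) * uu K L ^ j)
    rw [abs_mul, abs_mul, abs_of_nonneg (p0 K L), abs_of_nonneg (iv_nonneg K L)]
    have q1 : |X (mean a) K L| ≤ yy (mean a) K L := by
      have := uu_ge K L
      unfold yy
      linarith
    have q2 : yy (mean a) K L ^ i * uu K L ^ j * iv K L ≤ yy (mean a) K L ^ i * uu K L ^ j * 2 :=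
      mul_le_mul_of_nonneg_left (iv_le K L) (p0 K L)
    refine (mul_le_mul q2 q1 (abs_nonneg _) (by have := p0 K L; positivity)).trans (le_of_eq ?_)
    ring
  rw [map_smul, smul_eq_mul] at k2
  have k3 : 0 ≤ Lw ha (yA a ^ i * uA ^ j) := Lw_nonneg ha p0
  have k4 : (2 * mean a + 1 / 2) * Lw ha (yA a ^ i * uA ^ j * ivA) ≤
      Lw ha (yA a ^ i * uA ^ j) + 2 * Lw ha (yA a ^ (i + 1) * uA ^ j) := by
    have := (abs_le.1 k2).1
    linarith
  have k5 : mean a * Lw ha (yA a ^ i * uA ^ j * ivA) ≤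
      Lw ha (yA a ^ i * uA ^ j) + 2 * Lw ha (yA a ^ (i + 1) * uA ^ j) := by
    nlinarith
  have k6 : Lw ha (yA a ^ i * uA ^ j * ivA) ≤
      (Lw ha (yA a ^ i * uA ^ j) + 2 * Lw ha (yA a ^ (i + 1) * uA ^ j)) * (1 / mean a) := by
    rw [mul_one_div, le_div_iff₀ (by linarith)]
    linarith
  show |Lw ha (yA a ^ i * uA ^ j * ivA)| ≤ |_|
  rw [abs_of_nonneg k1]
  exact k6.trans (le_abs_self _)

/-- second bound -/
theorem sz_iv2 (h8 : 1 ≤ C8) {i j : ℕ} (h : i + 2 + j ≤ 4) :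
    Sz (S8 C8) (fun a => Ew a (yA a ^ i * uA ^ j * ivA).1) ((i : ℤ) - 2) := by
  have h1 : Sz (S8 C8) (fun a => (Ew a (yA a ^ i * uA ^ j).1 +
      Ew a (yA a ^ (i + 1) * uA ^ j * ivA).1) * (1 / mean a)) ((i : ℤ) - 2) := by
    refine ((((sz_yuA h8 (i := i) (j := j) (by omega)).add
      ((sz_iv1 h8 (i := i + 1) (j := j) (by omega)).mono (le_of_eq ?_))).mul' (Sz.inv _)
      (le_of_eq ?_)))
    · push_cast
      ring
    · ring
  refine h1.of_abs_le ?_
  filter_upwards [ev_am C8] with a ha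
  obtain ⟨ha, hm⟩ := ha
  have e := iv_rel ha (yA a ^ i * uA ^ j)
  have p0 : ∀ K L : ℕ, 0 ≤ yy (mean a) K L ^ i * uu K L ^ j := fun K L => by
    have := yy_ge1 (mean a) K L
    have := uu_ge K L
    positivity
  have k1 : 0 ≤ Lw ha (yA a ^ i * uA ^ j * ivA) := Lw_nonneg ha fun K L =>
    mul_nonneg (p0 K L) (iv_nonneg K L)
  have k2 : |Lw ha (yA a ^ i * uA ^ j * ivA * xA a)| ≤
      Lw ha (yA a ^ (i + 1) * uA ^ j * ivA) := by
    refine Lw_abs ha fun K L => ?_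
    show |yy (mean a) K L ^ i * uu K L ^ j * iv K L * X (mean a) K L| ≤
      yy (mean a) K L ^ (i + 1) * uu K L ^ j * iv K L
    rw [abs_mul, abs_mul, abs_of_nonneg (p0 K L), abs_of_nonneg (iv_nonneg K L)]
    have q1 : |X (mean a) K L| ≤ yy (mean a) K L := by
      have := uu_ge K L
      unfold yy
      linarith
    have q3 := iv_nonneg K L
    refine (mul_le_mul_of_nonneg_left q1 (mul_nonneg (p0 K L) q3)).trans (le_of_eq ?_)
    ring
  have k3 : 0 ≤ Lw ha (yA a ^ i * uA ^ j) := Lw_nonneg ha p0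
  have k4 : (2 * mean a + 1 / 2) * Lw ha (yA a ^ i * uA ^ j * ivA) ≤
      Lw ha (yA a ^ i * uA ^ j) + Lw ha (yA a ^ (i + 1) * uA ^ j * ivA) := by
    have := (abs_le.1 k2).1
    linarith
  have k5 : mean a * Lw ha (yA a ^ i * uA ^ j * ivA) ≤
      Lw ha (yA a ^ i * uA ^ j) + Lw ha (yA a ^ (i + 1) * uA ^ j * ivA) := by
    nlinarith
  have k6 : Lw ha (yA a ^ i * uA ^ j * ivA) ≤
      (Lw ha (yA a ^ i * uA ^ j) + Lw ha (yA a ^ (i + 1) * uA ^ j * ivA)) * (1 / mean a) := by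
    rw [mul_one_div, le_div_iff₀ (by linarith)]
    linarith
  show |Lw ha (yA a ^ i * uA ^ j * ivA)| ≤ |_|
  rw [abs_of_nonneg k1]
  exact k6.trans (le_abs_self _)

/-- sizes from pointwise bounds with the inverse -/
theorem of_yui (h8 : 1 ≤ C8) (hS : S ⊆ S8 C8) {i j : ℕ} (h : i + 2 + j ≤ 4)
    {φ : (ℕ → ℝ) → ℕ → ℕ → ℝ} (D : ℝ) (hb : ∀ᶠ a in FF S, PB2 (φ a) ∧
      ∀ K L, |φ a K L| ≤ D * (yy (mean a) K L ^ i * uu K L ^ j * iv K L)) :
    Sz S (fun a => Ew a (φ a)) ((i : ℤ) - 2) := by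
  refine (((sz_iv2 h8 h).sub_set hS).cmul D).of_abs_le ?_
  filter_upwards [hb, ev_ge S 0] with a ha h0
  have ham := S8_am (hS h0.1)
  have h1 : |Ew a (φ a)| ≤ Lw ham (D • (yA a ^ i * uA ^ j * ivA)) :=
    Lw_abs ham (φ := ⟨φ a, ha.1⟩) ha.2
  rw [map_smul] at h1
  exact h1.trans (le_abs_self _)

/-- the remainder of the variance -/
noncomputable def rA (a : ℕ → ℝ) : PBA := (16 : ℝ) • hvA - (xA a + (2 * mean a + 3 / 2) • (1 : PBA)) +
  (2 : ℝ) • gA - (1 / 2 : ℝ) • ivA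

theorem rA_bound (a : ℕ → ℝ) (K L : ℕ) : |(rA a).1 K L| ≤ 6 * (uu K L ^ 2 * iv K L) := by
  show |16 * hv K L - (X (mean a) K L + (2 * mean a + 3 / 2) * 1) + 2 * g K L -
    1 / 2 * iv K L| ≤ 6 * (uu K L ^ 2 * iv K L)
  have hg := g_nonneg K L
  rcases Nat.eq_zero_or_pos (K + L) with h0 | h0
  · obtain ⟨rfl, rfl⟩ : K = 0 ∧ L = 0 := by omega
    have e1 : hv 0 0 = 0 := by simp [hv, hm]
    have e2 : g 0 0 = 0 := by simp [g]
    have e3 : iv 0 0 = 2 := by norm_num [iv]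
    have e4 : uu 0 0 = 1 := by rw [uu, e2, zero_add]
    have e5 : X (mean a) 0 0 = - (2 * mean a) := by simp [X]
    rw [e1, e2, e3, e4, e5]
    have e6 : 16 * (0 : ℝ) - (-(2 * mean a) + (2 * mean a + 3 / 2) * 1) + 2 * 0 - 1 / 2 * 2 =
        -(5 / 2) := by ring
    rw [e6]
    norm_num
  · have hn : (1 : ℝ) ≤ (K : ℝ) + L := by exact_mod_cast h0
    obtain ⟨n, hn'⟩ : ∃ n, n = (K : ℝ) + L := ⟨_, rfl⟩
    obtain ⟨G, hG⟩ : ∃ G, G = g K L := ⟨_, rfl⟩
    obtain ⟨v, hv'⟩ : ∃ v, v = iv K L := ⟨_, rfl⟩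
    have h4 : 4 * hm K L = n - 1 / 2 + 1 / 4 * v - G := by
      rw [four_hm 0, hn', hv', hG]
      unfold Pool.Agent.Q284.MK.XX Pool.Agent.Q284.MK.gg g
      ring
    have hX : X (mean a) K L = n - 2 * mean a := by
      rw [hn']
      rfl
    have hvv : v * (n + 1 / 2) = 1 := by
      rw [hv', hn']
      unfold iv
      have : (0 : ℝ) < (K : ℝ) + L + 1 / 2 := by positivity
      field_simp
    rw [← hn'] at hn
    have hv0 : 0 < v := by
      by_contra hc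
      push Not at hc
      nlinarith
    have hv1 : v ≤ 2 / 3 := by nlinarith
    have hhv : 16 * hv K L * (n - 1 / 2) = (4 * hm K L) * (4 * hm K L + 2) := by
      unfold hv
      rw [← hn']
      have : n - 1 / 2 ≠ 0 := by linarith
      rw [mul_assoc, div_mul_cancel₀ _ this]
      ring
    rw [hX, ← hG, ← hv']
    obtain ⟨q, hq⟩ : ∃ q, q = G - 1 / 4 * v := ⟨_, rfl⟩
    obtain ⟨R, hR⟩ : ∃ R, R = 16 * hv K L - (n - 2 * mean a + (2 * mean a + 3 / 2) * 1) + 2 * G -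
      1 / 2 * v := ⟨_, rfl⟩
    have key : R * (n - 1 / 2) = q ^ 2 - 2 * q := by
      have e : R = 16 * hv K L - (n + 3 / 2) + 2 * q := by
        rw [hR, hq]
        ring
      rw [e, add_mul, sub_mul, hhv, h4, hq]
      ring
    rw [← hR]
    rw [← hG] at hg
    have hu : uu K L = G + 1 := by rw [hG]; rfl
    rw [hu]
    have b1 : |q| ≤ G + 1 / 6 := by
      rw [hq, abs_le]
      constructor
      · linarith
      · linarith
    have b2 : |q ^ 2 - 2 * q| ≤ (G + 1 / 6) ^ 2 + 2 * (G + 1 / 6) := by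
      refine (abs_sub _ _).trans (add_le_add ?_ ?_)
      · rw [abs_pow]
        exact pow_le_pow_left₀ (abs_nonneg _) b1 2
      · rw [abs_mul, abs_of_pos (by norm_num : (0 : ℝ) < 2)]
        linarith
    have b3 : |R| * (n - 1 / 2) ≤ (G + 1 / 6) ^ 2 + 2 * (G + 1 / 6) := by
      rw [← key, abs_mul, abs_of_pos (show 0 < n - 1 / 2 by linarith)] at b2
      exact b2
    have b4 : |R| * (n + 1 / 2) ≤ 3 * ((G + 1 / 6) ^ 2 + 2 * (G + 1 / 6)) := by
      have : |R| * (n + 1 / 2) ≤ 3 * (|R| * (n - 1 / 2)) := by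
        nlinarith [abs_nonneg R]
      linarith
    have b5 : |R| = |R| * (n + 1 / 2) * v := by
      rw [mul_assoc, mul_comm (n + 1 / 2) v, hvv, mul_one]
    rw [b5]
    calc |R| * (n + 1 / 2) * v ≤ 3 * ((G + 1 / 6) ^ 2 + 2 * (G + 1 / 6)) * v :=
          mul_le_mul_of_nonneg_right b4 hv0.le
      _ ≤ (6 * (G + 1) ^ 2) * v := by
          refine mul_le_mul_of_nonneg_right ?_ hv0.le
          nlinarith
      _ = _ := by ring

end Pool.Agent.Q237.MK
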